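import Pool.Agent.Lib.MP_1bbd88_ag.S.SDefs

set_option autoImplicit false

namespace Pool.Agent.Lib.MP_1bbd88_ag.S

open Module TensorProduct IsLocalRing

variable {K : Type*} [Field K] {n p : ℕ} [Fact p.Prime] [CharP K p]

/-- the ring homomorphism `F → P_Q / Q^[q] P_Q`, `r ↦ r^q` -/
theorem exists_theta (e : ℕ) (Q : Ideal (MvPowerSeries (Fin n) K)) [Q.IsPrime] :
    ∃ θ : FF Q →+* (Localization.AtPrime Q ⧸ QO Q (p ^ e)), ∀ g : MvPowerSeries (Fin n) K,
      θ (jj Q g) = Ideal.Quotient.mk _ (algebraMap (MvPowerSeries (Fin n) K)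
        (Localization.AtPrime Q) g) ^ p ^ e := by
  have hch : CharP (MvPowerSeries (Fin n) K) p :=
    charP_of_injective_ringHom (MvPowerSeries.C : K →+* MvPowerSeries (Fin n) K).injective p
  let φ₀ : MvPowerSeries (Fin n) K →+* (Localization.AtPrime Q ⧸ QO Q (p ^ e)) :=
    ((Ideal.Quotient.mk (QO Q (p ^ e))).comp (algebraMap (MvPowerSeries (Fin n) K)
      (Localization.AtPrime Q))).comp (iterateFrobenius (MvPowerSeries (Fin n) K) p e)
  have hφ₀ : ∀ g, φ₀ g = Ideal.Quotient.mk _ (algebraMap (MvPowerSeries (Fin n) K)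
        (Localization.AtPrime Q) g) ^ p ^ e := by
    intro g
    show Ideal.Quotient.mk (QO Q (p ^ e)) (algebraMap (MvPowerSeries (Fin n) K)
      (Localization.AtPrime Q) (iterateFrobenius (MvPowerSeries (Fin n) K) p e g)) = _
    rw [iterateFrobenius_def, map_pow, map_pow]
  have hker : ∀ g ∈ Q, φ₀ g = 0 := by
    intro g hg
    rw [hφ₀, ← map_pow, ← map_pow, Ideal.Quotient.eq_zero_iff_mem]
    exact Ideal.mem_map_of_mem _ (Ideal.subset_span ⟨g, hg, rfl⟩)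
  let φ₁ : (MvPowerSeries (Fin n) K ⧸ Q) →+* (Localization.AtPrime Q ⧸ QO Q (p ^ e)) :=
    Ideal.Quotient.lift Q φ₀ hker
  have hφ₁ : ∀ g, φ₁ (Ideal.Quotient.mk Q g) = φ₀ g := fun g => Ideal.Quotient.lift_mk Q φ₀ hker
  have hunit : ∀ y : nonZeroDivisors (MvPowerSeries (Fin n) K ⧸ Q), IsUnit (φ₁ y) := by
    rintro ⟨y, hy⟩
    obtain ⟨g, rfl⟩ := Ideal.Quotient.mk_surjective y
    simp only
    rw [hφ₁, hφ₀]
    apply IsUnit.pow
    apply IsUnit.map
    have hg : g ∈ Q.primeCompl := by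
      intro hm
      exact nonZeroDivisors.ne_zero hy (Ideal.Quotient.eq_zero_iff_mem.2 hm)
    exact IsLocalization.map_units (Localization.AtPrime Q) ⟨g, hg⟩
  let θ : FF Q →+* (Localization.AtPrime Q ⧸ QO Q (p ^ e)) :=
    IsLocalization.lift (M := nonZeroDivisors (MvPowerSeries (Fin n) K ⧸ Q)) (S := FF Q)
      (P := Localization.AtPrime Q ⧸ QO Q (p ^ e)) (g := φ₁) hunit
  refine ⟨θ, ?_⟩
  intro g
  have h1 : θ (algebraMap (MvPowerSeries (Fin n) K ⧸ Q) (FF Q) (Ideal.Quotient.mk Q g)) =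
      φ₁ (Ideal.Quotient.mk Q g) := IsLocalization.lift_eq hunit (Ideal.Quotient.mk Q g)
  rw [jj, RingHom.comp_apply, h1, hφ₁, hφ₀]

end Pool.Agent.Lib.MP_1bbd88_ag.S
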