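import Pool.Agent.Lib.MP_1bbd88_ag.S.M2

set_option autoImplicit false

namespace Pool.Agent.Lib.MP_1bbd88_ag.S

open Module TensorProduct IsLocalRing

variable {K : Type*} [Field K] {n p : ℕ} [Fact p.Prime] [CharP K p] [IsAlgClosed K]

omit [IsAlgClosed K] in
theorem A1b_mem_map (Q : Ideal (MvPowerSeries (Fin n) K)) [Q.IsPrime]
    (I : Ideal (MvPowerSeries (Fin n) K)) (x : MvPowerSeries (Fin n) K)
    (h : algebraMap (MvPowerSeries (Fin n) K) (Localization.AtPrime Q) x ∈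
      I.map (algebraMap (MvPowerSeries (Fin n) K) (Localization.AtPrime Q))) :
    ∃ t : MvPowerSeries (Fin n) K, t ∉ Q ∧ t * x ∈ I := by
  rw [IsLocalization.mem_map_algebraMap_iff Q.primeCompl] at h
  obtain ⟨⟨a, s⟩, h1⟩ := h
  rw [← map_mul, IsLocalization.eq_iff_exists Q.primeCompl] at h1
  obtain ⟨c, h2⟩ := h1
  refine ⟨c * s, ?_, ?_⟩
  · exact (c * s).2
  · have h3 : (c : MvPowerSeries (Fin n) K) * s * x = c * (x * s) := by ring
    rw [h3, h2]
    exact I.mul_mem_left _ a.2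

/-- the monomials with exponents `< q` are linearly independent over `F` via `θ` -/
theorem theta_indep (e : ℕ) (Q : Ideal (MvPowerSeries (Fin n) K)) [Q.IsPrime]
    (θ : FF Q →+* (Localization.AtPrime Q ⧸ QO Q (p ^ e)))
    (hθ : ∀ g : MvPowerSeries (Fin n) K,
      θ (jj Q g) = Ideal.Quotient.mk _ (algebraMap (MvPowerSeries (Fin n) K)
        (Localization.AtPrime Q) g) ^ p ^ e)
    (c : (Fin n → Fin (p ^ e)) → FF Q)
    (h : ∑ β, θ (c β) * Ideal.Quotient.mk _ (algebraMap (MvPowerSeries (Fin n) K)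
      (Localization.AtPrime Q) (∏ i, MvPowerSeries.X i ^ (β i : ℕ))) = 0) : ∀ β, c β = 0 := by
  obtain ⟨b, hb⟩ := IsLocalization.exist_integer_multiples_of_finite
    (nonZeroDivisors (MvPowerSeries (Fin n) K ⧸ Q)) c
  obtain ⟨s, hs⟩ := Ideal.Quotient.mk_surjective (b : MvPowerSeries (Fin n) K ⧸ Q)
  have hr : ∀ β, ∃ r : MvPowerSeries (Fin n) K, jj Q r = jj Q s * c β := by
    intro β
    obtain ⟨r', hr'⟩ := hb β
    obtain ⟨r, hr⟩ := Ideal.Quotient.mk_surjective r'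
    refine ⟨r, ?_⟩
    rw [jj, RingHom.comp_apply, hr, hr', RingHom.comp_apply, hs, Algebra.smul_def]
  choose r hr using hr
  have hsne : jj Q s ≠ 0 := by
    rw [jj, RingHom.comp_apply, hs]
    exact IsLocalization.to_map_ne_zero_of_mem_nonZeroDivisors _ le_rfl b.2
  have h1 : Ideal.Quotient.mk (QO Q (p ^ e)) (algebraMap (MvPowerSeries (Fin n) K)
      (Localization.AtPrime Q) (∑ β, r β ^ p ^ e *
        ∏ i, (MvPowerSeries.X i : MvPowerSeries (Fin n) K) ^ (β i : ℕ))) = 0 := by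
    rw [map_sum, map_sum]
    calc ∑ β, Ideal.Quotient.mk (QO Q (p ^ e)) (algebraMap (MvPowerSeries (Fin n) K)
            (Localization.AtPrime Q) (r β ^ p ^ e *
              ∏ i, (MvPowerSeries.X i : MvPowerSeries (Fin n) K) ^ (β i : ℕ)))
        = ∑ β, θ (jj Q s) * (θ (c β) * Ideal.Quotient.mk _ (algebraMap (MvPowerSeries (Fin n) K)
            (Localization.AtPrime Q) (∏ i, MvPowerSeries.X i ^ (β i : ℕ)))) := by
          refine Finset.sum_congr rfl fun β _ => ?_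
          rw [← mul_assoc, ← map_mul, ← hr, hθ, map_mul, map_mul, map_pow, map_pow]
      _ = θ (jj Q s) * ∑ β, θ (c β) * Ideal.Quotient.mk _ (algebraMap (MvPowerSeries (Fin n) K)
            (Localization.AtPrime Q) (∏ i, MvPowerSeries.X i ^ (β i : ℕ))) := by
          rw [Finset.mul_sum]
      _ = 0 := by rw [h, mul_zero]
  rw [Ideal.Quotient.eq_zero_iff_mem, QO] at h1
  obtain ⟨t, ht, h2⟩ := A1b_mem_map Q _ _ h1
  have hq : 0 < p ^ e := pow_pos (Fact.out : p.Prime).pos e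
  have h3 : ∑ β, (t * r β) ^ p ^ e *
      ∏ i, (MvPowerSeries.X i : MvPowerSeries (Fin n) K) ^ (β i : ℕ) ∈ bracket Q (p ^ e) := by
    have h4 : ∑ β, (t * r β) ^ p ^ e *
        ∏ i, (MvPowerSeries.X i : MvPowerSeries (Fin n) K) ^ (β i : ℕ) =
        t ^ (p ^ e - 1) * (t * ∑ β, r β ^ p ^ e *
          ∏ i, (MvPowerSeries.X i : MvPowerSeries (Fin n) K) ^ (β i : ℕ)) := by
      rw [← mul_assoc, ← pow_succ, Nat.sub_add_cancel hq, Finset.mul_sum]
      refine Finset.sum_congr rfl fun β _ => ?_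
      rw [mul_pow, mul_assoc]
    rw [h4]
    exact Ideal.mul_mem_left _ _ h2
  intro β
  have h5 := expand_mem e Q (fun β => t * r β) h3 β
  have h6 : r β ∈ Q := (Ideal.IsPrime.mem_or_mem ‹Q.IsPrime› h5).resolve_left ht
  have h7 : jj Q s * c β = 0 := by rw [← hr, jj_ker]; exact h6
  exact (mul_eq_zero.1 h7).resolve_left hsne

end Pool.Agent.Lib.MP_1bbd88_ag.S
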