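import Pool.Agent.Lib.MP_1bbd88_ag.S.M1

set_option autoImplicit false

namespace Pool.Agent.Lib.MP_1bbd88_ag.S

open Module TensorProduct IsLocalRing

variable {K : Type*} [Field K] {n p : ℕ} [Fact p.Prime] [CharP K p] [IsAlgClosed K]

theorem F0_mem_kq {F : Type*} [Field F] [CharP F p] (e : ℕ) (y : F) : y ^ p ^ e ∈ kq F p e := by
  rw [kq, RingHom.mem_fieldRange]
  exact ⟨y, iterateFrobenius_def ..⟩

/-- the monomials generate `F` over `F^q` -/
theorem span_mon (e : ℕ) (Q : Ideal (MvPowerSeries (Fin n) K)) [Q.IsPrime] :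
    Submodule.span (kq (FF Q) p e) (Set.range fun β : Fin n → Fin (p ^ e) =>
      jj Q (∏ i, MvPowerSeries.X i ^ (β i : ℕ))) = ⊤ := by
  rw [Submodule.eq_top_iff']
  intro x
  obtain ⟨a, b, hb, rfl⟩ := IsFractionRing.div_surjective (A := MvPowerSeries (Fin n) K ⧸ Q) x
  obtain ⟨a', rfl⟩ := Ideal.Quotient.mk_surjective a
  obtain ⟨b', rfl⟩ := Ideal.Quotient.mk_surjective b
  have hb0 : jj Q b' ≠ 0 := by
    rw [jj, RingHom.comp_apply]
    exact IsFractionRing.to_map_ne_zero_of_mem_nonZeroDivisors hb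
  have hq : p ^ e ≠ 0 := pow_ne_zero _ (Fact.out (p := p.Prime)).ne_zero
  obtain ⟨c, hc⟩ := expand (p := p) e (a' * b' ^ (p ^ e - 1))
  have h1 : algebraMap (MvPowerSeries (Fin n) K ⧸ Q) (FF Q) (Ideal.Quotient.mk Q a') /
      algebraMap (MvPowerSeries (Fin n) K ⧸ Q) (FF Q) (Ideal.Quotient.mk Q b') =
      jj Q a' / jj Q b' := rfl
  have h2 : jj Q a' / jj Q b' = jj Q (a' * b' ^ (p ^ e - 1)) / jj Q b' ^ p ^ e := by
    rw [map_mul, map_pow]
    obtain ⟨m, hm⟩ := Nat.exists_eq_succ_of_ne_zero hq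
    rw [hm, Nat.succ_sub_one, Nat.succ_eq_add_one, pow_succ]
    field_simp
  rw [h1, h2, hc, map_sum, Finset.sum_div]
  refine Submodule.sum_mem _ fun β _ => ?_
  have h3 : jj Q (c β ^ p ^ e * ∏ i, (MvPowerSeries.X i : MvPowerSeries (Fin n) K) ^ (β i : ℕ)) /
      jj Q b' ^ p ^ e =
      (⟨(jj Q (c β) / jj Q b') ^ p ^ e, F0_mem_kq e _⟩ : kq (FF Q) p e) •
        jj Q (∏ i, (MvPowerSeries.X i : MvPowerSeries (Fin n) K) ^ (β i : ℕ)) := by
    change _ = (jj Q (c β) / jj Q b') ^ p ^ e *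
      jj Q (∏ i, (MvPowerSeries.X i : MvPowerSeries (Fin n) K) ^ (β i : ℕ))
    rw [map_mul, map_pow, div_pow]
    ring
  rw [h3]
  exact Submodule.smul_mem _ _ (Submodule.subset_span ⟨β, rfl⟩)

instance finite_FF (e : ℕ) (Q : Ideal (MvPowerSeries (Fin n) K)) [Q.IsPrime] :
    FiniteDimensional (kq (FF Q) p e) (FF Q) := by
  refine ⟨?_⟩
  rw [← span_mon e Q]
  exact Submodule.fg_span (Set.finite_range _)

end Pool.Agent.Lib.MP_1bbd88_ag.S
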