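import Pool.Agent.Lib.MP_1bbd88_ag.S.A1a
import Pool.Agent.Lib.MP_1bbd88_ag.S.A1b
import Pool.Agent.Lib.MP_1bbd88_ag.S.F0

set_option autoImplicit false

namespace Pool.Agent.Lib.MP_1bbd88_ag.S

open Module TensorProduct IsLocalRing

variable {K : Type*} [Field K] {n p : ℕ} [Fact p.Prime] [CharP K p] [IsAlgClosed K]

omit [CharP K p] [IsAlgClosed K] in
theorem A1c_le (e : ℕ) (Q : Ideal (MvPowerSeries (Fin n) K)) [Q.IsPrime] :
    QO Q (p ^ e) ≤ maximalIdeal (Localization.AtPrime Q) := by
  rw [QO, Ideal.map_le_iff_le_comap, bracket, Ideal.span_le]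
  rintro _ ⟨x, hx, rfl⟩
  change algebraMap (MvPowerSeries (Fin n) K) (Localization.AtPrime Q) (x ^ p ^ e) ∈
    maximalIdeal (Localization.AtPrime Q)
  rw [map_pow]
  refine Ideal.pow_mem_of_mem _ ?_ _ (pow_pos (Fact.out : p.Prime).pos e)
  exact (IsLocalization.AtPrime.to_map_mem_maximal_iff (Localization.AtPrime Q) Q x).2 hx

/-- dimension of the residue field -/
theorem A1c_residue {F B : Type*} [Field F] [CommRing B] [IsLocalRing B] (p e : ℕ) [Fact p.Prime]
    [CharP F p] [FiniteDimensional (kq F p e) F] [Algebra F B] [IsLocalHom (algebraMap F B)]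
    (σ : F →+* ResidueField B) (hσ : Function.Surjective σ)
    (h : ∀ x : F, residue B (algebraMap F B x) = σ (x ^ p ^ e)) :
    Module.length (ResidueField F) (ResidueField B) ≤ (finrank (kq F p e) F : ℕ∞) := by
  have h1 : Module.length F (ResidueField B) =
      Module.length (ResidueField F) (ResidueField B) :=
    Module.length_eq_of_surjective (R := ResidueField F) residue_surjective
  rw [← h1]
  set b := Module.finBasis (kq F p e) F with hb
  have hspan : Submodule.span F (Set.range fun i => σ (b i)) = ⊤ := by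
    rw [eq_top_iff]
    rintro y -
    obtain ⟨x, rfl⟩ := hσ y
    rw [← b.sum_repr x, map_sum]
    refine Submodule.sum_mem _ fun i _ => ?_
    obtain ⟨z, hz⟩ := (b.repr x i).2
    have h2 : σ (b.repr x i • b i) = z • σ (b i) := by
      rw [Algebra.smul_def, map_mul, Algebra.smul_def]
      congr 1
      have h3 : algebraMap F (ResidueField B) z = residue B (algebraMap F B z) := rfl
      rw [h3, h, ← iterateFrobenius_def, hz]
      rfl
    rw [h2]
    exact Submodule.smul_mem _ _ (Submodule.subset_span ⟨i, rfl⟩)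
  have hfin : FiniteDimensional F (ResidueField B) :=
    ⟨Submodule.fg_def.2 ⟨_, Set.finite_range _, hspan⟩⟩
  have h4 := finrank_range_le_card (R := F) (fun i => σ (b i))
  rw [Set.finrank, hspan, finrank_top, Fintype.card_fin] at h4
  rw [Module.length_eq_finrank]
  exact_mod_cast h4

theorem A1c_indep {F B ι : Type*} [Field F] [CommRing B] [Fintype ι] [Algebra F B] (v : ι → B)
    (h : ∀ c : ι → F, ∑ i, algebraMap F B (c i) * v i = 0 → ∀ i, c i = 0) :
    (Fintype.card ι : ℕ∞) ≤ Module.length F B := by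
  have h1 : Module.length F (ι → F) = (Fintype.card ι : ℕ∞) := by
    rw [Module.length_eq_finrank, Module.finrank_fintype_fun_eq_card]
  rw [← h1]
  refine Module.length_le_of_injective (Fintype.linearCombination F v) ?_
  rw [← LinearMap.ker_eq_bot, LinearMap.ker_eq_bot']
  intro c hc
  funext i
  refine h c ?_ i
  rw [Fintype.linearCombination_apply] at hc
  rw [← hc]
  refine Finset.sum_congr rfl fun j _ => ?_
  rw [Algebra.smul_def]

omit [IsAlgClosed K] in
/-- the ring homomorphism from the fraction field to the residue field -/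
theorem A1c_sigma (Q : Ideal (MvPowerSeries (Fin n) K)) [Q.IsPrime] {B : Type*} [CommRing B]
    [IsLocalRing B] (f : Localization.AtPrime Q →+* B) (hf : Function.Surjective f) :
    ∃ σ : FF Q →+* ResidueField B, Function.Surjective σ ∧ ∀ g : MvPowerSeries (Fin n) K,
      σ (jj Q g) = residue B (f (algebraMap (MvPowerSeries (Fin n) K)
        (Localization.AtPrime Q) g)) := by
  set O := Localization.AtPrime Q with hO
  have hloc : IsLocalHom f := hf.isLocalHom
  set ψ : MvPowerSeries (Fin n) K →+* ResidueField B :=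
    (residue B).comp (f.comp (algebraMap (MvPowerSeries (Fin n) K) O)) with hψ
  have hker : ∀ g, ψ g = 0 ↔ g ∈ Q := by
    intro g
    rw [hψ, RingHom.comp_apply, RingHom.comp_apply, residue_eq_zero_iff,
      ← IsLocalization.AtPrime.to_map_mem_maximal_iff O Q g]
    rw [mem_maximalIdeal, mem_maximalIdeal, mem_nonunits_iff, mem_nonunits_iff,
      isUnit_map_iff f]
  set ψ' : (MvPowerSeries (Fin n) K ⧸ Q) →+* ResidueField B :=
    Ideal.Quotient.lift Q ψ (fun g hg => (hker g).2 hg) with hψ'
  have hinj : Function.Injective ψ' := by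
    rw [injective_iff_map_eq_zero]
    intro x hx
    obtain ⟨g, rfl⟩ := Ideal.Quotient.mk_surjective x
    rw [hψ', Ideal.Quotient.lift_mk] at hx
    exact Ideal.Quotient.eq_zero_iff_mem.2 ((hker g).1 hx)
  refine ⟨IsFractionRing.lift hinj, ?_, fun g => ?_⟩
  · intro y
    obtain ⟨z, rfl⟩ := residue_surjective y
    obtain ⟨w, rfl⟩ := hf z
    obtain ⟨a, s, rfl⟩ := IsLocalization.exists_mk'_eq Q.primeCompl w
    refine ⟨jj Q a / jj Q (s : MvPowerSeries (Fin n) K), ?_⟩
    have hs : ψ (s : MvPowerSeries (Fin n) K) ≠ 0 := fun h => s.2 ((hker _).1 h)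
    have h1 : ∀ g, IsFractionRing.lift hinj (jj Q g) = ψ g := by
      intro g
      rw [jj, RingHom.comp_apply, IsFractionRing.lift_algebraMap, hψ', Ideal.Quotient.lift_mk]
    rw [map_div₀, h1, h1, div_eq_iff hs]
    rw [hψ]
    simp only [RingHom.comp_apply]
    rw [← map_mul, ← map_mul, IsLocalization.mk'_spec]
  · rw [jj, RingHom.comp_apply, IsFractionRing.lift_algebraMap, hψ', Ideal.Quotient.lift_mk]
    rfl

theorem A1c_final {F O B ι : Type*} [Field F] [CommRing O] [CommRing B] [IsLocalRing B]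
    [Fintype ι] [Algebra O B] (hO : Function.Surjective (algebraMap O B)) (p e : ℕ) [Fact p.Prime]
    [CharP F p] [FiniteDimensional (kq F p e) F] (θ : F →+* B) (σ : F →+* ResidueField B)
    (hσ : Function.Surjective σ) (h : ∀ x : F, residue B (θ x) = σ (x ^ p ^ e)) (v : ι → B)
    (hv : ∀ c : ι → F, ∑ i, θ (c i) * v i = 0 → ∀ i, c i = 0) :
    (Fintype.card ι : ℕ∞) ≤ Module.length O B * (finrank (kq F p e) F : ℕ∞) := by
  letI alg : Algebra F B := θ.toAlgebra
  have hloc : IsLocalHom (algebraMap F B) := by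
    refine ⟨fun a ha => ?_⟩
    rw [isUnit_iff_ne_zero]
    rintro rfl
    rw [map_zero] at ha
    exact not_isUnit_zero ha
  have h1 : Module.length (ResidueField F) (ResidueField B) ≤ (finrank (kq F p e) F : ℕ∞) :=
    A1c_residue p e σ hσ h
  have h2 := IsLocalRing.length_restrictScalars F B B
  have h3 : Module.length O B = Module.length B B := Module.length_eq_of_surjective hO
  have h4 : (Fintype.card ι : ℕ∞) ≤ Module.length F B := A1c_indep v hv
  refine h4.trans ?_
  rw [h2, h3]
  exact mul_le_mul_right h1 _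

theorem pow_le_length (e : ℕ) (Q : Ideal (MvPowerSeries (Fin n) K)) [Q.IsPrime] :
    (((p ^ e) ^ n : ℕ) : ℕ∞) ≤
      Module.length (Localization.AtPrime Q) (Localization.AtPrime Q ⧸ QO Q (p ^ e)) *
        (finrank (kq (FF Q) p e) (FF Q) : ℕ∞) := by
  obtain ⟨θ, hθ⟩ := exists_theta (p := p) e Q
  have hind := theta_indep e Q θ hθ
  have hne : QO Q (p ^ e) ≠ ⊤ := fun h => (maximalIdeal.isMaximal _).ne_top
    (top_le_iff.1 (h ▸ A1c_le (p := p) e Q))
  have hnt : Nontrivial (Localization.AtPrime Q ⧸ QO Q (p ^ e)) := Ideal.Quotient.nontrivial_iff.2 hne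
  have hsurj : Function.Surjective (Ideal.Quotient.mk (QO Q (p ^ e))) := Ideal.Quotient.mk_surjective
  have hB : IsLocalRing (Localization.AtPrime Q ⧸ QO Q (p ^ e)) :=
    IsLocalRing.of_surjective' _ hsurj
  obtain ⟨σ, hσ, hσ'⟩ := A1c_sigma (B := Localization.AtPrime Q ⧸ QO Q (p ^ e)) Q
    (Ideal.Quotient.mk (QO Q (p ^ e))) hsurj
  have hfin := finite_FF (p := p) e Q
  have key : (residue (Localization.AtPrime Q ⧸ QO Q (p ^ e))).comp θ =
      σ.comp (iterateFrobenius (FF Q) p e) := by
    refine IsLocalization.ringHom_ext (nonZeroDivisors (MvPowerSeries (Fin n) K ⧸ Q)) ?_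
    refine Ideal.Quotient.ringHom_ext ?_
    refine RingHom.ext fun g => ?_
    change residue _ (θ (jj Q g)) = σ (iterateFrobenius (FF Q) p e (jj Q g))
    rw [hθ, iterateFrobenius_def, map_pow, map_pow, hσ']
  have h := A1c_final hsurj p e θ σ hσ (fun x => RingHom.congr_fun key x) _ hind
  rw [Fintype.card_fun, Fintype.card_fin, Fintype.card_fin] at h
  exact h

end Pool.Agent.Lib.MP_1bbd88_ag.S
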