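import Pool.Agent.Lib.MP_1bbd88_ag.S.SDefs

set_option autoImplicit false

namespace Pool.Agent.Lib.MP_1bbd88_ag.S

open Module TensorProduct IsLocalRing

theorem A2a_exact {O N M P : Type*} [CommRing O] [AddCommGroup N] [AddCommGroup M]
    [AddCommGroup P] [Module O N] [Module O M] [Module O P] (f : N →ₗ[O] M) (g : M →ₗ[O] P)
    (hg : Function.Surjective g) (h : LinearMap.ker g ≤ LinearMap.range f) :
    Module.length O M ≤ Module.length O N + Module.length O P := by
  rw [Module.length_eq_add_of_exact (LinearMap.ker g).subtype g (Submodule.subtype_injective _) hg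
    (LinearMap.exact_subtype_ker_map g)]
  have h1 : Module.length O (LinearMap.ker g) ≤ Module.length O (LinearMap.range f) :=
    Module.length_le_of_injective (Submodule.inclusion h) (Submodule.inclusion_injective h)
  have h2 : Module.length O (LinearMap.range f) ≤ Module.length O N :=
    Module.length_le_of_surjective f.rangeRestrict f.surjective_rangeRestrict
  exact add_le_add (h1.trans h2) le_rfl

/-- killing a power of an element multiplies the length at most by the exponent -/
theorem length_pow_le {O : Type*} [CommRing O] (J : Ideal O) (z : O) (q : ℕ) :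
    Module.length O (O ⧸ (J ⊔ Ideal.span {z ^ q})) ≤
      (q : ℕ∞) * Module.length O (O ⧸ (J ⊔ Ideal.span {z})) := by
  induction q with
  | zero =>
    have h1 : Subsingleton (O ⧸ (J ⊔ Ideal.span {z ^ 0})) := by
      rw [Ideal.Quotient.subsingleton_iff, pow_zero, Ideal.span_singleton_one, sup_top_eq]
    rw [Module.length_eq_zero]
    exact bot_le
  | succ q ih =>
    have hle : J ⊔ Ideal.span {z ^ (q + 1)} ≤ J ⊔ Ideal.span {z ^ q} := by
      refine sup_le_sup le_rfl ?_
      rw [Ideal.span_singleton_le_span_singleton]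
      exact pow_dvd_pow z (Nat.le_succ q)
    have hf : (J ⊔ Ideal.span {z}) ≤
        Submodule.comap (LinearMap.lsmul O O (z ^ q)) (J ⊔ Ideal.span {z ^ (q + 1)}) := by
      refine sup_le ?_ ?_
      · intro x hx
        exact Ideal.mem_sup_left (J.mul_mem_left _ hx)
      · intro x hx
        obtain ⟨y, rfl⟩ := Ideal.mem_span_singleton'.1 hx
        refine Ideal.mem_sup_right (Ideal.mem_span_singleton'.2 ⟨y, ?_⟩)
        change y * z ^ (q + 1) = z ^ q * (y * z)
        ring
    have h1 := A2a_exact (Submodule.mapQ (J ⊔ Ideal.span {z}) (J ⊔ Ideal.span {z ^ (q + 1)})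
      (LinearMap.lsmul O O (z ^ q)) hf)
      (Submodule.factor hle) (Submodule.factor_surjective hle) (by
        intro y hy
        obtain ⟨x, rfl⟩ := Submodule.Quotient.mk_surjective _ y
        have hx : Submodule.Quotient.mk (p := J ⊔ Ideal.span {z ^ q}) x = 0 := hy
        rw [Submodule.Quotient.mk_eq_zero] at hx
        obtain ⟨j, hj, w, hw, rfl⟩ := Submodule.mem_sup.1 hx
        obtain ⟨c, rfl⟩ := Ideal.mem_span_singleton'.1 hw
        refine ⟨Submodule.Quotient.mk c, ?_⟩
        rw [Submodule.mapQ_apply, Submodule.Quotient.eq]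
        apply Ideal.mem_sup_left
        change z ^ q * c - (j + c * z ^ q) ∈ J
        have h2 : z ^ q * c - (j + c * z ^ q) = -j := by ring
        rw [h2]
        exact J.neg_mem hj)
    refine h1.trans ?_
    calc Module.length O (O ⧸ (J ⊔ Ideal.span {z})) +
        Module.length O (O ⧸ (J ⊔ Ideal.span {z ^ q})) ≤
        Module.length O (O ⧸ (J ⊔ Ideal.span {z})) +
          (q : ℕ∞) * Module.length O (O ⧸ (J ⊔ Ideal.span {z})) := add_le_add le_rfl ih
      _ = ((q + 1 : ℕ) : ℕ∞) * Module.length O (O ⧸ (J ⊔ Ideal.span {z})) := by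
        push_cast
        rw [add_mul, one_mul, add_comm]

theorem A2a_finset {O : Type*} [CommRing O] (q : ℕ) (s : Finset O) : ∀ J : Ideal O,
    Module.length O (O ⧸ (J ⊔ Ideal.span ((fun z => z ^ q) '' (s : Set O)))) ≤
      (q : ℕ∞) ^ s.card * Module.length O (O ⧸ (J ⊔ Ideal.span (s : Set O))) := by
  classical
  induction s using Finset.induction_on with
  | empty =>
    intro J
    rw [Finset.coe_empty, Set.image_empty, Finset.card_empty, pow_zero, one_mul]
  | insert a s ha ih =>
    intro J
    have e1 : J ⊔ Ideal.span ((fun z => z ^ q) '' ((insert a s : Finset O) : Set O)) =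
        (J ⊔ Ideal.span {a ^ q}) ⊔ Ideal.span ((fun z => z ^ q) '' (s : Set O)) := by
      rw [Finset.coe_insert, Set.image_insert_eq, Ideal.span_insert, sup_assoc]
    have e2 : (J ⊔ Ideal.span {a ^ q}) ⊔ Ideal.span (s : Set O) =
        (J ⊔ Ideal.span (s : Set O)) ⊔ Ideal.span {a ^ q} := by
      rw [sup_assoc, sup_assoc, sup_comm (Ideal.span {a ^ q})]
    have e3 : J ⊔ Ideal.span ((insert a s : Finset O) : Set O) =
        (J ⊔ Ideal.span (s : Set O)) ⊔ Ideal.span {a} := by
      rw [Finset.coe_insert, Ideal.span_insert, sup_assoc, sup_comm (Ideal.span {a})]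
    rw [e1, e3, Finset.card_insert_of_notMem ha]
    refine (ih (J ⊔ Ideal.span {a ^ q})).trans ?_
    rw [e2, pow_succ, mul_assoc]
    gcongr
    exact length_pow_le (J ⊔ Ideal.span (s : Set O)) a q

/-- the same for several elements -/
theorem length_pow_le_finset {O : Type*} [CommRing O] (s : Finset O) (q : ℕ) :
    Module.length O (O ⧸ Ideal.span ((fun z => z ^ q) '' (s : Set O))) ≤
      (q : ℕ∞) ^ s.card * Module.length O (O ⧸ Ideal.span (s : Set O)) := by
  have h := A2a_finset q s ⊥
  rwa [bot_sup_eq, bot_sup_eq] at h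

end Pool.Agent.Lib.MP_1bbd88_ag.S
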