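import Pool.Agent.Lib.MP_1bbd88_ag.S.A2a

set_option autoImplicit false

namespace Pool.Agent.Lib.MP_1bbd88_ag.S

open Module TensorProduct IsLocalRing

variable {K : Type*} [Field K] {n p : ℕ} [Fact p.Prime]

/-- the quotient of a Noetherian local ring by an ideal over which the maximal ideal is minimal has
finite length -/
private theorem A2b_length_ne_top {O : Type*} [CommRing O] [IsLocalRing O] [IsNoetherianRing O]
    (I : Ideal O) (hI : maximalIdeal O ∈ I.minimalPrimes) : Module.length O (O ⧸ I) ≠ ⊤ := by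
  have hart : IsArtinianRing (O ⧸ I) :=
    IsLocalRing.quotient_artinian_of_mem_minimalPrimes_of_isLocalRing I hI
  rw [Module.length_eq_of_surjective (R := O ⧸ I) (M := O ⧸ I) (S := O)
    (Ideal.Quotient.mk_surjective)]
  exact Module.length_ne_top

theorem length_QO_le (Q : Ideal (MvPowerSeries (Fin n) K)) [Q.IsPrime] (h : ℕ)
    (hh : Q.height = h) : ∃ C : ℕ, ∀ e : ℕ,
      Module.length (Localization.AtPrime Q) (Localization.AtPrime Q ⧸ QO Q (p ^ e)) ≤
        ((C * (p ^ e) ^ h : ℕ) : ℕ∞) := by
  classical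
  obtain ⟨s, hs, hcard⟩ := Q.exists_finset_card_eq_height_of_isNoetherianRing
  rw [hh] at hcard
  have hcard' : s.card = h := by exact_mod_cast hcard
  have hsQ : ∀ z ∈ s, z ∈ Q := fun z hz => hs.le (Ideal.subset_span hz)
  set f := algebraMap (MvPowerSeries (Fin n) K) (Localization.AtPrime Q) with hf
  set s' : Finset (Localization.AtPrime Q) := s.image f with hs'
  have hspan : Ideal.span (s' : Set (Localization.AtPrime Q)) =
      (Ideal.span (s : Set (MvPowerSeries (Fin n) K))).map f := by
    rw [Ideal.map_span, hs', Finset.coe_image]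
  have hmin : maximalIdeal (Localization.AtPrime Q) ∈
      (Ideal.span (s' : Set (Localization.AtPrime Q))).minimalPrimes := by
    rw [hspan, IsLocalization.minimalPrimes_map Q.primeCompl (Localization.AtPrime Q) _,
      Set.mem_preimage, Localization.AtPrime.under_maximalIdeal]
    exact hs
  have hnoe : IsNoetherianRing (Localization.AtPrime Q) :=
    IsLocalization.isNoetherianRing Q.primeCompl (Localization.AtPrime Q) inferInstance
  have hfin := A2b_length_ne_top _ hmin
  obtain ⟨C, hC⟩ := ENat.ne_top_iff_exists.1 hfin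
  refine ⟨C, fun e => ?_⟩
  have hle : Ideal.span ((fun z => z ^ (p ^ e)) '' (s' : Set (Localization.AtPrime Q))) ≤
      QO Q (p ^ e) := by
    rw [Ideal.span_le]
    rintro _ ⟨z', hz', rfl⟩
    obtain ⟨z, hz, rfl⟩ := Finset.mem_image.1 (Finset.mem_coe.1 hz')
    change f z ^ (p ^ e) ∈ QO Q (p ^ e)
    rw [← map_pow]
    exact Ideal.mem_map_of_mem f (Ideal.subset_span ⟨z, hsQ z hz, rfl⟩)
  have h1 : Module.length (Localization.AtPrime Q) (Localization.AtPrime Q ⧸ QO Q (p ^ e)) ≤
      Module.length (Localization.AtPrime Q) (Localization.AtPrime Q ⧸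
        Ideal.span ((fun z => z ^ (p ^ e)) '' (s' : Set (Localization.AtPrime Q)))) :=
    Module.length_le_of_surjective (Submodule.factor hle) (Submodule.factor_surjective hle)
  have hp : 1 ≤ p ^ e := Nat.one_le_pow _ _ (Fact.out : p.Prime).pos
  have hcs : s'.card ≤ h := by
    rw [← hcard']
    exact Finset.card_image_le
  calc Module.length (Localization.AtPrime Q) (Localization.AtPrime Q ⧸ QO Q (p ^ e))
      ≤ _ := h1
    _ ≤ ((p ^ e : ℕ) : ℕ∞) ^ s'.card * Module.length (Localization.AtPrime Q)
        (Localization.AtPrime Q ⧸ Ideal.span (s' : Set (Localization.AtPrime Q))) :=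
        length_pow_le_finset s' (p ^ e)
    _ = ((C * (p ^ e) ^ s'.card : ℕ) : ℕ∞) := by
        rw [← hC, mul_comm]
        push_cast
        rfl
    _ ≤ ((C * (p ^ e) ^ h : ℕ) : ℕ∞) := by
        exact_mod_cast Nat.mul_le_mul_left C (Nat.pow_le_pow_right hp hcs)

end Pool.Agent.Lib.MP_1bbd88_ag.S
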