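import Pool.Agent.Lib.MP_1bbd88_ag.S.SDefs

set_option autoImplicit false

namespace Pool.Agent.Lib.MP_1bbd88_ag.S

open Module TensorProduct IsLocalRing

/-- The degree of a homomorphism of fields. -/
noncomputable def A3_deg {A B : Type*} [Field A] [Field B] (f : A →+* B) : ℕ :=
  @finrank A B _ _ f.toAlgebra.toModule

theorem A3_deg_comp {A B C : Type*} [Field A] [Field B] [Field C] (f : A →+* B) (g : B →+* C) :
    A3_deg (g.comp f) = A3_deg f * A3_deg g := by
  let := f.toAlgebra
  let := g.toAlgebra
  let := (g.comp f).toAlgebra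
  have : IsScalarTower A B C := IsScalarTower.of_algebraMap_eq' rfl
  exact (finrank_mul_finrank A B C).symm

theorem A3_deg_id (A : Type*) [Field A] : A3_deg (RingHom.id A) = 1 := by
  have h : (RingHom.id A).toAlgebra = Algebra.id A := rfl
  rw [A3_deg, h]
  exact finrank_self A

theorem A3_deg_range {A B : Type*} [Field A] [Field B] (f : A →+* B) :
    finrank f.fieldRange B = A3_deg f := by
  let := f.toAlgebra
  refine (Algebra.finrank_eq_of_equiv_equiv f.rangeRestrictFieldEquiv (RingEquiv.refl B) ?_).symm
  ext x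
  rfl

theorem A3_iter (F : Type*) [Field F] (p : ℕ) [Fact p.Prime] [CharP F p] (e : ℕ) :
    A3_deg (iterateFrobenius F p e) = A3_deg (frobenius F p) ^ e := by
  induction e with
  | zero => rw [iterateFrobenius_zero, A3_deg_id, pow_zero]
  | succ e ih =>
    have h : iterateFrobenius F p (e + 1) = (frobenius F p).comp (iterateFrobenius F p e) := by
      ext x
      rw [RingHom.comp_apply, iterateFrobenius_def, iterateFrobenius_def, frobenius_def,
        ← pow_mul, pow_succ]
    rw [h, A3_deg_comp, ih, pow_succ]

/-- `[F : F^(p^e)] = [F : F^p]^e` -/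
theorem finrank_kq (F : Type*) [Field F] (p : ℕ) [Fact p.Prime] [CharP F p] (e : ℕ) :
    finrank (kq F p e) F = finrank (kq F p 1) F ^ e := by
  rw [kq, kq, A3_deg_range, A3_deg_range, A3_iter, iterateFrobenius_one]

end Pool.Agent.Lib.MP_1bbd88_ag.S
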