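import Pool.Agent.Lib.MP_1bbd88_ag.S.SDefs

set_option autoImplicit false

namespace Pool.Agent.Lib.MP_1bbd88_ag.S

open Module TensorProduct IsLocalRing

theorem le_of_pow_le {a b C : ℕ} (h : ∀ e : ℕ, a ^ e ≤ C * b ^ e) : a ≤ b := by
  by_contra hab
  have hab : b < a := not_le.1 hab
  rcases Nat.eq_zero_or_pos b with hb | hb
  · subst hb
    have h1 := h 1
    simp only [pow_one, mul_zero] at h1
    omega
  · have hb' : (0 : ℝ) < b := by exact_mod_cast hb
    have h1 : (1 : ℝ) < (a : ℝ) / b := by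
      rw [one_lt_div hb']
      exact_mod_cast hab
    obtain ⟨e, he⟩ := pow_unbounded_of_one_lt (C : ℝ) h1
    rw [div_pow, lt_div_iff₀ (pow_pos hb' e)] at he
    have h2 : (a : ℝ) ^ e ≤ C * (b : ℝ) ^ e := by exact_mod_cast h e
    linarith

theorem A5_maximalIdeal {K : Type*} [Field K] {n : ℕ} :
    maximalIdeal (MvPowerSeries (Fin n) K) = psI (Fin n) K 1 := by
  apply le_antisymm
  · intro f hf
    apply mem_psI_one_of_constantCoeff
    by_contra hne
    rw [mem_maximalIdeal, mem_nonunits_iff, MvPowerSeries.isUnit_iff_constantCoeff] at hf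
    exact hf (isUnit_iff_ne_zero.2 hne)
  · rw [psI, Ideal.span_le]
    rintro _ ⟨i, rfl⟩
    show (MvPowerSeries.X i : MvPowerSeries (Fin n) K) ^ 1 ∈ maximalIdeal _
    rw [pow_one, mem_maximalIdeal, mem_nonunits_iff, MvPowerSeries.isUnit_iff_constantCoeff,
      MvPowerSeries.constantCoeff_X]
    exact not_isUnit_zero

theorem A5_dim {K : Type*} [Field K] {n : ℕ} :
    ringKrullDim (MvPowerSeries (Fin n) K) ≤ n := by
  refine (ringKrullDim_le_spanFinrank_maximalIdeal (MvPowerSeries (Fin n) K)).trans ?_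
  have h : (maximalIdeal (MvPowerSeries (Fin n) K)).spanFinrank ≤ n := by
    rw [A5_maximalIdeal, psI]
    refine (Submodule.spanFinrank_span_le_ncard_of_finite (Set.finite_range _)).trans ?_
    rw [← Set.image_univ]
    refine (Set.ncard_image_le Set.finite_univ).trans ?_
    rw [Set.ncard_univ, Nat.card_eq_fintype_card, Fintype.card_fin]
  exact_mod_cast h

theorem A5_coheight {R : Type*} [CommRing R] (Q : PrimeSpectrum R) :
    ringKrullDim (R ⧸ Q.asIdeal) ≤ Order.coheight Q := by
  rw [ringKrullDim_quotient, Order.krullDim]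
  refine iSup_le fun l => ?_
  have h1 : ((l.map Subtype.val (fun _ _ h => h)).length : ℕ∞) ≤ Order.coheight Q :=
    (Order.coheight_le_iff (n := Order.coheight Q)).1 le_rfl (by
      show Q ≤ ((l.map Subtype.val (fun _ _ h => h)).head)
      have h2 : (l.head : PrimeSpectrum R) ∈ PrimeSpectrum.zeroLocus (Q.asIdeal : Set R) :=
        l.head.2
      exact h2)
  exact_mod_cast h1

/-- height plus dimension of the quotient in a power series ring -/
theorem height_add_dim {K : Type*} [Field K] {n : ℕ} (Q : Ideal (MvPowerSeries (Fin n) K))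
    [Q.IsPrime] (D : ℕ) (hD : ringKrullDim (MvPowerSeries (Fin n) K ⧸ Q) = D) :
    ∃ h : ℕ, Q.height = h ∧ h + D ≤ n := by
  have h1 := A5_coheight (⟨Q, inferInstance⟩ : PrimeSpectrum (MvPowerSeries (Fin n) K))
  have h2 : (D : ℕ∞) ≤ Order.coheight (⟨Q, inferInstance⟩ :
      PrimeSpectrum (MvPowerSeries (Fin n) K)) := by
    rw [show (⟨Q, inferInstance⟩ : PrimeSpectrum (MvPowerSeries (Fin n) K)).asIdeal = Q from rfl,
      hD] at h1
    exact_mod_cast h1
  have h3 : Order.height (⟨Q, inferInstance⟩ : PrimeSpectrum (MvPowerSeries (Fin n) K)) +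
      Order.coheight (⟨Q, inferInstance⟩ : PrimeSpectrum (MvPowerSeries (Fin n) K)) ≤ (n : ℕ∞) := by
    have h4 := A5_dim (K := K) (n := n)
    rw [ringKrullDim, Order.krullDim_eq_iSup_height_add_coheight_of_nonempty] at h4
    have h5 : (⨆ a : PrimeSpectrum (MvPowerSeries (Fin n) K),
        Order.height a + Order.coheight a) ≤ (n : ℕ∞) := by exact_mod_cast h4
    exact (le_iSup (fun a : PrimeSpectrum (MvPowerSeries (Fin n) K) =>
      Order.height a + Order.coheight a) _).trans h5
  have h6 : Q.height = Order.height (⟨Q, inferInstance⟩ :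
      PrimeSpectrum (MvPowerSeries (Fin n) K)) :=
    PrimeSpectrum.height_eq_orderHeight (⟨Q, inferInstance⟩ : PrimeSpectrum (MvPowerSeries (Fin n) K))
  have h7 : Q.height + D ≤ (n : ℕ∞) := by
    rw [h6]
    exact (add_le_add le_rfl h2).trans h3
  have h8 : Q.height ≠ ⊤ := by
    intro h
    rw [h, top_add] at h7
    exact absurd h7 (by simp)
  obtain ⟨h, hh⟩ := ENat.ne_top_iff_exists.1 h8
  refine ⟨h, hh.symm, ?_⟩
  rw [← hh] at h7
  exact_mod_cast h7

end Pool.Agent.Lib.MP_1bbd88_ag.S
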