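import Pool.Agent.Lib.MP_1bbd88_ag.S.A1c
import Pool.Agent.Lib.MP_1bbd88_ag.S.A2b
import Pool.Agent.Lib.MP_1bbd88_ag.S.A3
import Pool.Agent.Lib.MP_1bbd88_ag.S.A5

set_option autoImplicit false

namespace Pool.Agent.Lib.MP_1bbd88_ag.S

open Module TensorProduct IsLocalRing

variable {K : Type*} [Field K] {n p : ℕ} [Fact p.Prime] [CharP K p] [IsAlgClosed K]

/-- `[F : F^p] ≥ p ^ dim (P/Q)` -/
theorem pdeg (Q : Ideal (MvPowerSeries (Fin n) K)) [Q.IsPrime] (D : ℕ)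
    (hD : ringKrullDim (MvPowerSeries (Fin n) K ⧸ Q) = D) :
    p ^ D ≤ finrank (kq (FF Q) p 1) (FF Q) := by
  obtain ⟨h, hh, hhn⟩ := height_add_dim Q D hD
  obtain ⟨C, hC⟩ := length_QO_le (p := p) Q h hh
  have hp : 0 < p := (Fact.out : p.Prime).pos
  have key : p ^ n ≤ p ^ h * finrank (kq (FF Q) p 1) (FF Q) := by
    refine le_of_pow_le (C := C) fun e => ?_
    have h1 := pow_le_length (p := p) e Q
    have h2 := h1.trans (mul_le_mul_left (hC e) _)
    rw [finrank_kq] at h2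
    have h3 : (p ^ e) ^ n ≤ C * (p ^ e) ^ h * finrank (kq (FF Q) p 1) (FF Q) ^ e := by
      exact_mod_cast h2
    calc (p ^ n) ^ e = (p ^ e) ^ n := by rw [← pow_mul, ← pow_mul, mul_comm]
      _ ≤ C * (p ^ e) ^ h * finrank (kq (FF Q) p 1) (FF Q) ^ e := h3
      _ = C * (p ^ h * finrank (kq (FF Q) p 1) (FF Q)) ^ e := by
        rw [mul_pow, ← pow_mul, ← pow_mul, mul_comm e h]
        ring
  have h4 : p ^ h * p ^ D ≤ p ^ h * finrank (kq (FF Q) p 1) (FF Q) := by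
    rw [← pow_add]
    exact (Nat.pow_le_pow_right hp hhn).trans key
  exact Nat.le_of_mul_le_mul_left h4 (pow_pos hp h)

end Pool.Agent.Lib.MP_1bbd88_ag.S
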