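import Pool.Agent.Lib.MP_1bbd88_ag.S.SDefs
import Mathlib.FieldTheory.KummerPolynomial

set_option autoImplicit false

namespace Pool.Agent.Lib.MP_1bbd88_ag.S

open Module TensorProduct IsLocalRing

theorem B1_main {F : Type*} [Field F] {p : ℕ} [Fact p.Prime] [CharP F p] (n : ℕ) :
    ∀ (K : Subfield F) [FiniteDimensional K F], (∀ x : F, x ^ p ∈ K) → finrank K F ≤ n →
      ∃ (m : ℕ) (z : Fin m → F), finrank K F = p ^ m ∧ ∀ S : Subring F,
        (∀ x ∈ K, x ∈ S) → (∀ i, z i ∈ S) → ∀ x, x ∈ S := by
  induction n with
  | zero =>
    intro K _ _ h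
    exact absurd h (by have := finrank_pos (R := K) (M := F); omega)
  | succ n ih =>
    intro K _ hK hn
    by_cases htop : ∀ x : F, x ∈ K
    · refine ⟨0, Fin.elim0, ?_, fun S hS _ x => hS x (htop x)⟩
      rw [pow_zero]
      apply finrank_eq_one (R := K) (1 : F) one_ne_zero
      intro w
      exact ⟨⟨w, htop w⟩, by rw [Algebra.smul_def, mul_one]; rfl⟩
    · push Not at htop
      obtain ⟨z, hz⟩ := htop
      have hint : IsIntegral K z := Algebra.IsIntegral.isIntegral z
      set a : K := ⟨z ^ p, hK z⟩ with ha
      have hirr : Irreducible (Polynomial.X ^ p - Polynomial.C a) := by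
        apply X_pow_sub_C_irreducible_of_prime (Fact.out (p := p.Prime))
        intro b hb
        apply hz
        have h1 : (b : F) ^ p = z ^ p := by
          have := congrArg (Subtype.val) hb
          simpa [ha] using this
        have h2 : (b : F) = z := frobenius_inj F p (by simpa [frobenius_def] using h1)
        rw [← h2]
        exact b.2
      have hmin : Polynomial.X ^ p - Polynomial.C a = minpoly K z := by
        apply minpoly.eq_of_irreducible_of_monic hirr
        · rw [map_sub, map_pow, Polynomial.aeval_X, Polynomial.aeval_C, sub_eq_zero]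
          rfl
        · exact Polynomial.monic_X_pow_sub_C a (Fact.out (p := p.Prime)).ne_zero
      have hdeg : finrank K (IntermediateField.adjoin K {z}) = p := by
        rw [IntermediateField.adjoin.finrank hint, ← hmin, Polynomial.natDegree_X_pow_sub_C]
      set K' : Subfield F := (IntermediateField.adjoin K {z}).toSubfield with hK'
      have hKK' : ∀ x ∈ K, x ∈ K' := by
        intro x hx
        exact (IntermediateField.adjoin K {z}).algebraMap_mem ⟨x, hx⟩
      have hmul : finrank K F = p * finrank K' F := by
        rw [← hdeg]
        exact (Module.finrank_mul_finrank K (IntermediateField.adjoin K {z}) F).symm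
      have hfin : FiniteDimensional K' F :=
        inferInstanceAs (FiniteDimensional (IntermediateField.adjoin K {z}) F)
      have hp2 := (Fact.out (p := p.Prime)).two_le
      have hpos : 0 < finrank K' F := finrank_pos
      have hle : finrank K' F ≤ n := by
        have : 2 * finrank K' F ≤ p * finrank K' F := Nat.mul_le_mul_right _ hp2
        omega
      obtain ⟨m, zs, h1, h2⟩ := ih K' (fun x => hKK' _ (hK x)) hle
      refine ⟨m + 1, Fin.cons z zs, ?_, ?_⟩
      · rw [hmul, h1, pow_succ, mul_comm]
      · intro S hS hzs x
        apply h2 S _ _ x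
        · intro y hy
          have h3 : y ∈ Algebra.adjoin K {z} := by
            rw [← IntermediateField.adjoin_simple_toSubalgebra_of_isAlgebraic hint.isAlgebraic]
            exact hy
          clear hy
          induction h3 using Algebra.adjoin_induction with
          | mem y hy =>
            rw [Set.mem_singleton_iff] at hy
            rw [hy]
            simpa using hzs 0
          | algebraMap r => exact hS _ r.2
          | add x y _ _ hx hy => exact S.add_mem hx hy
          | mul x y _ _ hx hy => exact S.mul_mem hx hy
        · intro i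
          simpa using hzs i.succ

variable (F : Type*) [Field F] (p : ℕ) [Fact p.Prime] [CharP F p]

/-- existence of a `p`-basis -/
theorem exists_pbasis [FiniteDimensional (kq F p 1) F] : ∃ (m : ℕ) (z : Fin m → F),
    finrank (kq F p 1) F = p ^ m ∧ Algebra.adjoin (kq F p 1) (Set.range z) = ⊤ := by
  have hp : ∀ x : F, x ^ p ∈ kq F p 1 := by
    intro x
    exact ⟨x, by simp [frobenius_def]⟩
  obtain ⟨m, z, h1, h2⟩ := B1_main (p := p) (finrank (kq F p 1) F) (kq F p 1) hp le_rfl
  refine ⟨m, z, h1, ?_⟩
  rw [eq_top_iff]
  intro x _
  exact h2 (Algebra.adjoin (kq F p 1) (Set.range z)).toSubring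
    (fun y hy => (Algebra.adjoin (kq F p 1) (Set.range z)).algebraMap_mem ⟨y, hy⟩)
    (fun i => Algebra.subset_adjoin ⟨i, rfl⟩) x

end Pool.Agent.Lib.MP_1bbd88_ag.S
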