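import Pool.Agent.Lib.MP_1bbd88_ag.S.SDefs

set_option autoImplicit false

namespace Pool.Agent.Lib.MP_1bbd88_ag.S

open Module TensorProduct IsLocalRing

variable (F : Type*) [Field F] (p : ℕ) [Fact p.Prime] [CharP F p]

theorem adjoin_kq {m : ℕ} (z : Fin m → F) (hz : Algebra.adjoin (kq F p 1) (Set.range z) = ⊤)
    (e : ℕ) : Algebra.adjoin (kq F p e) (Set.range z) = ⊤ := by
  induction e with
  | zero =>
    rw [eq_top_iff]
    intro x _
    exact Subalgebra.algebraMap_mem _ (⟨x, ⟨x, by simp⟩⟩ : kq F p 0)
  | succ e ih =>
    have h1 : ∀ x : F, x ^ p ∈ Algebra.adjoin (kq F p (e + 1)) (Set.range z) := by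
      intro x
      have hx : x ∈ Algebra.adjoin (kq F p e) (Set.range z) := by rw [ih]; trivial
      induction hx using Algebra.adjoin_induction with
      | mem x hx => exact pow_mem (Algebra.subset_adjoin hx) p
      | algebraMap r =>
        obtain ⟨w, hw⟩ := r.2
        have h2 : (algebraMap (kq F p e) F r) ^ p = iterateFrobenius F p (e + 1) w := by
          have h3 : algebraMap (kq F p e) F r = w ^ p ^ e := by
            rw [← iterateFrobenius_def]
            exact hw.symm
          rw [h3, iterateFrobenius_def, ← pow_mul, ← pow_succ]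
        rw [h2]
        exact Subalgebra.algebraMap_mem _
          (⟨iterateFrobenius F p (e + 1) w, ⟨w, rfl⟩⟩ : kq F p (e + 1))
      | add x y _ _ h1 h2 => rw [add_pow_char]; exact add_mem h1 h2
      | mul x y _ _ h1 h2 => rw [mul_pow]; exact mul_mem h1 h2
    rw [eq_top_iff]
    intro x _
    have hx : x ∈ Algebra.adjoin (kq F p 1) (Set.range z) := by rw [hz]; trivial
    induction hx using Algebra.adjoin_induction with
    | mem x hx => exact Algebra.subset_adjoin hx
    | algebraMap r =>
      obtain ⟨w, hw⟩ := r.2
      have h3 : algebraMap (kq F p 1) F r = w ^ p := by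
        have h4 : iterateFrobenius F p 1 w = w ^ p := by
          rw [iterateFrobenius_def, pow_one]
        rw [← h4]
        exact hw.symm
      rw [h3]
      exact h1 w
    | add x y _ _ h1 h2 => exact add_mem (h1 trivial) (h2 trivial)
    | mul x y _ _ h1 h2 => exact mul_mem (h1 trivial) (h2 trivial)

end Pool.Agent.Lib.MP_1bbd88_ag.S
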