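import Pool.Agent.Lib.MP_1bbd88_ag.S.SDefs

set_option autoImplicit false

namespace Pool.Agent.Lib.MP_1bbd88_ag.S

open Module TensorProduct IsLocalRing

variable {F Ω : Type*} [Field F] [Field Ω] [Algebra F Ω] {p : ℕ} [Fact p.Prime] [CharP F p]

theorem B3_charP (F Ω : Type*) [Field F] [Field Ω] [Algebra F Ω] (p : ℕ) [CharP F p] :
    CharP Ω p := charP_of_injective_algebraMap (algebraMap F Ω).injective p

theorem B3_pow_mem (e : ℕ) (r : F) : r ^ p ^ e ∈ kq F p e :=
  ⟨r, by simp [iterateFrobenius_def]⟩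

theorem B3_algebraMap (e : ℕ) (c : kq F p e) :
    algebraMap (kq F p e) Ω c = algebraMap F Ω (c : F) := rfl

theorem B3_DD_pow (e : ℕ) (r : F) : (DD Ω p e r) ^ p ^ e = 0 := by
  have : CharP Ω p := B3_charP F Ω p
  have h2 : CharP (TT F Ω p e) p :=
    charP_of_injective_algebraMap (algebraMap Ω (TT F Ω p e)).injective p
  rw [DD, sub_pow_char_pow, Algebra.TensorProduct.tmul_pow, Algebra.TensorProduct.tmul_pow,
    one_pow, one_pow, sub_eq_zero]
  have h3 : (r ^ p ^ e : F) = (⟨r ^ p ^ e, B3_pow_mem e r⟩ : kq F p e) • (1 : F) := by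
    rw [Algebra.smul_def, mul_one]
    rfl
  rw [h3, ← TensorProduct.smul_tmul, Algebra.smul_def, mul_one, B3_algebraMap, map_pow]

theorem B3_DD_const (e : ℕ) (c : kq F p e) : DD Ω p e (c : F) = 0 := by
  rw [DD, sub_eq_zero]
  have h3 : (c : F) = c • (1 : F) := by
    rw [Algebra.smul_def, mul_one]
    rfl
  conv_lhs => rw [h3, ← TensorProduct.smul_tmul, Algebra.smul_def, mul_one, B3_algebraMap]

theorem B3_DD_add (e : ℕ) (r s : F) : DD Ω p e (r + s) = DD Ω p e r + DD Ω p e s := by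
  rw [DD, DD, DD, TensorProduct.tmul_add, map_add, TensorProduct.add_tmul]
  ring

theorem B3_DD_mul (e : ℕ) (r s : F) : DD Ω p e (r * s) =
    ((1 : Ω) ⊗ₜ[kq F p e] r) * DD Ω p e s +
      ((algebraMap F Ω s) ⊗ₜ[kq F p e] (1 : F)) * DD Ω p e r := by
  rw [DD, DD, DD, mul_sub, mul_sub, Algebra.TensorProduct.tmul_mul_tmul,
    Algebra.TensorProduct.tmul_mul_tmul, Algebra.TensorProduct.tmul_mul_tmul,
    Algebra.TensorProduct.tmul_mul_tmul, map_mul]
  simp only [one_mul, mul_one]
  rw [mul_comm (algebraMap F Ω s) (algebraMap F Ω r)]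
  ring

theorem B3_finrank_W {Ω : Type*} [Field Ω] (m q : ℕ) : finrank Ω (W m q Ω) ≤ q ^ m := by
  classical
  have hfin : FiniteDimensional Ω (W m q Ω) :=
    finite_quot (q := q) _ fun i => Ideal.subset_span ⟨i, rfl⟩
  have h1 := finrank_le_pow_mul_quot (k := Ω) (T := W m q Ω) (w := wx m q Ω) (q := q) Finset.univ
    (by
      intro i _
      rw [wx, ← map_pow]
      exact Ideal.Quotient.eq_zero_iff_mem.mpr (Ideal.subset_span ⟨i, rfl⟩))
  rw [Finset.card_univ, Fintype.card_fin] at h1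
  refine h1.trans ?_
  conv_rhs => rw [← mul_one (q ^ m)]
  refine Nat.mul_le_mul_left _ ?_
  set I := Ideal.span (wx m q Ω '' ((Finset.univ : Finset (Fin m)) : Set (Fin m))) with hI
  apply finrank_le_one (1 : W m q Ω ⧸ I)
  intro w
  obtain ⟨w, rfl⟩ := Ideal.Quotient.mk_surjective w
  obtain ⟨f, rfl⟩ := Ideal.Quotient.mk_surjective w
  induction f using MvPolynomial.induction_on with
  | C a =>
    refine ⟨a, ?_⟩
    have h : (MvPolynomial.C a : MvPolynomial (Fin m) Ω) = a • 1 := by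
      rw [MvPolynomial.smul_eq_C_mul, mul_one]
    rw [h]
    rfl
  | add f g hf hg =>
    obtain ⟨c, hc⟩ := hf
    obtain ⟨d, hd⟩ := hg
    exact ⟨c + d, by rw [map_add, map_add, ← hc, ← hd, add_smul]⟩
  | mul_X f i hf =>
    refine ⟨0, ?_⟩
    rw [zero_smul, map_mul, eq_comm, Ideal.Quotient.eq_zero_iff_mem]
    exact I.mul_mem_left _ (Ideal.subset_span ⟨i, by simp, rfl⟩)

/-- `Ω ⊗ F` is a truncated polynomial ring -/
theorem exists_trunc {m : ℕ} (z : Fin m → F) (e : ℕ)
    (hz : Algebra.adjoin (kq F p e) (Set.range z) = ⊤)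
    (hm : finrank (kq F p e) F = (p ^ e) ^ m) :
    ∃ ε : W m (p ^ e) Ω ≃ₐ[Ω] TT F Ω p e, ∀ i, ε (wx m (p ^ e) Ω i) = DD Ω p e (z i) := by
  have hp := (Fact.out (p := p.Prime)).pos
  have hfinF : FiniteDimensional (kq F p e) F := by
    apply FiniteDimensional.of_finrank_pos
    rw [hm]
    positivity
  let g : MvPolynomial (Fin m) Ω →ₐ[Ω] TT F Ω p e := MvPolynomial.aeval fun i => DD Ω p e (z i)
  have hg : ∀ f ∈ powI (Fin m) Ω (p ^ e), g f = 0 := by
    intro f hf
    have : powI (Fin m) Ω (p ^ e) ≤ RingHom.ker g := by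
      rw [powI, Ideal.span_le]
      rintro _ ⟨i, rfl⟩
      rw [SetLike.mem_coe, RingHom.mem_ker]
      simp only [map_pow, g, MvPolynomial.aeval_X]
      exact B3_DD_pow e (z i)
    exact this hf
  let ε : W m (p ^ e) Ω →ₐ[Ω] TT F Ω p e := Ideal.Quotient.liftₐ _ g hg
  have hε : ∀ i, ε (wx m (p ^ e) Ω i) = DD Ω p e (z i) := by
    intro i
    change g (MvPolynomial.X i) = _
    simp only [g, MvPolynomial.aeval_X]
  have h1 : ∀ r : F, (1 : Ω) ⊗ₜ[kq F p e] r ∈ ε.range := by
    intro r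
    have hr : r ∈ Algebra.adjoin (kq F p e) (Set.range z) := by rw [hz]; trivial
    induction hr using Algebra.adjoin_induction with
    | mem x hx =>
      obtain ⟨i, rfl⟩ := hx
      have h2 : (1 : Ω) ⊗ₜ[kq F p e] (z i) =
          DD Ω p e (z i) + algebraMap Ω (TT F Ω p e) (algebraMap F Ω (z i)) := by
        rw [DD, Algebra.TensorProduct.algebraMap_apply]
        simp
      rw [h2]
      exact ε.range.add_mem ⟨_, hε i⟩ (ε.range.algebraMap_mem _)
    | algebraMap c =>
      have h3 : algebraMap (kq F p e) F c = c • (1 : F) := by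
        rw [Algebra.smul_def, mul_one]
      rw [h3, ← TensorProduct.smul_tmul, Algebra.smul_def, mul_one]
      exact ε.range.algebraMap_mem _
    | add x y _ _ hx hy =>
      rw [TensorProduct.tmul_add]
      exact ε.range.add_mem hx hy
    | mul x y _ _ hx hy =>
      have : (1 : Ω) ⊗ₜ[kq F p e] (x * y) =
          ((1 : Ω) ⊗ₜ[kq F p e] x) * ((1 : Ω) ⊗ₜ[kq F p e] y) := by
        rw [Algebra.TensorProduct.tmul_mul_tmul, one_mul]
      rw [this]
      exact ε.range.mul_mem hx hy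
  have hsur : Function.Surjective ε := by
    intro t
    induction t using TensorProduct.induction_on with
    | zero => exact ⟨0, map_zero _⟩
    | tmul x y =>
      obtain ⟨w, hw⟩ := h1 y
      refine ⟨x • w, ?_⟩
      rw [map_smul]
      change x • ε w = _
      have hw' : ε w = (1 : Ω) ⊗ₜ[kq F p e] y := hw
      rw [hw', TensorProduct.smul_tmul', smul_eq_mul, mul_one]
    | add x y hx hy =>
      obtain ⟨a, rfl⟩ := hx
      obtain ⟨b, rfl⟩ := hy
      exact ⟨a + b, map_add _ _ _⟩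
  have hfinW : FiniteDimensional Ω (W m (p ^ e) Ω) :=
    finite_quot (q := p ^ e) _ fun i => Ideal.subset_span ⟨i, rfl⟩
  have hT : finrank Ω (TT F Ω p e) = (p ^ e) ^ m := by
    rw [← hm]
    exact Module.finrank_baseChange
  have hle := LinearMap.finrank_le_finrank_of_surjective (f := ε.toLinearMap) hsur
  have heq : finrank Ω (W m (p ^ e) Ω) = finrank Ω (TT F Ω p e) :=
    le_antisymm ((B3_finrank_W m (p ^ e)).trans hT.ge) hle
  have hinj : Function.Injective ε :=
    (LinearMap.injective_iff_surjective_of_finrank_eq_finrank (f := ε.toLinearMap) heq).mpr hsur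
  exact ⟨AlgEquiv.ofBijective ε ⟨hinj, hsur⟩, hε⟩

/-- the ideal `dd` is generated by the `DD (z i)` -/
theorem dd_eq {m : ℕ} (z : Fin m → F) (e : ℕ)
    (hz : Algebra.adjoin (kq F p e) (Set.range z) = ⊤) :
    dd F Ω p e = Ideal.span (Set.range fun i => DD Ω p e (z i)) := by
  apply le_antisymm
  · rw [dd, Ideal.span_le]
    rintro _ ⟨r, rfl⟩
    rw [SetLike.mem_coe]
    have hr : r ∈ Algebra.adjoin (kq F p e) (Set.range z) := by rw [hz]; trivial
    induction hr using Algebra.adjoin_induction with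
    | mem x hx =>
      obtain ⟨i, rfl⟩ := hx
      exact Ideal.subset_span ⟨i, rfl⟩
    | algebraMap c =>
      have := B3_DD_const (Ω := Ω) e c
      rw [show (algebraMap (kq F p e) F c : F) = (c : F) from rfl, this]
      exact Ideal.zero_mem _
    | add x y _ _ hx hy =>
      rw [B3_DD_add]
      exact Ideal.add_mem _ hx hy
    | mul x y _ _ hx hy =>
      rw [B3_DD_mul]
      exact Ideal.add_mem _ (Ideal.mul_mem_left _ _ hy) (Ideal.mul_mem_left _ _ hx)
  · rw [Ideal.span_le]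
    rintro _ ⟨i, rfl⟩
    exact Ideal.subset_span ⟨z i, rfl⟩

end Pool.Agent.Lib.MP_1bbd88_ag.S
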