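import Pool.Agent.Lib.MP_1bbd88_ag.S.SDefs

set_option autoImplicit false

namespace Pool.Agent.Lib.MP_1bbd88_ag.S

open Module TensorProduct IsLocalRing

/-- a family of vectors spanning `κ^c` contains `c` vectors with nonzero determinant -/
theorem C1b_exists_det {κ : Type*} [Field κ] {c s : ℕ} (m : Fin c → Fin s → κ)
    (hm : LinearIndependent κ m) :
    ∃ l : Fin c → Fin s, (Matrix.of fun i j => m j (l i)).det ≠ 0 := by
  classical
  let M : Matrix (Fin c) (Fin s) κ := Matrix.of m
  have hrank : M.rank = c := by
    have h1 : LinearIndependent κ M.row := hm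
    have := h1.rank_matrix
    simpa using this
  have hspan : Submodule.span κ (Set.range M.col) = ⊤ := by
    apply Submodule.eq_top_of_finrank_eq
    rw [← Matrix.rank_eq_finrank_span_cols, hrank]
    simp
  obtain ⟨b, hb1, hb2, hb3⟩ := exists_linearIndependent κ (Set.range M.col)
  have hfin : b.Finite := Set.Finite.subset (Set.finite_range _) hb1
  haveI : Fintype b := hfin.fintype
  have hbs : Submodule.span κ (Set.range ((↑) : b → (Fin c → κ))) = ⊤ := by
    rw [Subtype.range_coe, hb2, hspan]
  have hcard : Fintype.card b = c := by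
    let B := Module.Basis.mk hb3 (by rw [hbs])
    have h1 := Module.finrank_eq_card_basis B
    simpa using h1.symm
  let e : Fin c ≃ b := (Fintype.equivFinOfCardEq hcard).symm
  have hch : ∀ i : Fin c, ∃ l : Fin s, M.col l = (e i : Fin c → κ) := fun i => hb1 (e i).2
  choose l hl using hch
  refine ⟨l, ?_⟩
  have hli : LinearIndependent κ (Matrix.row (Matrix.of fun i j => m j (l i))) := by
    have h2 : LinearIndependent κ (fun i : Fin c => (e i : Fin c → κ)) := hb3.comp e e.injective
    have h3 : (fun i : Fin c => (e i : Fin c → κ)) = Matrix.row (Matrix.of fun i j => m j (l i)) := by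
      funext i
      rw [← hl i]
      rfl
    rw [h3] at h2
    exact h2
  have hu := Matrix.linearIndependent_rows_iff_isUnit.1 hli
  exact ((Matrix.isUnit_iff_isUnit_det _).1 hu).ne_zero

/-- a matrix over a valuation ring all of whose maximal minors are non-units has dependent rows
modulo the maximal ideal -/
theorem rows_dependent {F : Type*} [Field F] (V : ValuationSubring F) {c s : ℕ} (hc : 0 < c)
    (a : Fin c → Fin s → F) (ha : ∀ j l, a j l ∈ V)
    (hdet : ∀ l : Fin c → Fin s, (Matrix.of fun i j => a j (l i)).det ∈ V.nonunits) :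
    ∃ (α : Fin c → F) (j0 : Fin c), α j0 = 1 ∧ (∀ j, α j ∈ V) ∧
      ∀ l, ∑ j, α j * a j l ∈ V.nonunits := by
  classical
  let av : Fin c → Fin s → V := fun j l => ⟨a j l, ha j l⟩
  let m : Fin c → Fin s → ResidueField V := fun j l => residue V (av j l)
  have hnot : ¬ LinearIndependent (ResidueField V) m := by
    intro hm
    obtain ⟨l, hl⟩ := C1b_exists_det m hm
    apply hl
    have h1 : (Matrix.of fun i j => m j (l i)) = (residue V).mapMatrix (Matrix.of fun i j => av j (l i)) := by
      ext i j
      rfl
    rw [h1, ← RingHom.map_det]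
    have h2 : (((Matrix.of fun i j => av j (l i)).det : V) : F) = (Matrix.of fun i j => a j (l i)).det := by
      have h3 := RingHom.map_det (V.subtype) (Matrix.of fun i j => av j (l i))
      exact h3
    have h4 := hdet l
    rw [← h2, ValuationSubring.coe_mem_nonunits_iff] at h4
    exact (residue_eq_zero_iff _).2 h4
  rw [Fintype.not_linearIndependent_iff] at hnot
  obtain ⟨g, hg, j0, hj0⟩ := hnot
  have hsurj : ∀ j, ∃ x : V, residue V x = g j / g j0 := fun j => residue_surjective _
  choose x hx using hsurj
  let y : Fin c → V := Function.update x j0 1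
  have hy : ∀ j, residue V (y j) = g j / g j0 := by
    intro j
    by_cases hj : j = j0
    · subst hj
      simp [y, hj0]
    · simp only [y, Function.update_of_ne hj]
      exact hx j
  refine ⟨fun j => (y j : F), j0, ?_, fun j => (y j).2, ?_⟩
  · simp [y]
  · intro l
    have h1 : (∑ j, (y j : F) * a j l) = ((∑ j, y j * av j l : V) : F) := by
      push_cast
      rfl
    rw [h1, ValuationSubring.coe_mem_nonunits_iff, ← residue_eq_zero_iff, map_sum]
    have h2 : ∀ j, residue V (y j * av j l) = (g j0)⁻¹ * (g j • m j) l := by
      intro j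
      rw [map_mul, hy j]
      simp only [Pi.smul_apply, smul_eq_mul]
      show g j / g j0 * m j l = _
      field_simp
    rw [Finset.sum_congr rfl fun j _ => h2 j, ← Finset.mul_sum]
    have h3 := congrFun hg l
    rw [Finset.sum_apply] at h3
    rw [h3]
    simp

end Pool.Agent.Lib.MP_1bbd88_ag.S
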