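import Pool.Agent.Lib.MP_1bbd88_ag.S.C1a
import Pool.Agent.Lib.MP_1bbd88_ag.S.C1b

set_option autoImplicit false

namespace Pool.Agent.Lib.MP_1bbd88_ag.S

open Module TensorProduct IsLocalRing

theorem C1_dual {F M : Type*} [Field F] [AddCommGroup M] [Module F M] {s : ℕ} (v : Fin s → M)
    (hv : LinearIndependent F v) :
    ∃ ev : Fin s → (M →ₗ[F] F), ∀ l (b : Fin s → F), ev l (∑ l', b l' • v l') = b l := by
  obtain ⟨g, hg⟩ := LinearMap.exists_extend hv.repr
  refine ⟨fun l => Finsupp.lapply l ∘ₗ g, fun l b => ?_⟩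
  have h1 : ∀ l', g (v l') = Finsupp.single l' 1 := by
    intro l'
    have h2 := LinearMap.congr_fun hg ⟨v l', Submodule.subset_span ⟨l', rfl⟩⟩
    simp only [LinearMap.comp_apply, Submodule.subtype_apply] at h2
    rw [h2]
    exact hv.repr_eq_single l' _ rfl
  simp only [LinearMap.comp_apply, map_sum, map_smul, h1, Finsupp.lapply_apply, smul_eq_mul,
    Finsupp.single_apply]
  simp

theorem C1_der {F A : Type*} [Field F] [CommRing A] [Algebra A F] (k : Subfield F)
    (ev : KaehlerDifferential k F →ₗ[F] F) :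
    ∃ δ : Derivation ℤ A F, ∀ a, δ a = ev (KaehlerDifferential.D k F (algebraMap A F a)) := by
  refine ⟨Derivation.mk' (AddMonoidHom.toIntLinearMap
    { toFun := fun a => ev (KaehlerDifferential.D k F (algebraMap A F a))
      map_zero' := by simp
      map_add' := fun a b => by simp }) ?_, fun a => rfl⟩
  intro a b
  change ev (KaehlerDifferential.D k F (algebraMap A F (a * b))) =
    a • ev (KaehlerDifferential.D k F (algebraMap A F b)) +
    b • ev (KaehlerDifferential.D k F (algebraMap A F a))
  rw [map_mul, Derivation.leibniz, map_add, map_smul, map_smul, smul_eq_mul, smul_eq_mul,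
    Algebra.smul_def a, Algebra.smul_def b]

/-- the condition on derivations in terms of Kähler differentials -/
theorem kaehler_relation {F A : Type*} [Field F] [CommRing A] [Algebra A F] (k : Subfield F)
    (V : ValuationSubring F) {n c : ℕ} (hc : 0 < c) (x : Fin n → F) (f : Fin c → A)
    (hA : ∀ a : A, ∃ s : Fin n → F, (∀ i, s i ∈ V) ∧
      KaehlerDifferential.D k F (algebraMap A F a) = ∑ i, s i • KaehlerDifferential.D k F (x i))
    (hdet : ∀ δ : Fin c → Derivation ℤ A F, (∀ i a, δ i a ∈ V) →
      (Matrix.of fun i j => δ i (f j)).det ∈ V.nonunits) :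
    ∃ (α : Fin c → F) (j0 : Fin c) (μ : Fin n → F), α j0 = 1 ∧ (∀ j, α j ∈ V) ∧
      (∀ i, μ i ∈ V.nonunits) ∧
      ∑ j, α j • KaehlerDifferential.D k F (algebraMap A F (f j)) =
        ∑ i, μ i • KaehlerDifferential.D k F (x i) := by
  obtain ⟨s, σ, hli, hgen⟩ := valuation_basis V (fun i => KaehlerDifferential.D k F (x i))
  choose a ha hxa using hgen
  have hA' : ∀ r : A, ∃ b : Fin s → F, (∀ l, b l ∈ V) ∧
      KaehlerDifferential.D k F (algebraMap A F r) =
        ∑ l, b l • KaehlerDifferential.D k F (x (σ l)) := by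
    intro r
    obtain ⟨t, ht, hrt⟩ := hA r
    refine ⟨fun l => ∑ i, t i * a i l, fun l => ?_, ?_⟩
    · exact V.toSubring.sum_mem fun i _ => V.mul_mem _ _ (ht i) (ha i l)
    · rw [hrt]
      calc ∑ i, t i • KaehlerDifferential.D k F (x i)
          = ∑ i, ∑ l, (t i * a i l) • KaehlerDifferential.D k F (x (σ l)) := by
            refine Finset.sum_congr rfl fun i _ => ?_
            rw [hxa i, Finset.smul_sum]
            exact Finset.sum_congr rfl fun l _ => by rw [smul_smul]
        _ = ∑ l, ∑ i, (t i * a i l) • KaehlerDifferential.D k F (x (σ l)) := Finset.sum_comm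
        _ = ∑ l, (∑ i, t i * a i l) • KaehlerDifferential.D k F (x (σ l)) :=
            Finset.sum_congr rfl fun l _ => by rw [Finset.sum_smul]
  choose b hb hrb using hA'
  obtain ⟨ev, hev⟩ := C1_dual _ hli
  have hevD : ∀ l (r : A), ev l (KaehlerDifferential.D k F (algebraMap A F r)) = b r l := by
    intro l r
    rw [hrb r, hev]
  choose δ hδ using fun l => C1_der (A := A) k (ev l)
  obtain ⟨α, j0, hα0, hα, hαl⟩ := rows_dependent V hc (fun j l => b (f j) l)
    (fun j l => hb _ _) (by
      intro l
      have h1 := hdet (fun i => δ (l i)) (fun i r => by rw [hδ, hevD]; exact hb _ _)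
      simpa only [hδ, hevD] using h1)
  refine ⟨α, j0, fun i => ∑ l with σ l = i, ∑ j, α j * b (f j) l, hα0, hα, fun i => ?_, ?_⟩
  · rw [ValuationSubring.mem_nonunits_iff]
    refine Valuation.map_sum_lt _ one_ne_zero fun l _ => ?_
    exact (ValuationSubring.mem_nonunits_iff V).1 (hαl l)
  · calc ∑ j, α j • KaehlerDifferential.D k F (algebraMap A F (f j))
        = ∑ j, ∑ l, (α j * b (f j) l) • KaehlerDifferential.D k F (x (σ l)) := by
          refine Finset.sum_congr rfl fun j _ => ?_
          rw [hrb (f j), Finset.smul_sum]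
          exact Finset.sum_congr rfl fun l _ => by rw [smul_smul]
      _ = ∑ l, ∑ j, (α j * b (f j) l) • KaehlerDifferential.D k F (x (σ l)) := Finset.sum_comm
      _ = ∑ l, (∑ j, α j * b (f j) l) • KaehlerDifferential.D k F (x (σ l)) :=
          Finset.sum_congr rfl fun l _ => by rw [Finset.sum_smul]
      _ = ∑ i, ∑ l with σ l = i,
            (∑ j, α j * b (f j) l) • KaehlerDifferential.D k F (x (σ l)) :=
          (Finset.sum_fiberwise _ _ _).symm
      _ = ∑ i, (∑ l with σ l = i, ∑ j, α j * b (f j) l) • KaehlerDifferential.D k F (x i) := by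
          refine Finset.sum_congr rfl fun i _ => ?_
          rw [Finset.sum_smul]
          refine Finset.sum_congr rfl fun l hl => ?_
          rw [(Finset.mem_filter.1 hl).2]

end Pool.Agent.Lib.MP_1bbd88_ag.S
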