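import Pool.Agent.Lib.MP_1bbd88_ag.S.SDefs

set_option autoImplicit false

namespace Pool.Agent.Lib.MP_1bbd88_ag.S

open Module TensorProduct IsLocalRing

private theorem C1a_remove {F M : Type*} [Field F] [AddCommGroup M] [Module F M]
    (V : ValuationSubring F) {n s : ℕ} (x : Fin n → M) (σ : Fin (s + 1) → Fin n)
    (hσ : ∀ i, ∃ a : Fin (s + 1) → F, (∀ l, a l ∈ V) ∧ x i = ∑ l, a l • x (σ l))
    (hli : ¬ LinearIndependent F (fun l => x (σ l))) :
    ∃ σ' : Fin s → Fin n, ∀ i, ∃ a : Fin s → F, (∀ l, a l ∈ V) ∧ x i = ∑ l, a l • x (σ' l) := by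
  rw [Fintype.not_linearIndependent_iff] at hli
  obtain ⟨c, hc, l1, hl1⟩ := hli
  obtain ⟨l0, hl0⟩ := Finite.exists_max fun l => V.valuation (c l)
  have hc0 : c l0 ≠ 0 := by
    intro h
    have h1 := hl0 l1
    rw [h, map_zero] at h1
    have h2 : V.valuation (c l1) = 0 := le_antisymm h1 zero_le
    exact hl1 ((Valuation.zero_iff _).1 h2)
  have hb : ∀ l, -(c l / c l0) ∈ V := by
    intro l
    apply V.neg_mem
    rw [← V.valuation_le_one_iff, map_div₀]
    apply div_le_one_of_le₀ (hl0 l) zero_le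
  refine ⟨fun j => σ (l0.succAbove j), fun i => ?_⟩
  obtain ⟨a, ha, hx⟩ := hσ i
  refine ⟨fun j => a l0 * (-(c (l0.succAbove j) / c l0)) + a (l0.succAbove j), fun j => ?_, ?_⟩
  · exact V.add_mem _ _ (V.mul_mem _ _ (ha _) (hb _)) (ha _)
  · have h1 : x (σ l0) = ∑ j, (-(c (l0.succAbove j) / c l0)) • x (σ (l0.succAbove j)) := by
      rw [Fin.sum_univ_succAbove _ l0] at hc
      have h2 : c l0 • x (σ l0) = -∑ j, c (l0.succAbove j) • x (σ (l0.succAbove j)) :=
        eq_neg_of_add_eq_zero_left hc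
      have h3 : x (σ l0) = (c l0)⁻¹ • (c l0 • x (σ l0)) := by
        rw [smul_smul, inv_mul_cancel₀ hc0, one_smul]
      rw [h3, h2, smul_neg, Finset.smul_sum, ← Finset.sum_neg_distrib]
      refine Finset.sum_congr rfl fun j _ => ?_
      rw [smul_smul, neg_smul, div_eq_inv_mul]
    rw [hx, Fin.sum_univ_succAbove _ l0]
    conv_lhs => rw [h1]
    rw [Finset.smul_sum, ← Finset.sum_add_distrib]
    refine Finset.sum_congr rfl fun j _ => ?_
    rw [smul_smul, add_smul]

/-- a finitely generated submodule of a vector space over a valuation ring has a basis contained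
in the given generators -/
theorem valuation_basis {F M : Type*} [Field F] [AddCommGroup M] [Module F M]
    (V : ValuationSubring F) {n : ℕ} (x : Fin n → M) :
    ∃ (s : ℕ) (σ : Fin s → Fin n), LinearIndependent F (fun l => x (σ l)) ∧
      ∀ i, ∃ a : Fin s → F, (∀ l, a l ∈ V) ∧ x i = ∑ l, a l • x (σ l) := by
  classical
  have hex : ∃ s : ℕ, ∃ σ : Fin s → Fin n,
      ∀ i, ∃ a : Fin s → F, (∀ l, a l ∈ V) ∧ x i = ∑ l, a l • x (σ l) := by
    refine ⟨n, id, fun i => ⟨fun l => if l = i then 1 else 0, fun l => ?_, ?_⟩⟩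
    · dsimp only
      split_ifs
      · exact V.one_mem
      · exact V.zero_mem
    · simp
  obtain ⟨σ, hσ⟩ := Nat.find_spec hex
  refine ⟨Nat.find hex, σ, ?_, hσ⟩
  by_contra hli
  generalize hs : Nat.find hex = s at σ hσ hli
  cases s with
  | zero => exact hli (linearIndependent_empty_type)
  | succ s =>
    exact Nat.find_min hex (m := s) (by rw [hs]; exact Nat.lt_succ_self s)
      (C1a_remove V x σ hσ hli)

end Pool.Agent.Lib.MP_1bbd88_ag.S
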