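import Pool.Agent.Lib.MP_1bbd88_ag.S.SDefs

set_option autoImplicit false

namespace Pool.Agent.Lib.MP_1bbd88_ag.S

open Module TensorProduct IsLocalRing

variable {F Ω : Type*} [Field F] [Field Ω] [Algebra F Ω] {p : ℕ} [Fact p.Prime] [CharP F p]

/-- `DD` as a linear map. -/
noncomputable def C2_lin (e : ℕ) : F →ₗ[kq F p e] TT F Ω p e where
  toFun := DD Ω p e
  map_add' r s := by
    simp only [DD, map_add, TensorProduct.tmul_add, TensorProduct.add_tmul]
    abel
  map_smul' c r := by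
    have h : algebraMap F Ω (c • r) = c • algebraMap F Ω r := by
      rw [Algebra.smul_def, map_mul, Algebra.smul_def]
      rfl
    rw [DD, DD, h, RingHom.id_apply, TensorProduct.tmul_smul, ← TensorProduct.smul_tmul']
    exact (smul_sub c ((1 : Ω) ⊗ₜ[kq F p e] r) (algebraMap F Ω r ⊗ₜ[kq F p e] (1 : F))).symm

theorem C2_leibniz (e : ℕ) (r s : F) :
    DD Ω p e (r * s) = algebraMap F Ω r • DD Ω p e s + algebraMap F Ω s • DD Ω p e r +
      DD Ω p e r * DD Ω p e s := by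
  simp only [DD, mul_sub, sub_mul, Algebra.TensorProduct.tmul_mul_tmul, map_mul, one_mul, mul_one,
    smul_sub, TensorProduct.smul_tmul', smul_eq_mul]
  rw [mul_comm (algebraMap F Ω s) (algebraMap F Ω r)]
  abel

theorem C2_mul_mem (e : ℕ) (r s : F) : DD Ω p e r * DD Ω p e s ∈ dd F Ω p e ^ 2 := by
  rw [pow_two]
  exact Ideal.mul_mem_mul (Ideal.subset_span ⟨r, rfl⟩) (Ideal.subset_span ⟨s, rfl⟩)

theorem C2_smul_mk (e : ℕ) (r : F) (t : TT F Ω p e) :
    r • Ideal.Quotient.mk (dd F Ω p e ^ 2) t =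
      Ideal.Quotient.mk (dd F Ω p e ^ 2) (algebraMap F Ω r • t) := by
  rw [algebraMap_smul]
  rfl

/-- The derivation `r ↦ DD r` modulo `dd ^ 2`. -/
noncomputable def C2_der (e : ℕ) :
    Derivation (kq F p e) F (TT F Ω p e ⧸ dd F Ω p e ^ 2) :=
  Derivation.mk' ((Ideal.Quotient.mkₐ (kq F p e) (dd F Ω p e ^ 2)).toLinearMap ∘ₗ C2_lin e) (by
    intro r s
    change Ideal.Quotient.mk (dd F Ω p e ^ 2) (DD Ω p e (r * s)) =
      r • Ideal.Quotient.mk (dd F Ω p e ^ 2) (DD Ω p e s) +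
      s • Ideal.Quotient.mk (dd F Ω p e ^ 2) (DD Ω p e r)
    have h1 : Ideal.Quotient.mk (dd F Ω p e ^ 2) (DD Ω p e r * DD Ω p e s) = 0 :=
      Ideal.Quotient.eq_zero_iff_mem.2 (C2_mul_mem e r s)
    rw [C2_smul_mk, C2_smul_mk, C2_leibniz, RingHom.map_add, RingHom.map_add, h1, add_zero])

theorem C2_der_apply (e : ℕ) (r : F) :
    C2_der (Ω := Ω) (p := p) e r = Ideal.Quotient.mk (dd F Ω p e ^ 2) (DD Ω p e r) := rfl

/-- a relation between differentials gives an element of `dd ^ 2` -/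
theorem mem_dd_sq (e : ℕ) {ι κ : Type*} [Fintype ι] [Fintype κ] (α : ι → F) (f : ι → F)
    (μ : κ → F) (x : κ → F)
    (h : ∑ j, α j • KaehlerDifferential.D (kq F p e) F (f j) =
        ∑ i, μ i • KaehlerDifferential.D (kq F p e) F (x i)) :
    ∑ j, algebraMap F Ω (α j) • DD Ω p e (f j) - ∑ i, algebraMap F Ω (μ i) • DD Ω p e (x i) ∈
      dd F Ω p e ^ 2 := by
  have h1 := congrArg (C2_der (Ω := Ω) (p := p) e).liftKaehlerDifferential h
  simp only [map_sum, map_smul, Derivation.liftKaehlerDifferential_comp_D, C2_der_apply,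
    C2_smul_mk] at h1
  rw [← Ideal.Quotient.eq_zero_iff_mem, map_sub, map_sum, map_sum, h1, sub_self]

end Pool.Agent.Lib.MP_1bbd88_ag.S
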