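import Pool.Agent.Lib.MP_1bbd88_ag.S.M1

set_option autoImplicit false

namespace Pool.Agent.Lib.MP_1bbd88_ag.S

open Module TensorProduct IsLocalRing

variable {K : Type*} [Field K] {n p : ℕ} [Fact p.Prime] [CharP K p] [IsAlgClosed K]

/-- the differentials of the elements of `P/Q` are combinations of the `dx_i` with coefficients
in the image of `P` -/
theorem d_span (e : ℕ) (Q : Ideal (MvPowerSeries (Fin n) K)) [Q.IsPrime]
    (g : MvPowerSeries (Fin n) K) : ∃ s : Fin n → MvPowerSeries (Fin n) K,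
      KaehlerDifferential.D (kq (FF Q) p e) (FF Q) (jj Q g) =
        ∑ i, jj Q (s i) • KaehlerDifferential.D (kq (FF Q) p e) (FF Q)
          (jj Q (MvPowerSeries.X i)) := by
  classical
  let S : Subring (MvPowerSeries (Fin n) K) :=
    { carrier := {g | ∃ s : Fin n → MvPowerSeries (Fin n) K,
        KaehlerDifferential.D (kq (FF Q) p e) (FF Q) (jj Q g) =
          ∑ i, jj Q (s i) • KaehlerDifferential.D (kq (FF Q) p e) (FF Q)
            (jj Q (MvPowerSeries.X i))}
      mul_mem' := by
        rintro a b ⟨s, hs⟩ ⟨t, ht⟩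
        refine ⟨fun i => a * t i + b * s i, ?_⟩
        rw [map_mul, Derivation.leibniz, hs, ht, Finset.smul_sum, Finset.smul_sum,
          ← Finset.sum_add_distrib]
        refine Finset.sum_congr rfl fun i _ => ?_
        rw [map_add, map_mul, map_mul, add_smul, mul_smul, mul_smul]
      one_mem' := ⟨0, by simp⟩
      add_mem' := by
        rintro a b ⟨s, hs⟩ ⟨t, ht⟩
        refine ⟨fun i => s i + t i, ?_⟩
        rw [map_add, map_add, hs, ht, ← Finset.sum_add_distrib]
        refine Finset.sum_congr rfl fun i _ => ?_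
        rw [map_add, add_smul]
      zero_mem' := ⟨0, by simp⟩
      neg_mem' := by
        rintro a ⟨s, hs⟩
        refine ⟨fun i => - s i, ?_⟩
        rw [map_neg, map_neg, hs, ← Finset.sum_neg_distrib]
        refine Finset.sum_congr rfl fun i _ => ?_
        rw [map_neg, neg_smul] }
  have hX : ∀ i, (MvPowerSeries.X i : MvPowerSeries (Fin n) K) ∈ S := by
    intro i
    refine ⟨Pi.single i 1, ?_⟩
    rw [Finset.sum_eq_single i, Pi.single_eq_same, map_one, one_smul]
    · intro j _ hj
      rw [Pi.single_eq_of_ne hj, map_zero, zero_smul]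
    · intro h
      exact absurd (Finset.mem_univ i) h
  have hpow : ∀ a : MvPowerSeries (Fin n) K, a ^ p ^ e ∈ S := by
    intro a
    refine ⟨0, ?_⟩
    have hmem : jj Q (a ^ p ^ e) ∈ kq (FF Q) p e := by
      refine ⟨jj Q a, ?_⟩
      rw [iterateFrobenius_def, map_pow]
    have h0 : KaehlerDifferential.D (kq (FF Q) p e) (FF Q)
        (algebraMap (kq (FF Q) p e) (FF Q) ⟨jj Q (a ^ p ^ e), hmem⟩) = 0 :=
      Derivation.map_algebraMap _ _
    have h1 : algebraMap (kq (FF Q) p e) (FF Q) ⟨jj Q (a ^ p ^ e), hmem⟩ = jj Q (a ^ p ^ e) := rfl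
    rw [h1] at h0
    rw [h0]
    simp
  obtain ⟨b, hb⟩ := expand (p := p) e g
  have hg : g ∈ S := by
    rw [hb]
    exact S.sum_mem fun β _ => S.mul_mem (hpow _) (S.prod_mem fun i _ => S.pow_mem (hX i) _)
  exact hg

end Pool.Agent.Lib.MP_1bbd88_ag.S
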