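import Pool.Agent.Lib.MP_1bbd88_ag.S.U0

set_option autoImplicit false

namespace Pool.Agent.Lib.MP_1bbd88_ag.S

open Module TensorProduct IsLocalRing

variable {k : Type*} [Field k] {p : ℕ} [Fact p.Prime] [CharP k p]

/-- the homomorphism with given images of the variables -/
theorem CC_hom (m e : ℕ) (w : Fin m → W m (p ^ e) k) (hw : ∀ i, w i ∈ wm m (p ^ e) k) :
    ∃ φ : W m (p ^ e) k →ₐ[k] W m (p ^ e) k, ∀ i, φ (wx m (p ^ e) k i) = w i := by
  have hker : ∀ a ∈ powI (Fin m) k (p ^ e), MvPolynomial.aeval w a = 0 := by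
    intro a ha
    have hle : powI (Fin m) k (p ^ e) ≤
        RingHom.ker (MvPolynomial.aeval w : MvPolynomial (Fin m) k →ₐ[k] W m (p ^ e) k) := by
      refine Ideal.span_le.2 ?_
      rintro _ ⟨i, rfl⟩
      rw [SetLike.mem_coe, RingHom.mem_ker, map_pow, MvPolynomial.aeval_X]
      exact pow_eq_zero_of_mem m e (hw i)
    exact hle ha
  refine ⟨Ideal.Quotient.liftₐ _ (MvPolynomial.aeval w) hker, fun i => ?_⟩
  unfold wx
  rw [Ideal.Quotient.liftₐ_apply, Ideal.Quotient.lift_mk]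
  exact MvPolynomial.aeval_X w i

omit [Fact p.Prime] [CharP k p] in
/-- surjectivity up to a power of the ideal of the variables -/
theorem CC_step (m e : ℕ) (w : Fin m → W m (p ^ e) k) (hw : ∀ i, w i ∈ wm m (p ^ e) k)
    (hs : wm m (p ^ e) k ≤ Ideal.span (Set.range w))
    (φ : W m (p ^ e) k →ₐ[k] W m (p ^ e) k) (hφ : ∀ i, φ (wx m (p ^ e) k i) = w i) (N : ℕ) :
    ∀ a : W m (p ^ e) k, ∃ b, a - φ b ∈ wm m (p ^ e) k ^ N := by
  induction N with
  | zero => exact fun a => ⟨0, by simp⟩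
  | succ N ih =>
    intro a
    obtain ⟨c, hc⟩ := exists_const m (p ^ e) a
    obtain ⟨f, hf⟩ := (Ideal.mem_span_range_iff_exists_fun).1 (hs hc)
    choose g hg using fun i => ih (f i)
    refine ⟨algebraMap k _ c + ∑ i, g i * wx m (p ^ e) k i, ?_⟩
    have h1 : a - φ (algebraMap k _ c + ∑ i, g i * wx m (p ^ e) k i) =
        ∑ i, (f i - φ (g i)) * w i := by
      rw [map_add, AlgHom.commutes, map_sum]
      simp only [map_mul, hφ, sub_mul, Finset.sum_sub_distrib]
      rw [hf]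
      ring
    rw [h1]
    have h2 : wm m (p ^ e) k ^ (N + 1) = wm m (p ^ e) k ^ N * wm m (p ^ e) k := Submodule.pow_succ _
    rw [h2]
    exact Ideal.sum_mem _ fun i _ => Ideal.mul_mem_mul (hg i) (hw i)

/-- change of coordinates -/
theorem coord_change (m e : ℕ) (E : Matrix (Fin m) (Fin m) (W m (p ^ e) k))
    (hE : IsUnit E.det) : ∃ θ : W m (p ^ e) k ≃ₐ[k] W m (p ^ e) k,
      ∀ i, θ (wx m (p ^ e) k i) = ∑ j, E i j * wx m (p ^ e) k j := by
  have hx : ∀ j, wx m (p ^ e) k j ∈ wm m (p ^ e) k := fun j =>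
    Ideal.subset_span (Set.mem_range_self j)
  have hw : ∀ i, (∑ j, E i j * wx m (p ^ e) k j) ∈ wm m (p ^ e) k := fun i =>
    Ideal.sum_mem _ fun j _ => Ideal.mul_mem_left _ _ (hx j)
  have hs : wm m (p ^ e) k ≤ Ideal.span (Set.range fun i => ∑ j, E i j * wx m (p ^ e) k j) := by
    unfold wm
    rw [Ideal.span_le]
    rintro _ ⟨i, rfl⟩
    have h1 : wx m (p ^ e) k i = ∑ l, E⁻¹ i l * ∑ j, E l j * wx m (p ^ e) k j := by
      have h2 : E⁻¹.mulVec (E.mulVec (wx m (p ^ e) k)) = wx m (p ^ e) k := by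
        rw [Matrix.mulVec_mulVec, Matrix.nonsing_inv_mul E hE, Matrix.one_mulVec]
      exact (congrFun h2 i).symm
    rw [SetLike.mem_coe, h1]
    exact Ideal.sum_mem _ fun l _ => Ideal.mul_mem_left _ _ (Ideal.subset_span (Set.mem_range_self l))
  obtain ⟨φ, hφ⟩ := CC_hom m e _ hw
  obtain ⟨N, hN⟩ := wm_nilp (k := k) m (p ^ e)
  have hsurj : Function.Surjective φ := by
    intro a
    obtain ⟨b, hb⟩ := CC_step m e _ hw hs φ hφ N a
    rw [hN, Ideal.mem_bot, sub_eq_zero] at hb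
    exact ⟨b, hb.symm⟩
  have hinj : Function.Injective φ := by
    have h := (LinearMap.injective_iff_surjective (f := φ.toLinearMap)).2 hsurj
    exact h
  exact ⟨AlgEquiv.ofBijective φ ⟨hinj, hsurj⟩, fun i => hφ i⟩

end Pool.Agent.Lib.MP_1bbd88_ag.S
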