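import Pool.Agent.Lib.MP_1bbd88_ag.S.SDefs

set_option autoImplicit false

namespace Pool.Agent.Lib.MP_1bbd88_ag.S

open Module TensorProduct IsLocalRing

/-- the semicontinuity principle -/
theorem finrank_le_of_nakayama {V Ω T : Type*} [CommRing V] [IsLocalRing V] [Field Ω]
    [Algebra V Ω] [CommRing T] [Algebra Ω T] [Algebra V T] [IsScalarTower V Ω T]
    (N : Submodule V T) (hN : N.FG) (hspan : Submodule.span Ω (N : Set T) = ⊤) {r : ℕ}
    (g : Fin r → T) (hg : N ≤ Submodule.span V (Set.range g) ⊔ maximalIdeal V • N) :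
    finrank Ω T ≤ r := by
  have h0 : N ≤ Submodule.span V (Set.range g) :=
    Submodule.le_of_le_smul_of_le_jacobson_bot hN
      (IsLocalRing.jacobson_eq_maximalIdeal ⊥ bot_ne_top).ge hg
  have hall : ∀ y ∈ N, y ∈ Submodule.span Ω (Set.range g) := by
    intro y hy
    refine Submodule.span_induction ?_ ?_ ?_ ?_ (h0 hy)
    · intro t ht
      exact Submodule.subset_span ht
    · exact Submodule.zero_mem _
    · intro a b _ _ ha hb
      exact Submodule.add_mem _ ha hb
    · intro v t _ ht
      rw [← algebraMap_smul Ω v t]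
      exact Submodule.smul_mem _ _ ht
  have htop : Submodule.span Ω (Set.range g) = ⊤ := by
    rw [eq_top_iff, ← hspan]
    exact Submodule.span_le.2 hall
  have h1 := finrank_range_le_card (R := Ω) g
  rw [Set.finrank, htop, finrank_top, Fintype.card_fin] at h1
  exact h1

end Pool.Agent.Lib.MP_1bbd88_ag.S
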