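import Pool.Agent.Lib.MP_1bbd88_ag.S.D0

set_option autoImplicit false

namespace Pool.Agent.Lib.MP_1bbd88_ag.S

open Module TensorProduct IsLocalRing

/-- the semicontinuity principle, elementwise -/
theorem finrank_le_of_rel {P F Ω T : Type*} [CommRing P] [Field F] [Field Ω] [Algebra F Ω]
    [CommRing T] [Algebra Ω T] (V : ValuationSubring F) (ρ : P →+* T)
    (hspan : Submodule.span Ω (Set.range ρ) = ⊤)
    {ι : Type*} [Fintype ι] (x : ι → P)
    (hfg : ∀ r : P, ∃ v : ι → F, (∀ i, v i ∈ V) ∧ ρ r = ∑ i, algebraMap F Ω (v i) • ρ (x i))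
    {r : ℕ} (g : Fin r → P)
    (hg : ∀ y : P, ∃ (v : Fin r → F) (s : ℕ) (μ : Fin s → F) (z : Fin s → P), (∀ i, v i ∈ V) ∧
      (∀ l, μ l ∈ V.nonunits) ∧
      ρ y = ∑ i, algebraMap F Ω (v i) • ρ (g i) + ∑ l, algebraMap F Ω (μ l) • ρ (z l)) :
    finrank Ω T ≤ r := by
  classical
  -- `T` as a module over `V`
  let φ : V →+* Ω := (algebraMap F Ω).comp V.subtype
  let _ : Module V T := Module.compHom T φ
  have hsm : ∀ (v : V) (t : T), v • t = algebraMap F Ω (v : F) • t := fun v t => rfl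
  let N : Submodule V T := Submodule.span V (Set.range fun i => ρ (g i))
  let M : Submodule V T := Submodule.span V (Set.range fun i => ρ (x i))
  have hM : ∀ y : P, ρ y ∈ M := by
    intro y
    obtain ⟨v, hv, e⟩ := hfg y
    rw [e]
    refine Submodule.sum_mem _ fun i _ => ?_
    have := M.smul_mem (⟨v i, hv i⟩ : V) (Submodule.subset_span ⟨i, rfl⟩ : ρ (x i) ∈ M)
    rwa [hsm] at this
  have hMfg : M.FG := ⟨Finset.univ.image fun i => ρ (x i), by simp [M]⟩
  have hNak : M ≤ N ⊔ maximalIdeal V • M := by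
    refine Submodule.span_le.2 ?_
    rintro _ ⟨i, rfl⟩
    obtain ⟨v, s, μ, z, hv, hμ, e⟩ := hg (x i)
    show ρ (x i) ∈ N ⊔ maximalIdeal V • M
    rw [e]
    refine Submodule.add_mem_sup (Submodule.sum_mem _ fun j _ => ?_)
      (Submodule.sum_mem _ fun l _ => ?_)
    · have := N.smul_mem (⟨v j, hv j⟩ : V) (Submodule.subset_span ⟨j, rfl⟩ : ρ (g j) ∈ N)
      rwa [hsm] at this
    · obtain ⟨h1, h2⟩ := ValuationSubring.mem_nonunits_iff_exists_mem_maximalIdeal.1 (hμ l)
      have := Submodule.smul_mem_smul h2 (hM (z l))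
      rwa [hsm] at this
  have hMN : M ≤ N :=
    Submodule.le_of_le_smul_of_le_jacobson_bot hMfg
      (IsLocalRing.jacobson_eq_maximalIdeal ⊥ bot_ne_top).ge hNak
  -- hence the `g i` span `T`
  have hall : ∀ y : P, ρ y ∈ Submodule.span Ω (Set.range fun i => ρ (g i)) := by
    intro y
    have h1 : ρ y ∈ N := hMN (hM y)
    refine Submodule.span_induction ?_ ?_ ?_ ?_ h1
    · intro t ht
      exact Submodule.subset_span ht
    · exact Submodule.zero_mem _
    · intro a b _ _ ha hb
      exact Submodule.add_mem _ ha hb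
    · intro v t _ ht
      rw [hsm]
      exact Submodule.smul_mem _ _ ht
  have htop : Submodule.span Ω (Set.range fun i => ρ (g i)) = ⊤ := by
    rw [eq_top_iff, ← hspan]
    refine Submodule.span_le.2 ?_
    rintro _ ⟨y, rfl⟩
    exact hall y
  have h1 := finrank_range_le_card (R := Ω) (fun i => ρ (g i))
  rw [Set.finrank, htop, finrank_top, Fintype.card_fin] at h1
  exact h1

end Pool.Agent.Lib.MP_1bbd88_ag.S
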