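import Pool.Agent.Lib.MP_1bbd88_ag.S.SDefs

set_option autoImplicit false

namespace Pool.Agent.Lib.MP_1bbd88_ag.S

open Module TensorProduct IsLocalRing

variable {K : Type*} [Field K] {n : ℕ}

/-- generators of `P / (Q + (f) + x^[q])` over the field `K` -/
theorem exists_generators (q : ℕ) (Q : Ideal (MvPowerSeries (Fin n) K)) {c : ℕ}
    (f : Fin c → MvPowerSeries (Fin n) K) :
    ∃ g : Fin (finrank K (MvPowerSeries (Fin n) K ⧸
        (Q ⊔ Ideal.span (Set.range f) ⊔ psI (Fin n) K q))) → MvPowerSeries (Fin n) K,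
      ∀ r : MvPowerSeries (Fin n) K, ∃ (l : Fin (finrank K (MvPowerSeries (Fin n) K ⧸
        (Q ⊔ Ideal.span (Set.range f) ⊔ psI (Fin n) K q))) → K)
        (a : Fin c → MvPowerSeries (Fin n) K) (b : Fin n → MvPowerSeries (Fin n) K),
        r - (∑ i, MvPowerSeries.C (l i) * g i + ∑ j, f j * a j +
          ∑ k, MvPowerSeries.X k ^ q * b k) ∈ Q := by
  set J : Ideal (MvPowerSeries (Fin n) K) :=
    Q ⊔ Ideal.span (Set.range f) ⊔ psI (Fin n) K q with hJ
  have h3 : psI (Fin n) K q ≤ J := le_sup_right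
  have hfin : FiniteDimensional K (MvPowerSeries (Fin n) K ⧸ J) := by
    refine Module.Finite.of_surjective (Ideal.Quotient.factorₐ K h3).toLinearMap ?_
    exact Ideal.Quotient.factor_surjective h3
  set B := Module.finBasis K (MvPowerSeries (Fin n) K ⧸ J) with hB
  have hsur : Function.Surjective (Ideal.Quotient.mk J) := Ideal.Quotient.mk_surjective
  choose g hg using fun i => hsur (B i)
  refine ⟨g, fun r => ?_⟩
  set l := B.repr (Ideal.Quotient.mk J r) with hl
  have h1 : r - ∑ i, MvPowerSeries.C (l i) * g i ∈ J := by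
    rw [← Ideal.Quotient.eq_zero_iff_mem, map_sub, map_sum]
    have h2 : ∑ i, Ideal.Quotient.mk J (MvPowerSeries.C (l i) * g i) = Ideal.Quotient.mk J r := by
      conv_rhs => rw [← B.sum_repr (Ideal.Quotient.mk J r)]
      refine Finset.sum_congr rfl fun i _ => ?_
      rw [map_mul, hg, Algebra.smul_def]
      rfl
    rw [h2, sub_self]
  obtain ⟨y, hy, z, hz, hyz⟩ := Submodule.mem_sup.1 h1
  obtain ⟨u, hu, w, hw, huw⟩ := Submodule.mem_sup.1 hy
  obtain ⟨a, ha⟩ := (Ideal.mem_span_range_iff_exists_fun).1 hw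
  rw [psI] at hz
  obtain ⟨b, hb⟩ := (Ideal.mem_span_range_iff_exists_fun).1 hz
  refine ⟨l, a, b, ?_⟩
  have h4 : r - (∑ i, MvPowerSeries.C (l i) * g i + ∑ j, f j * a j +
      ∑ k, MvPowerSeries.X k ^ q * b k) = u := by
    have e1 : ∑ j, f j * a j = w := by
      rw [← ha]
      exact Finset.sum_congr rfl fun j _ => mul_comm _ _
    have e2 : ∑ k, MvPowerSeries.X k ^ q * b k = z := by
      rw [← hb]
      exact Finset.sum_congr rfl fun j _ => mul_comm _ _
    rw [e1, e2]
    have e3 : r - ∑ i, MvPowerSeries.C (l i) * g i = u + w + z := by rw [huw, hyz]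
    linear_combination e3
  rw [h4]
  exact hu

end Pool.Agent.Lib.MP_1bbd88_ag.S
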