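import Pool.Agent.Lib.MP_1bbd88_ag.S.M1
import Pool.Agent.Lib.MP_1bbd88_ag.S.F0

set_option autoImplicit false

namespace Pool.Agent.Lib.MP_1bbd88_ag.S

open Module TensorProduct IsLocalRing

section

variable {K : Type*} [Field K] {n : ℕ}

/-- The ring homomorphism `P → T ⧸ J`, `r ↦ 1 ⊗ r`. -/
noncomputable def rr (p : ℕ) [Fact p.Prime] [CharP K p] (e : ℕ)
    (Q : Ideal (MvPowerSeries (Fin n) K)) [Q.IsPrime] (Ω : Type*) [Field Ω] [Algebra (FF Q) Ω]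
    (J : Ideal (TT (FF Q) Ω p e)) : MvPowerSeries (Fin n) K →+* TT (FF Q) Ω p e ⧸ J :=
  ((Ideal.Quotient.mk J).comp
    ((Algebra.TensorProduct.includeRight : FF Q →ₐ[kq (FF Q) p e] TT (FF Q) Ω p e) :
      FF Q →+* TT (FF Q) Ω p e)).comp (jj Q)

end

variable {K : Type*} [Field K] {n p : ℕ} [Fact p.Prime] [CharP K p] [IsAlgClosed K]

omit [IsAlgClosed K] in
theorem rr_apply (e : ℕ) (Q : Ideal (MvPowerSeries (Fin n) K)) [Q.IsPrime] {Ω : Type*} [Field Ω]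
    [Algebra (FF Q) Ω] (J : Ideal (TT (FF Q) Ω p e)) (r : MvPowerSeries (Fin n) K) :
    rr p e Q Ω J r = Ideal.Quotient.mk J ((1 : Ω) ⊗ₜ[kq (FF Q) p e] jj Q r) := by
  rfl

omit [IsAlgClosed K] in
private theorem D1b_mk_smul (e : ℕ) (Q : Ideal (MvPowerSeries (Fin n) K)) [Q.IsPrime] {Ω : Type*}
    [Field Ω] [Algebra (FF Q) Ω] (J : Ideal (TT (FF Q) Ω p e)) (ω : Ω) (x : TT (FF Q) Ω p e) :
    Ideal.Quotient.mk J (ω • x) = ω • Ideal.Quotient.mk J x := rfl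

omit [IsAlgClosed K] in
private theorem D1b_kq (e : ℕ) (Q : Ideal (MvPowerSeries (Fin n) K)) [Q.IsPrime] {Ω : Type*}
    [Field Ω] [Algebra (FF Q) Ω] (J : Ideal (TT (FF Q) Ω p e)) (c : FF Q)
    (hc : c ∈ kq (FF Q) p e) :
    Ideal.Quotient.mk J ((1 : Ω) ⊗ₜ[kq (FF Q) p e] c) =
      algebraMap (FF Q) Ω c • (1 : TT (FF Q) Ω p e ⧸ J) := by
  have h1 : (1 : Ω) ⊗ₜ[kq (FF Q) p e] c =
      (1 : Ω) ⊗ₜ[kq (FF Q) p e] ((⟨c, hc⟩ : kq (FF Q) p e) • (1 : FF Q)) := by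
    congr 1
    rw [Subfield.smul_def, smul_eq_mul, mul_one]
  have h2 : (⟨c, hc⟩ : kq (FF Q) p e) • (1 : Ω) = algebraMap (FF Q) Ω c := by
    rw [Subfield.smul_def, Algebra.smul_def, mul_one]
  have h3 : (1 : Ω) ⊗ₜ[kq (FF Q) p e] c =
      algebraMap (FF Q) Ω c • (1 : TT (FF Q) Ω p e) := by
    rw [h1, ← TensorProduct.smul_tmul, h2, Algebra.TensorProduct.one_def, TensorProduct.smul_tmul',
      smul_eq_mul, mul_one]
  rw [h3, D1b_mk_smul]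
  rfl

/-- `1 ⊗ r = r ⊗ 1` for `q`-th powers -/
theorem rr_pow (e : ℕ) (Q : Ideal (MvPowerSeries (Fin n) K)) [Q.IsPrime] {Ω : Type*} [Field Ω]
    [Algebra (FF Q) Ω] (J : Ideal (TT (FF Q) Ω p e)) (r : MvPowerSeries (Fin n) K) :
    rr p e Q Ω J (r ^ p ^ e) =
      algebraMap (FF Q) Ω (jj Q (r ^ p ^ e)) • (1 : TT (FF Q) Ω p e ⧸ J) := by
  rw [rr_apply]
  refine D1b_kq e Q J _ ?_
  refine ⟨jj Q r, ?_⟩
  rw [iterateFrobenius_def, map_pow]

theorem rr_C (e : ℕ) (Q : Ideal (MvPowerSeries (Fin n) K)) [Q.IsPrime] {Ω : Type*} [Field Ω]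
    [Algebra (FF Q) Ω] (J : Ideal (TT (FF Q) Ω p e)) (a : K) :
    rr p e Q Ω J (MvPowerSeries.C a) =
      algebraMap (FF Q) Ω (jj Q (MvPowerSeries.C a)) • (1 : TT (FF Q) Ω p e ⧸ J) := by
  obtain ⟨b, hb⟩ := IsAlgClosed.exists_pow_nat_eq a
    (pow_pos (Nat.Prime.pos (Fact.out : p.Prime)) e)
  have h : (MvPowerSeries.C a : MvPowerSeries (Fin n) K) = (MvPowerSeries.C b) ^ p ^ e := by
    rw [← map_pow, hb]
  rw [h]
  exact rr_pow e Q J _

theorem rr_fg (e : ℕ) (Q : Ideal (MvPowerSeries (Fin n) K)) [Q.IsPrime] {Ω : Type*} [Field Ω]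
    [Algebra (FF Q) Ω] (J : Ideal (TT (FF Q) Ω p e)) (V : ValuationSubring (FF Q))
    (hV : ∀ g, jj Q g ∈ V) (r : MvPowerSeries (Fin n) K) :
    ∃ v : (Fin n → Fin (p ^ e)) → FF Q, (∀ β, v β ∈ V) ∧
      rr p e Q Ω J r = ∑ β, algebraMap (FF Q) Ω (v β) •
        rr p e Q Ω J (∏ i, MvPowerSeries.X i ^ (β i : ℕ)) := by
  obtain ⟨b, hb⟩ := expand (p := p) e r
  refine ⟨fun β => jj Q (b β ^ p ^ e), fun β => hV _, ?_⟩
  conv_lhs => rw [hb]
  rw [map_sum]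
  refine Finset.sum_congr rfl fun β _ => ?_
  rw [map_mul, rr_pow, smul_mul_assoc]
  have h1 : (1 : TT (FF Q) Ω p e ⧸ J) *
      rr p e Q Ω J (∏ i, MvPowerSeries.X i ^ (β i : ℕ)) =
      rr p e Q Ω J (∏ i, MvPowerSeries.X i ^ (β i : ℕ)) :=
    @one_mul (TT (FF Q) Ω p e ⧸ J) _ _
  rw [h1]

theorem rr_span (e : ℕ) (Q : Ideal (MvPowerSeries (Fin n) K)) [Q.IsPrime] {Ω : Type*} [Field Ω]
    [Algebra (FF Q) Ω] (J : Ideal (TT (FF Q) Ω p e)) :
    Submodule.span Ω (Set.range (rr p e Q Ω J)) = ⊤ := by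
  rw [eq_top_iff]
  rintro y -
  obtain ⟨x, rfl⟩ := Ideal.Quotient.mk_surjective y
  induction x using TensorProduct.induction_on with
  | zero =>
    rw [map_zero]
    exact Submodule.zero_mem _
  | add x y hx hy =>
    rw [map_add]
    exact Submodule.add_mem _ hx hy
  | tmul ω f =>
    have hf : f ∈ Submodule.span (kq (FF Q) p e) (Set.range fun β : Fin n → Fin (p ^ e) =>
        jj Q (∏ i, MvPowerSeries.X i ^ (β i : ℕ))) := by
      rw [span_mon (p := p) e Q]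
      trivial
    induction hf using Submodule.span_induction generalizing ω with
    | mem f hf =>
      obtain ⟨β, rfl⟩ := hf
      have h1 : ω ⊗ₜ[kq (FF Q) p e] jj Q (∏ i, MvPowerSeries.X i ^ (β i : ℕ)) =
          ω • ((1 : Ω) ⊗ₜ[kq (FF Q) p e] jj Q (∏ i, MvPowerSeries.X i ^ (β i : ℕ))) := by
        rw [TensorProduct.smul_tmul', smul_eq_mul, mul_one]
      show Ideal.Quotient.mk J (ω ⊗ₜ[kq (FF Q) p e] jj Q (∏ i, MvPowerSeries.X i ^ (β i : ℕ))) ∈ _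
      rw [h1, D1b_mk_smul]
      exact Submodule.smul_mem _ _ (Submodule.subset_span ⟨_, rr_apply e Q J _⟩)
    | zero =>
      rw [TensorProduct.tmul_zero, map_zero]
      exact Submodule.zero_mem _
    | add f g _ _ hf hg =>
      rw [TensorProduct.tmul_add, map_add]
      exact Submodule.add_mem _ (hf ω) (hg ω)
    | smul c f _ hf =>
      rw [← TensorProduct.smul_tmul]
      exact hf (c • ω)

end Pool.Agent.Lib.MP_1bbd88_ag.S
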