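import Pool.Agent.Lib.MP_1bbd88_ag.S.D1b

set_option autoImplicit false

namespace Pool.Agent.Lib.MP_1bbd88_ag.S

open Module TensorProduct IsLocalRing

variable {K : Type*} [Field K] {n p : ℕ} [Fact p.Prime] [CharP K p] [IsAlgClosed K]

omit [IsAlgClosed K] in
private theorem D1c_mk_DD (e : ℕ) (Q : Ideal (MvPowerSeries (Fin n) K)) [Q.IsPrime]
    {Ω : Type*} [Field Ω] [Algebra (FF Q) Ω] (J : Ideal (TT (FF Q) Ω p e))
    (f : MvPowerSeries (Fin n) K) :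
    Ideal.Quotient.mk J (DD Ω p e (jj Q f)) =
      rr p e Q Ω J f - algebraMap (FF Q) Ω (jj Q f) • (1 : TT (FF Q) Ω p e ⧸ J) := by
  have h1 : algebraMap (FF Q) Ω (jj Q f) • (1 : TT (FF Q) Ω p e ⧸ J) =
      Ideal.Quotient.mk J ((algebraMap (FF Q) Ω (jj Q f)) ⊗ₜ[kq (FF Q) p e] (1 : FF Q)) := by
    have h2 : ((algebraMap (FF Q) Ω (jj Q f)) ⊗ₜ[kq (FF Q) p e] (1 : FF Q) : TT (FF Q) Ω p e) =
        algebraMap (FF Q) Ω (jj Q f) • (1 : TT (FF Q) Ω p e) := by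
      rw [Algebra.TensorProduct.one_def, TensorProduct.smul_tmul', smul_eq_mul, mul_one]
    rw [h2]
    rfl
  rw [h1, rr_apply, DD, map_sub]

/-- `1 ⊗ f` is congruent to `f ⊗ 1` if `DD f ∈ J` -/
theorem rr_of_mem (e : ℕ) (Q : Ideal (MvPowerSeries (Fin n) K)) [Q.IsPrime] {Ω : Type*} [Field Ω]
    [Algebra (FF Q) Ω] (J : Ideal (TT (FF Q) Ω p e)) (f : MvPowerSeries (Fin n) K)
    (h : DD Ω p e (jj Q f) ∈ J) :
    rr p e Q Ω J f = algebraMap (FF Q) Ω (jj Q f) • (1 : TT (FF Q) Ω p e ⧸ J) := by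
  have h1 := D1c_mk_DD e Q J f
  rw [Ideal.Quotient.eq_zero_iff_mem.2 h] at h1
  exact (sub_eq_zero.1 h1.symm)

/-- the relation given by the generator `G j0` -/
theorem rr_rel (e : ℕ) (Q : Ideal (MvPowerSeries (Fin n) K)) [Q.IsPrime] {Ω : Type*} [Field Ω]
    [Algebra (FF Q) Ω] (J : Ideal (TT (FF Q) Ω p e)) {c : ℕ} (f : Fin c → MvPowerSeries (Fin n) K)
    (α : Fin c → FF Q) (μ : Fin n → FF Q)
    (h : ∑ j, algebraMap (FF Q) Ω (α j) • DD Ω p e (jj Q (f j)) -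
      ∑ i, algebraMap (FF Q) Ω (μ i) • DD Ω p e (jj Q (MvPowerSeries.X i)) ∈ J) :
    ∑ j, algebraMap (FF Q) Ω (α j) • rr p e Q Ω J (f j) =
      algebraMap (FF Q) Ω (∑ j, α j * jj Q (f j) - ∑ i, μ i * jj Q (MvPowerSeries.X i)) •
        (1 : TT (FF Q) Ω p e ⧸ J) +
      ∑ i, algebraMap (FF Q) Ω (μ i) • rr p e Q Ω J (MvPowerSeries.X i) := by
  have h0 := Ideal.Quotient.eq_zero_iff_mem.2 h
  rw [map_sub, map_sum, map_sum] at h0
  have hs : ∀ (a : Ω) (x : TT (FF Q) Ω p e),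
      Ideal.Quotient.mk J (a • x) = a • Ideal.Quotient.mk J x := fun a x => rfl
  have e1 : ∀ j, Ideal.Quotient.mk J (algebraMap (FF Q) Ω (α j) • DD Ω p e (jj Q (f j))) =
      algebraMap (FF Q) Ω (α j) • rr p e Q Ω J (f j) -
        algebraMap (FF Q) Ω (α j * jj Q (f j)) • (1 : TT (FF Q) Ω p e ⧸ J) := by
    intro j
    rw [hs, D1c_mk_DD, smul_sub, smul_smul, map_mul]
  have e2 : ∀ i, Ideal.Quotient.mk J
      (algebraMap (FF Q) Ω (μ i) • DD Ω p e (jj Q (MvPowerSeries.X i))) =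
      algebraMap (FF Q) Ω (μ i) • rr p e Q Ω J (MvPowerSeries.X i) -
        algebraMap (FF Q) Ω (μ i * jj Q (MvPowerSeries.X i)) • (1 : TT (FF Q) Ω p e ⧸ J) := by
    intro i
    rw [hs, D1c_mk_DD, smul_sub, smul_smul, map_mul]
  simp only [e1, e2, Finset.sum_sub_distrib] at h0
  have h3 : algebraMap (FF Q) Ω (∑ j, α j * jj Q (f j) - ∑ i, μ i * jj Q (MvPowerSeries.X i)) •
        (1 : TT (FF Q) Ω p e ⧸ J) =
      (∑ j, algebraMap (FF Q) Ω (α j * jj Q (f j)) • (1 : TT (FF Q) Ω p e ⧸ J)) -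
      ∑ i, algebraMap (FF Q) Ω (μ i * jj Q (MvPowerSeries.X i)) •
        (1 : TT (FF Q) Ω p e ⧸ J) := by
    rw [map_sub, sub_smul, map_sum, map_sum, Finset.sum_smul, Finset.sum_smul]
  rw [h3]
  rw [sub_eq_zero] at h0
  rw [sub_eq_iff_eq_add] at h0
  rw [h0]
  abel

end Pool.Agent.Lib.MP_1bbd88_ag.S
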