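import Pool.Agent.Lib.MP_1bbd88_ag.S.D0b
import Pool.Agent.Lib.MP_1bbd88_ag.S.D1a
import Pool.Agent.Lib.MP_1bbd88_ag.S.D1b
import Pool.Agent.Lib.MP_1bbd88_ag.S.D1c

set_option autoImplicit false

namespace Pool.Agent.Lib.MP_1bbd88_ag.S

open Module TensorProduct IsLocalRing

section aux

/-- Finite sums of `μ • ρ z` with non-units `μ`. -/
def D1_R {P F Ω T : Type*} [CommRing P] [Field F] [Field Ω] [Algebra F Ω]
    [CommRing T] [Algebra Ω T] (V : ValuationSubring F) (ρ : P →+* T) (t : T) : Prop :=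
  ∃ (s : ℕ) (μ : Fin s → F) (z : Fin s → P),
    (∀ l, μ l ∈ V.nonunits) ∧ t = ∑ l, algebraMap F Ω (μ l) • ρ (z l)

variable {P F Ω T : Type*} [CommRing P] [Field F] [Field Ω] [Algebra F Ω]
    [CommRing T] [Algebra Ω T] (V : ValuationSubring F) (ρ : P →+* T)

theorem D1_zero : D1_R (Ω := Ω) V ρ 0 :=
  ⟨0, fun i => i.elim0, fun i => i.elim0, fun i => i.elim0, by simp⟩

theorem D1_add {a b : T} (ha : D1_R (Ω := Ω) V ρ a) (hb : D1_R (Ω := Ω) V ρ b) :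
    D1_R (Ω := Ω) V ρ (a + b) := by
  obtain ⟨s, μ, z, h1, rfl⟩ := ha
  obtain ⟨s', μ', z', h1', rfl⟩ := hb
  refine ⟨s + s', Fin.append μ μ', Fin.append z z', ?_, ?_⟩
  · intro l
    induction l using Fin.addCases with
    | left l => rw [Fin.append_left]; exact h1 l
    | right l => rw [Fin.append_right]; exact h1' l
  · rw [Fin.sum_univ_add]
    simp only [Fin.append_left, Fin.append_right]

theorem D1_smul {μ : F} (hμ : μ ∈ V.nonunits) (z : P) :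
    D1_R (Ω := Ω) V ρ (algebraMap F Ω μ • ρ z) :=
  ⟨1, fun _ => μ, fun _ => z, fun _ => hμ, by simp⟩

theorem D1_sum {ι : Type*} (s : Finset ι) (a : ι → T) (h : ∀ i ∈ s, D1_R (Ω := Ω) V ρ (a i)) :
    D1_R (Ω := Ω) V ρ (∑ i ∈ s, a i) :=
  Finset.sum_induction a (D1_R (Ω := Ω) V ρ) (fun _ _ => D1_add V ρ) (D1_zero V ρ) h

variable {V} in
theorem D1_nu_mul {a b : F} (ha : a ∈ V) (hb : b ∈ V.nonunits) : a * b ∈ V.nonunits := by
  rw [ValuationSubring.mem_nonunits_iff] at hb ⊢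
  rw [map_mul]
  exact mul_lt_one_of_nonneg_of_lt_one_right ((V.valuation_le_one_iff a).mpr ha) zero_le hb

variable {V} in
theorem D1_nu_neg {a : F} (ha : a ∈ V.nonunits) : -a ∈ V.nonunits := by
  rw [ValuationSubring.mem_nonunits_iff] at ha ⊢
  rwa [Valuation.map_neg]

variable {V} in
theorem D1_nu_add {a b : F} (ha : a ∈ V.nonunits) (hb : b ∈ V.nonunits) :
    a + b ∈ V.nonunits := by
  rw [ValuationSubring.mem_nonunits_iff] at ha hb ⊢
  exact Valuation.map_add_lt _ ha hb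

variable {V} in
theorem D1_nu_sum {ι : Type*} (s : Finset ι) (a : ι → F) (h : ∀ i ∈ s, a i ∈ V.nonunits) :
    ∑ i ∈ s, a i ∈ V.nonunits := by
  rw [ValuationSubring.mem_nonunits_iff]
  exact Valuation.map_sum_lt _ one_ne_zero fun i hi => (V.mem_nonunits_iff).mp (h i hi)

/-- The abstract form of the computation. -/
theorem D1_abs (φ : P →+* F) (hV : ∀ g, φ g ∈ V) {c n q : ℕ} (f : Fin c → P)
    (hfnu : ∀ j, φ (f j) ∈ V.nonunits) (α : Fin c → F) (j0 : Fin c) (hα : α j0 = 1)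
    (hαV : ∀ j, α j ∈ V) (μ : Fin n → F) (hμ : ∀ i, μ i ∈ V.nonunits) (X : Fin n → P)
    (hX : ∀ k, φ (X k ^ q) ∈ V.nonunits)
    (hρX : ∀ k, ρ (X k ^ q) = algebraMap F Ω (φ (X k ^ q)) • (1 : T))
    (hne : ∀ j, j ≠ j0 → ρ (f j) = algebraMap F Ω (φ (f j)) • (1 : T))
    (hrel : ∑ j, algebraMap F Ω (α j) • ρ (f j) =
      algebraMap F Ω (∑ j, α j * φ (f j) - ∑ i, μ i * φ (X i)) • (1 : T) +
      ∑ i, algebraMap F Ω (μ i) • ρ (X i))
    {r : ℕ} (L g : Fin r → P) (hL : ∀ i, ρ (L i) = algebraMap F Ω (φ (L i)) • (1 : T))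
    (a : Fin c → P) (b : Fin n → P) (y : P)
    (hy : ρ y = ρ (∑ i, L i * g i + ∑ j, f j * a j + ∑ k, X k ^ q * b k)) :
    ∃ (v : Fin r → F) (s : ℕ) (m : Fin s → F) (z : Fin s → P), (∀ i, v i ∈ V) ∧
      (∀ l, m l ∈ V.nonunits) ∧
      ρ y = ∑ i, algebraMap F Ω (v i) • ρ (g i) + ∑ l, algebraMap F Ω (m l) • ρ (z l) := by
  classical
  have hρ : ρ y = ∑ i, ρ (L i * g i) + ∑ j, ρ (f j * a j) + ∑ k, ρ (X k ^ q * b k) := by
    rw [hy, map_add, map_add, map_sum, map_sum, map_sum]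
  have hmul : ∀ (x z : P) (m : F), ρ x = algebraMap F Ω m • (1 : T) →
      ρ (x * z) = algebraMap F Ω m • ρ z := by
    intro x z m h
    rw [map_mul, h, smul_mul_assoc, one_mul]
  have hj0 : D1_R (Ω := Ω) V ρ (ρ (f j0 * a j0)) := by
    rw [← Finset.add_sum_erase _ _ (Finset.mem_univ j0), hα, map_one, one_smul] at hrel
    have h1 : ρ (f j0 * a j0) =
        (algebraMap F Ω (∑ j, α j * φ (f j) - ∑ i, μ i * φ (X i)) • ρ (a j0) +
        ∑ i, algebraMap F Ω (μ i) • ρ (X i * a j0)) +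
        ∑ j ∈ Finset.univ.erase j0,
          algebraMap F Ω (-(α j * φ (f j))) • ρ (a j0) := by
      have h2 : ρ (f j0) =
          (algebraMap F Ω (∑ j, α j * φ (f j) - ∑ i, μ i * φ (X i)) • (1 : T) +
          ∑ i, algebraMap F Ω (μ i) • ρ (X i)) -
          ∑ j ∈ Finset.univ.erase j0, algebraMap F Ω (α j) • ρ (f j) := by
        rw [eq_sub_iff_add_eq]
        exact hrel
      have h3 : ∑ j ∈ Finset.univ.erase j0, algebraMap F Ω (α j) • ρ (f j) =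
          ∑ j ∈ Finset.univ.erase j0, algebraMap F Ω (α j * φ (f j)) • (1 : T) := by
        refine Finset.sum_congr rfl fun j hj => ?_
        rw [hne j (Finset.ne_of_mem_erase hj), smul_smul, map_mul]
      rw [map_mul, h2, h3, sub_mul, add_mul, smul_mul_assoc, one_mul, Finset.sum_mul,
        Finset.sum_mul, sub_eq_add_neg, ← Finset.sum_neg_distrib]
      congr 1
      · congr 1
        refine Finset.sum_congr rfl fun i _ => ?_
        rw [smul_mul_assoc, map_mul]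
      · refine Finset.sum_congr rfl fun j _ => ?_
        rw [smul_mul_assoc, one_mul, map_neg, neg_smul]
    rw [h1]
    refine D1_add V _ (D1_add V _ (D1_smul V _ ?_ _) (D1_sum V _ _ _ fun i _ => ?_))
      (D1_sum V _ _ _ fun j _ => ?_)
    · rw [sub_eq_add_neg]
      refine D1_nu_add (D1_nu_sum _ _ fun j _ => D1_nu_mul (hαV j) (hfnu j))
        (D1_nu_neg (D1_nu_sum _ _ fun i _ => ?_))
      rw [mul_comm]
      exact D1_nu_mul (hV _) (hμ i)
    · exact D1_smul V _ (hμ i) _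
    · exact D1_smul V _ (D1_nu_neg (D1_nu_mul (hαV j) (hfnu j))) _
  have hall : D1_R (Ω := Ω) V ρ (∑ j, ρ (f j * a j) + ∑ k, ρ (X k ^ q * b k)) := by
    refine D1_add V _ (D1_sum V _ _ _ fun j _ => ?_) (D1_sum V _ _ _ fun k _ => ?_)
    · by_cases hj : j = j0
      · rw [hj]; exact hj0
      · rw [hmul _ _ _ (hne j hj)]
        exact D1_smul V _ (hfnu j) _
    · rw [hmul _ _ _ (hρX k)]
      exact D1_smul V _ (hX k) _
  obtain ⟨s, m, z, h1, h2⟩ := hall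
  refine ⟨fun i => φ (L i), s, m, z, fun i => hV _, h1, ?_⟩
  rw [hρ, add_assoc, h2]
  congr 1
  exact Finset.sum_congr rfl fun i _ => hmul _ _ _ (hL i)

theorem D1_gen {P F Ω T : Type*} [CommRing P] [Field F] [Field Ω] [Algebra F Ω]
    [CommRing T] [Algebra Ω T] (J : Ideal T) (V : ValuationSubring F) (ρ : P →+* T ⧸ J)
    (φ : P →+* F) (hV : ∀ g, φ g ∈ V) {c n q : ℕ} (f : Fin c → P)
    (hfnu : ∀ j, φ (f j) ∈ V.nonunits) (α : Fin c → F) (j0 : Fin c) (hα : α j0 = 1)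
    (hαV : ∀ j, α j ∈ V) (μ : Fin n → F) (hμ : ∀ i, μ i ∈ V.nonunits) (X : Fin n → P)
    (hX : ∀ k, φ (X k ^ q) ∈ V.nonunits)
    (hρX : ∀ k, ρ (X k ^ q) = algebraMap F Ω (φ (X k ^ q)) • (1 : T ⧸ J))
    (hne : ∀ j, j ≠ j0 → ρ (f j) = algebraMap F Ω (φ (f j)) • (1 : T ⧸ J))
    (hrel : ∑ j, algebraMap F Ω (α j) • ρ (f j) =
      algebraMap F Ω (∑ j, α j * φ (f j) - ∑ i, μ i * φ (X i)) • (1 : T ⧸ J) +
      ∑ i, algebraMap F Ω (μ i) • ρ (X i))
    (hspan : Submodule.span Ω (Set.range ρ) = ⊤)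
    {ι : Type*} [Fintype ι] (x : ι → P)
    (hfg : ∀ r : P, ∃ v : ι → F, (∀ i, v i ∈ V) ∧ ρ r = ∑ i, algebraMap F Ω (v i) • ρ (x i))
    {r : ℕ} (g : Fin r → P)
    (hg : ∀ y : P, ∃ (L : Fin r → P) (a : Fin c → P) (b : Fin n → P),
      (∀ i, ρ (L i) = algebraMap F Ω (φ (L i)) • (1 : T ⧸ J)) ∧
      ρ y = ρ (∑ i, L i * g i + ∑ j, f j * a j + ∑ k, X k ^ q * b k)) :
    finrank Ω (T ⧸ J) ≤ r := by
  refine finrank_le_of_rel V ρ hspan x hfg g ?_
  intro y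
  obtain ⟨L, a, b, h1, h2⟩ := hg y
  exact D1_abs V ρ φ hV f hfnu α j0 hα hαV μ hμ X hX hρX hne hrel L g h1 a b y h2

end aux

variable {K : Type*} [Field K] {n p : ℕ} [Fact p.Prime] [CharP K p] [IsAlgClosed K]

theorem core (e : ℕ) (Q : Ideal (MvPowerSeries (Fin n) K)) [Q.IsPrime]
    (Ω : Type*) [Field Ω] [Algebra (FF Q) Ω]
    (V : ValuationSubring (FF Q)) (hV : ∀ g, jj Q g ∈ V)
    (hm : ∀ g : MvPowerSeries (Fin n) K, MvPowerSeries.constantCoeff g = 0 → jj Q g ∈ V.nonunits)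
    {c : ℕ} (f : Fin c → MvPowerSeries (Fin n) K)
    (hf : ∀ j, MvPowerSeries.constantCoeff (f j) = 0)
    (α : Fin c → FF Q) (j0 : Fin c) (hα : α j0 = 1) (hαV : ∀ j, α j ∈ V)
    (μ : Fin n → FF Q) (hμ : ∀ i, μ i ∈ V.nonunits)
    (G : Fin c → TT (FF Q) Ω p e)
    (hG0 : G j0 = ∑ j, algebraMap (FF Q) Ω (α j) • DD Ω p e (jj Q (f j)) -
      ∑ i, algebraMap (FF Q) Ω (μ i) • DD Ω p e (jj Q (MvPowerSeries.X i)))
    (hG : ∀ j, j ≠ j0 → G j = DD Ω p e (jj Q (f j))) :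
    finrank Ω (TT (FF Q) Ω p e ⧸ Ideal.span (Set.range G)) ≤
      finrank K (MvPowerSeries (Fin n) K ⧸
        (Q ⊔ Ideal.span (Set.range f) ⊔ psI (Fin n) K (p ^ e))) := by
  have hGJ : ∀ j, G j ∈ Ideal.span (Set.range G) := fun j => Ideal.subset_span ⟨j, rfl⟩
  obtain ⟨g, hg⟩ := exists_generators (p ^ e) Q f
  have h6 := rr_rel e Q (Ideal.span (Set.range G)) f α μ (by rw [← hG0]; exact hGJ j0)
  have hρQ : ∀ r ∈ Q, rr p e Q Ω (Ideal.span (Set.range G)) r = 0 := by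
    intro r hr
    rw [rr_apply, (jj_ker Q r).mpr hr, tmul_zero, map_zero]
  refine D1_gen (Ideal.span (Set.range G)) V (rr p e Q Ω (Ideal.span (Set.range G))) (jj Q) hV
    (q := p ^ e) f (fun j => hm _ (hf j)) α j0 hα hαV μ hμ (fun i => MvPowerSeries.X i) ?_
    (fun k => rr_pow e Q _ _) ?_ h6 (rr_span e Q _)
    (fun β : Fin n → Fin (p ^ e) => ∏ i, MvPowerSeries.X i ^ (β i : ℕ)) (rr_fg e Q _ V hV) g ?_
  · intro k
    refine hm _ ?_
    rw [map_pow, MvPowerSeries.constantCoeff_X,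
      zero_pow (pow_ne_zero _ (Fact.out : p.Prime).ne_zero)]
  · intro j hj
    refine rr_of_mem e Q _ _ ?_
    rw [← hG j hj]
    exact hGJ j
  · intro y
    obtain ⟨l, a, b, hl⟩ := hg y
    refine ⟨fun i => MvPowerSeries.C (l i), a, b, fun i => rr_C e Q _ _, ?_⟩
    have h7 := hρQ _ hl
    rwa [map_sub, sub_eq_zero] at h7

end Pool.Agent.Lib.MP_1bbd88_ag.S
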