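import Pool.Agent.Lib.MP_1bbd88_ag.S.SDefs

set_option autoImplicit false

namespace Pool.Agent.Lib.MP_1bbd88_ag.S

/-- The elements `f_1, …, f_c` of `R` are degenerate along the valuation ring `V` of `F`: for all
derivations `δ_1, …, δ_c` of `R` with values in `V` the determinant of the matrix `δ_i (f_j)` lies
in the maximal ideal of `V`. -/
def Degen (R F : Type*) [CommRing R] [Field F] [Algebra R F] (V : ValuationSubring F)
    {c : ℕ} (f : Fin c → R) : Prop :=
  ∀ δ : Fin c → Derivation ℤ R F, (∀ i a, δ i a ∈ V) →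
    (Matrix.of fun i j => δ i (f j)).det ∈ V.nonunits

end Pool.Agent.Lib.MP_1bbd88_ag.S
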