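import Pool.Agent.Lib.MP_1bbd88_ag.S.CC

set_option autoImplicit false

namespace Pool.Agent.Lib.MP_1bbd88_ag.S

open Module TensorProduct IsLocalRing

variable {k : Type*} [Field k]

/-- homomorphisms out of `W` -/
private theorem E2a_lift {A : Type*} [CommRing A] [Algebra k A] (m q : ℕ) (f : Fin m → A)
    (hf : ∀ i, f i ^ q = 0) : ∃ φ : W m q k →ₐ[k] A, ∀ i, φ (wx m q k i) = f i := by
  have h : ∀ a ∈ powI (Fin m) k q, (MvPolynomial.aeval f : MvPolynomial (Fin m) k →ₐ[k] A) a = 0 := by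
    intro a ha
    have h1 : powI (Fin m) k q ≤ RingHom.ker (MvPolynomial.aeval f : MvPolynomial (Fin m) k →ₐ[k] A) := by
      unfold powI
      rw [Ideal.span_le]
      rintro _ ⟨i, rfl⟩
      simp [RingHom.mem_ker, hf i]
    exact h1 ha
  refine ⟨Ideal.Quotient.liftₐ _ (MvPolynomial.aeval f) h, fun i => ?_⟩
  show (MvPolynomial.aeval f : MvPolynomial (Fin m) k →ₐ[k] A) (MvPolynomial.X i) = f i
  simp

/-- homomorphisms out of `W` are determined by the values at the variables -/
private theorem E2a_ext {A : Type*} [Semiring A] [Algebra k A] (m q : ℕ) {φ ψ : W m q k →ₐ[k] A}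
    (h : ∀ i, φ (wx m q k i) = ψ (wx m q k i)) : φ = ψ := by
  apply Ideal.Quotient.algHom_ext
  apply MvPolynomial.algHom_ext
  intro i
  exact h i

/-- killing the last `s` variables -/
theorem exists_kill (D s q : ℕ) (hq : q ≠ 0) : ∃ π : W (D + s) q k →ₐ[k] W D q k,
    Function.Surjective π ∧
    (∀ i, π (wx (D + s) q k (Fin.castAdd s i)) = wx D q k i) ∧
    (∀ j, π (wx (D + s) q k (Fin.natAdd D j)) = 0) ∧
    RingHom.ker π = Ideal.span (Set.range fun j => wx (D + s) q k (Fin.natAdd D j)) := by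
  have hw : ∀ (m : ℕ) (i : Fin m), wx m q k i ^ q = 0 := by
    intro m i
    rw [wx, ← map_pow, Ideal.Quotient.eq_zero_iff_mem]
    exact Ideal.subset_span ⟨i, rfl⟩
  obtain ⟨π, hπ⟩ := E2a_lift (k := k) (D + s) q
    (Fin.addCases (fun i => wx D q k i) (fun _ => (0 : W D q k))) (by
      intro i
      refine Fin.addCases (fun i => ?_) (fun j => ?_) i
      · rw [Fin.addCases_left]; exact hw D i
      · rw [Fin.addCases_right]; exact zero_pow hq)
  have h1 : ∀ i, π (wx (D + s) q k (Fin.castAdd s i)) = wx D q k i := fun i => by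
    rw [hπ, Fin.addCases_left]
  have h2 : ∀ j, π (wx (D + s) q k (Fin.natAdd D j)) = 0 := fun j => by
    rw [hπ, Fin.addCases_right]
  obtain ⟨σ, hσ⟩ := E2a_lift (k := k) D q
    (fun i => wx (D + s) q k (Fin.castAdd s i)) (fun i => hw _ _)
  have h3 : π.comp σ = AlgHom.id k _ := by
    apply E2a_ext
    intro i
    rw [AlgHom.comp_apply, hσ, h1]
    rfl
  refine ⟨π, fun a => ⟨σ a, by simpa using DFunLike.congr_fun h3 a⟩, h1, h2, le_antisymm ?_ ?_⟩
  · intro a ha
    have h4 : (Ideal.Quotient.mkₐ k (Ideal.span (Set.range fun j => wx (D + s) q k (Fin.natAdd D j)))).comp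
        (σ.comp π) = Ideal.Quotient.mkₐ k _ := by
      apply E2a_ext
      intro i
      refine Fin.addCases (fun i => ?_) (fun j => ?_) i
      · rw [AlgHom.comp_apply, AlgHom.comp_apply, h1, hσ]
      · rw [AlgHom.comp_apply, AlgHom.comp_apply, h2, map_zero, map_zero, eq_comm]
        exact Ideal.Quotient.eq_zero_iff_mem.2 (Ideal.subset_span ⟨j, rfl⟩)
    have h5 := DFunLike.congr_fun h4 a
    rw [AlgHom.comp_apply, AlgHom.comp_apply, (RingHom.mem_ker).1 ha, map_zero, map_zero, eq_comm] at h5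
    exact Ideal.Quotient.eq_zero_iff_mem.1 h5
  · rw [Ideal.span_le]
    rintro _ ⟨j, rfl⟩
    exact h2 j

end Pool.Agent.Lib.MP_1bbd88_ag.S
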