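import Pool.Agent.Lib.MP_1bbd88_ag.S.E2a

set_option autoImplicit false

namespace Pool.Agent.Lib.MP_1bbd88_ag.S

open Module TensorProduct IsLocalRing

theorem E2b_ideal {k A : Type*} [Field k] [CommRing A] [Algebra k A] {m : ℕ} (x : Fin m → A)
    (E : Matrix (Fin m) (Fin m) A) (hE : IsUnit E.det) (θ : A →ₐ[k] A)
    (hθ : ∀ i, θ (x i) = ∑ j, E i j * x j) :
    Ideal.span (Set.range x) ≤ (Ideal.span (Set.range x)).map (θ : A →+* A) := by
  rw [Ideal.span_le]
  rintro _ ⟨i, rfl⟩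
  have h2 : x i = ∑ j, E⁻¹ i j * θ (x j) := by
    have h3 : (E⁻¹ * E).mulVec x i = x i := by
      rw [Matrix.nonsing_inv_mul _ hE, Matrix.one_mulVec]
    rw [← h3, ← Matrix.mulVec_mulVec]
    simp only [Matrix.mulVec, dotProduct]
    refine Finset.sum_congr rfl fun j _ => ?_
    rw [hθ j]
  rw [SetLike.mem_coe, h2]
  refine Ideal.sum_mem _ fun j _ => Ideal.mul_mem_left _ _ ?_
  exact Ideal.mem_map_of_mem (θ : A →+* A) (Ideal.subset_span ⟨j, rfl⟩)

theorem E2b_symm {k A : Type*} [Field k] [CommRing A] [Algebra k A] (M : Ideal A)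
    (θ : A ≃ₐ[k] A) (hM : M ≤ M.map ((θ : A →ₐ[k] A) : A →+* A)) (G : A) (hG : G ∈ M ^ 2) :
    θ.symm G ∈ M ^ 2 := by
  have h5 : G ∈ (M ^ 2).map ((θ : A →ₐ[k] A) : A →+* A) := by
    rw [Ideal.map_pow]
    exact Ideal.pow_right_mono hM 2 hG
  have h6 := (Ideal.mem_map_iff_of_surjective ((θ : A →ₐ[k] A) : A →+* A) θ.surjective).mp h5
  obtain ⟨x, hx, hx2⟩ := h6
  have : θ.symm G = x := by
    rw [← hx2]
    exact θ.symm_apply_apply x
  rw [this]
  exact hx

theorem E2b_main {k A B : Type*} [Field k] [CommRing A] [Algebra k A] [CommRing B] [Algebra k B]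
    {s : ℕ} (y w : Fin s → A) (θ : A ≃ₐ[k] A) (π : A →ₐ[k] B) (hπs : Function.Surjective π)
    (hπk : RingHom.ker π = Ideal.span (Set.range y)) (hw : ∀ j, θ (y j) = w j) (G : A) :
    finrank k (B ⧸ Ideal.span {π (θ.symm G)}) =
      finrank k (A ⧸ (Ideal.span {G} ⊔ Ideal.span (Set.range w))) := by
  let φ : A →ₐ[k] B ⧸ Ideal.span {π (θ.symm G)} :=
    (Ideal.Quotient.mkₐ k _).comp (π.comp (θ.symm : A →ₐ[k] A))
  have hφ : Function.Surjective φ := by
    intro y
    obtain ⟨y, rfl⟩ := Ideal.Quotient.mk_surjective y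
    obtain ⟨z, rfl⟩ := hπs y
    refine ⟨θ z, ?_⟩
    change Ideal.Quotient.mk _ (π (θ.symm (θ z))) = _
    rw [θ.symm_apply_apply]
  have hker : RingHom.ker φ = Ideal.span {G} ⊔ Ideal.span (Set.range w) := by
    have h9 : RingHom.ker φ = ((Ideal.span {π (θ.symm G)}).comap
        (π : A →+* B)).comap (θ.symm : A ≃+* A) := by
      ext y
      rw [RingHom.mem_ker, Ideal.mem_comap, Ideal.mem_comap]
      exact Ideal.Quotient.eq_zero_iff_mem
    have h10 : Ideal.span {π (θ.symm G)} = (Ideal.span {θ.symm G}).map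
        (π : A →+* B) := by
      rw [Ideal.map_span, Set.image_singleton]
      rfl
    have h11 : (⊥ : Ideal B).comap (π : A →+* B) = Ideal.span (Set.range y) := hπk
    have h15 : (((Ideal.span {θ.symm G}).map (π : A →+* B)).comap (π : A →+* B)) =
        Ideal.span {θ.symm G} ⊔ (⊥ : Ideal B).comap (π : A →+* B) :=
      Ideal.comap_map_of_surjective (π : A →+* B) hπs _
    rw [h9, h10, h15, h11]
    have h12 : ∀ I : Ideal A, I.comap (θ.symm : A ≃+* A) = I.map (θ : A ≃+* A) := fun I =>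
      Ideal.comap_symm (θ : A ≃+* A)
    rw [h12, Ideal.map_sup, Ideal.map_span, Ideal.map_span, Set.image_singleton,
      ← Set.range_comp]
    have h13 : (θ : A ≃+* A) (θ.symm G) = G := θ.apply_symm_apply G
    have h14 : ((θ : A ≃+* A) : A → A) ∘ y = w := by
      funext j
      exact hw j
    rw [h13, h14]
  have e1 := (Ideal.quotientKerAlgEquivOfSurjective hφ).toLinearEquiv.finrank_eq
  have e2 := (Ideal.quotientEquivAlgOfEq k hker).toLinearEquiv.finrank_eq
  rw [← e1, e2]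

theorem E2b_map {k A B : Type*} [Field k] [CommRing A] [Algebra k A] [CommRing B] [Algebra k B]
    {D s : ℕ} (x : Fin (D + s) → A) (z : Fin D → B) (π : A →ₐ[k] B)
    (hπ1 : ∀ i, π (x (Fin.castAdd s i)) = z i) (hπ2 : ∀ j, π (x (Fin.natAdd D j)) = 0)
    (g : A) (hg : g ∈ Ideal.span (Set.range x) ^ 2) : π g ∈ Ideal.span (Set.range z) ^ 2 := by
  have h7 : (Ideal.span (Set.range x)).map (π : A →+* B) ≤ Ideal.span (Set.range z) := by
    rw [Ideal.map_span, Ideal.span_le]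
    rintro _ ⟨_, ⟨i, rfl⟩, rfl⟩
    refine Fin.addCases (fun i => ?_) (fun j => ?_) i
    · have := hπ1 i
      rw [SetLike.mem_coe]
      change π (x (Fin.castAdd s i)) ∈ _
      rw [this]
      exact Ideal.subset_span ⟨i, rfl⟩
    · rw [SetLike.mem_coe]
      change π (x (Fin.natAdd D j)) ∈ _
      rw [hπ2 j]
      exact zero_mem _
  have h8 := Ideal.mem_map_of_mem (π : A →+* B) hg
  rw [Ideal.map_pow] at h8
  exact Ideal.pow_right_mono h7 2 h8

variable {k : Type*} [Field k] {p : ℕ} [Fact p.Prime] [CharP k p]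

/-- killing `s` members of a coordinate system -/
theorem kill_coords (D s e : ℕ) (E : Matrix (Fin (D + s)) (Fin (D + s)) (W (D + s) (p ^ e) k))
    (hE : IsUnit E.det) (G : W (D + s) (p ^ e) k) (hG : G ∈ wm (D + s) (p ^ e) k ^ 2) :
    ∃ G' ∈ wm D (p ^ e) k ^ 2, finrank k (W D (p ^ e) k ⧸ Ideal.span {G'}) =
      finrank k (W (D + s) (p ^ e) k ⧸ (Ideal.span {G} ⊔ Ideal.span (Set.range fun j : Fin s =>
        ∑ l, E (Fin.natAdd D j) l * wx (D + s) (p ^ e) k l))) := by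
  obtain ⟨θ, hθ⟩ := coord_change (k := k) (D + s) e E hE
  obtain ⟨π, hπs, hπ1, hπ2, hπk⟩ := exists_kill (k := k) D s (p ^ e)
    (pow_ne_zero e (Fact.out (p := p.Prime)).ne_zero)
  have h1 := E2b_ideal (wx (D + s) (p ^ e) k) E hE (θ : W (D + s) (p ^ e) k →ₐ[k] _) hθ
  have h4 := E2b_symm _ θ h1 G hG
  exact ⟨π (θ.symm G), E2b_map _ _ π hπ1 hπ2 _ h4,
    E2b_main _ _ θ π hπs hπk (fun j => hθ _) G⟩

end Pool.Agent.Lib.MP_1bbd88_ag.S
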