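import Pool.Agent.Lib.MP_1bbd88_ag.S.E2b
import Pool.Agent.Lib.MP_1bbd88_ag.S.SC

set_option autoImplicit false

namespace Pool.Agent.Lib.MP_1bbd88_ag.S

open Module TensorProduct IsLocalRing

variable {k : Type*} [Field k] [Infinite k] {p : ℕ} [Fact p.Prime] [CharP k p]

/-- the matrix of the coordinate system -/
private def E2c_mat {R : Type*} [CommRing R] {D s : ℕ} (h : Fin s → Fin (D + s) → R) (c : R) :
    Matrix (Fin (D + s)) (Fin (D + s)) R :=
  fun i l => Fin.addCases (fun i' => if Fin.castAdd s i' = l then 1 else 0)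
    (fun j => h j l + if Fin.natAdd D j = l then c else 0) i

private theorem E2c_cast {R : Type*} [CommRing R] {D s : ℕ} (h : Fin s → Fin (D + s) → R) (c : R)
    (i : Fin D) (l : Fin (D + s)) :
    E2c_mat h c (Fin.castAdd s i) l = if Fin.castAdd s i = l then 1 else 0 := by
  simp [E2c_mat]

private theorem E2c_nat {R : Type*} [CommRing R] {D s : ℕ} (h : Fin s → Fin (D + s) → R) (c : R)
    (j : Fin s) (l : Fin (D + s)) :
    E2c_mat h c (Fin.natAdd D j) l = h j l + if Fin.natAdd D j = l then c else 0 := by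
  simp [E2c_mat]

private theorem E2c_map {R S : Type*} [CommRing R] [CommRing S] {D s : ℕ} (f : R →+* S)
    (h : Fin s → Fin (D + s) → R) (c : R) :
    f (E2c_mat h c).det = (E2c_mat (fun j l => f (h j l)) (f c)).det := by
  rw [RingHom.map_det]
  congr 1
  ext i l
  rw [RingHom.mapMatrix_apply, Matrix.map_apply]
  refine Fin.addCases (fun i' => ?_) (fun j => ?_) i
  · rw [E2c_cast, E2c_cast]
    split_ifs
    · exact map_one f
    · exact map_zero f
  · rw [E2c_nat, E2c_nat, map_add]
    congr 1
    split_ifs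
    · rfl
    · exact map_zero f

private theorem E2c_cong {A B : Type*} [CommRing A] [CommRing B] (f : B →+* A) (I : Ideal A)
    {D s : ℕ} (h : Fin s → Fin (D + s) → A) (h0 : Fin s → Fin (D + s) → B) (c : B)
    (hh : ∀ j l, h j l - f (h0 j l) ∈ I) :
    (E2c_mat h (f c)).det - f (E2c_mat h0 c).det ∈ I := by
  rw [← Ideal.Quotient.eq_zero_iff_mem, map_sub, sub_eq_zero, E2c_map f]
  refine (E2c_map (Ideal.Quotient.mk I) h (f c)).trans
    (Eq.trans ?_ (E2c_map (Ideal.Quotient.mk I) _ (f c)).symm)
  congr 2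
  funext j l
  have h6 := hh j l
  rwa [← Ideal.Quotient.eq_zero_iff_mem, map_sub, sub_eq_zero] at h6

/-- its determinant -/
private theorem E2c_det {R : Type*} [CommRing R] {D s : ℕ} (h : Fin s → Fin (D + s) → R) (c : R) :
    (E2c_mat h c).det =
      (Matrix.scalar (Fin s) c - Matrix.of fun j l => - h j (Fin.natAdd D l)).det := by
  rw [← Matrix.det_submatrix_equiv_self finSumFinEquiv (E2c_mat h c)]
  have h1 : (E2c_mat h c).submatrix finSumFinEquiv finSumFinEquiv =
      Matrix.fromBlocks (1 : Matrix (Fin D) (Fin D) R) 0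
        (Matrix.of fun j i => h j (Fin.castAdd s i))
        (Matrix.scalar (Fin s) c - Matrix.of fun j l => - h j (Fin.natAdd D l)) := by
    ext a b
    rcases a with a | a <;> rcases b with b | b
    · simp only [Matrix.submatrix_apply, finSumFinEquiv_apply_left, Matrix.fromBlocks_apply₁₁,
        E2c_cast, Matrix.one_apply]
      simp [Fin.ext_iff]
    · simp only [Matrix.submatrix_apply, finSumFinEquiv_apply_left, finSumFinEquiv_apply_right,
        Matrix.fromBlocks_apply₁₂, E2c_cast, Matrix.zero_apply]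
      rw [if_neg]
      intro h2
      have h3 := congrArg Fin.val h2
      simp at h3
      omega
    · simp only [Matrix.submatrix_apply, finSumFinEquiv_apply_left, finSumFinEquiv_apply_right,
        Matrix.fromBlocks_apply₂₁, E2c_nat, Matrix.of_apply]
      rw [if_neg, add_zero]
      intro h2
      have h3 := congrArg Fin.val h2
      simp at h3
      omega
    · simp only [Matrix.submatrix_apply, finSumFinEquiv_apply_right, Matrix.fromBlocks_apply₂₂,
        E2c_nat, Matrix.of_apply, Matrix.sub_apply, sub_neg_eq_add, Matrix.scalar_apply,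
        Matrix.diagonal_apply, Fin.natAdd_inj]
      rw [add_comm]
  rw [h1, Matrix.det_fromBlocks_zero₁₂, Matrix.det_one, one_mul]

/-- removing the elements `H j` -/
theorem remove_H (D s e : ℕ) (G : W (D + s) (p ^ e) k) (hG : G ∈ wm (D + s) (p ^ e) k ^ 2)
    (H : Fin s → W (D + s) (p ^ e) k) (hH : ∀ j, H j ∈ wm (D + s) (p ^ e) k) :
    ∃ G' ∈ wm D (p ^ e) k ^ 2, finrank k (W D (p ^ e) k ⧸ Ideal.span {G'}) ≤
      finrank k (W (D + s) (p ^ e) k ⧸ (Ideal.span {G} ⊔ Ideal.span (Set.range H))) := by
  have h1 : ∀ j, ∃ h : Fin (D + s) → W (D + s) (p ^ e) k,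
      ∑ l, h l * wx (D + s) (p ^ e) k l = H j := fun j =>
    Ideal.mem_span_range_iff_exists_fun.1 (hH j)
  choose h hh using h1
  have h2 : ∀ (j : Fin s) (l : Fin (D + s)), ∃ c : k,
      h j l - algebraMap k (W (D + s) (p ^ e) k) c ∈ wm (D + s) (p ^ e) k := fun j l =>
    exists_const _ _ _
  choose h0 hh0 using h2
  set M : Matrix (Fin s) (Fin s) k := Matrix.of fun j l => - h0 j (Fin.natAdd D l) with hM
  obtain ⟨c, hc1, hc2⟩ := semicont_avoid (k := k) (A := W (D + s) (p ^ e) k)
    (fun o : Option (Fin s) => o.elim (Polynomial.C G) fun j =>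
      Polynomial.C (H j) + Polynomial.X * Polynomial.C (wx (D + s) (p ^ e) k (Fin.natAdd D j)))
    M.charpoly M.charpoly_monic.ne_zero
  set cc : W (D + s) (p ^ e) k := algebraMap k _ c with hcc
  have hrange : ∀ v : W (D + s) (p ^ e) k,
      Ideal.span (Set.range fun o : Option (Fin s) => Polynomial.eval v
        (o.elim (Polynomial.C G) fun j => Polynomial.C (H j) +
          Polynomial.X * Polynomial.C (wx (D + s) (p ^ e) k (Fin.natAdd D j)))) =
      Ideal.span {G} ⊔ Ideal.span (Set.range fun j => H j +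
        v * wx (D + s) (p ^ e) k (Fin.natAdd D j)) := by
    intro v
    rw [← Ideal.span_union]
    congr 1
    ext x
    constructor
    · rintro ⟨o, rfl⟩
      rcases o with _ | j
      · left
        simp
      · right
        exact ⟨j, by simp [mul_comm]⟩
    · rintro (hx | ⟨j, rfl⟩)
      · rw [Set.mem_singleton_iff] at hx
        exact ⟨none, by simp [hx]⟩
      · exact ⟨some j, by simp [mul_comm]⟩
  rw [hrange, hrange] at hc2
  have h3 : (fun j => H j + 0 * wx (D + s) (p ^ e) k (Fin.natAdd D j)) = H := by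
    funext j
    rw [zero_mul, add_zero]
  rw [h3] at hc2
  have h4 : (fun j => H j + cc * wx (D + s) (p ^ e) k (Fin.natAdd D j)) =
      fun j : Fin s => ∑ l, E2c_mat h cc (Fin.natAdd D j) l * wx (D + s) (p ^ e) k l := by
    funext j
    simp only [E2c_nat, add_mul, Finset.sum_add_distrib, hh]
    congr 1
    simp
  rw [h4] at hc2
  have hdet : IsUnit (E2c_mat h cc).det := by
    obtain ⟨N, hN⟩ := wm_nilp (k := k) (D + s) (p ^ e)
    have h5 : (E2c_mat h cc).det - algebraMap k (W (D + s) (p ^ e) k) (E2c_mat h0 c).det ∈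
        wm (D + s) (p ^ e) k :=
      E2c_cong (algebraMap k (W (D + s) (p ^ e) k)) (wm (D + s) (p ^ e) k) h h0 c hh0
    have h7 : (E2c_mat h0 c).det ≠ 0 := by
      rw [E2c_det, ← hM, ← Matrix.eval_charpoly]
      exact hc1
    have h8 : IsUnit (algebraMap k (W (D + s) (p ^ e) k) (E2c_mat h0 c).det) :=
      (isUnit_iff_ne_zero.2 h7).map _
    have h9 : IsNilpotent ((E2c_mat h cc).det -
        algebraMap k (W (D + s) (p ^ e) k) (E2c_mat h0 c).det) := by
      refine ⟨N, ?_⟩
      have := Ideal.pow_mem_pow h5 N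
      rw [hN] at this
      exact (Ideal.mem_bot).1 this
    have h10 := h9.isUnit_add_left_of_commute h8 (Commute.all _ _)
    rwa [add_sub_cancel] at h10
  obtain ⟨G', hG', h11⟩ := kill_coords D s e (E2c_mat h cc) hdet G hG
  exact ⟨G', hG', h11.le.trans hc2⟩

end Pool.Agent.Lib.MP_1bbd88_ag.S
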