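import Pool.Agent.Lib.MP_1bbd88_ag.S.U0

set_option autoImplicit false

namespace Pool.Agent.Lib.MP_1bbd88_ag.S

open Module TensorProduct IsLocalRing

variable {k : Type*} [Field k] {p : ℕ} [Fact p.Prime] [CharP k p]

private theorem E3a_coeffs {k : Type*} [Field k] (m q : ℕ) (G : W m q k) (hG : G ∈ wm m q k ^ 2) :
    ∃ a : Fin m → Fin m → W m q k,
      G = ∑ i, ∑ j, a i j * (wx m q k i * wx m q k j) := by
  rw [pow_two] at hG
  refine Submodule.mul_induction_on hG ?_ ?_
  · intro r hr s hs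
    obtain ⟨b, rfl⟩ := Ideal.mem_span_range_iff_exists_fun.1 hr
    obtain ⟨c, rfl⟩ := Ideal.mem_span_range_iff_exists_fun.1 hs
    refine ⟨fun i j => b i * c j, ?_⟩
    rw [Finset.sum_mul_sum]
    exact Finset.sum_congr rfl fun i _ => Finset.sum_congr rfl fun j _ => by ring
  · rintro x y ⟨a, ha⟩ ⟨b, hb⟩
    refine ⟨fun i j => a i j + b i j, ?_⟩
    rw [ha, hb, ← Finset.sum_add_distrib]
    refine Finset.sum_congr rfl fun i _ => ?_
    rw [← Finset.sum_add_distrib]
    exact Finset.sum_congr rfl fun j _ => by ring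

/-- elements of `wm ^ 2` are quadratic forms in the variables -/
theorem exists_symm (hp : p ≠ 2) (m q : ℕ) (G : W m q k) (hG : G ∈ wm m q k ^ 2) :
    ∃ h : Matrix (Fin m) (Fin m) (W m q k), h.IsSymm ∧
      G = ∑ i, ∑ j, h i j * (wx m q k i * wx m q k j) := by
  have h2 : (2 : k) ≠ 0 := by
    intro h
    have h3 : ((2 : ℕ) : k) = 0 := by exact_mod_cast h
    rw [CharP.cast_eq_zero_iff k p] at h3
    exact hp ((Nat.prime_dvd_prime_iff_eq Fact.out Nat.prime_two).1 h3)
  obtain ⟨a, ha⟩ := E3a_coeffs m q G hG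
  set c : W m q k := algebraMap k (W m q k) 2⁻¹ with hc
  have hc2 : c * 2 = 1 := by
    have h3 : (2 : W m q k) = algebraMap k (W m q k) 2 := by rw [map_ofNat]
    rw [hc, h3, ← map_mul, inv_mul_cancel₀ h2, map_one]
  refine ⟨Matrix.of fun i j => c * (a i j + a j i), ?_, ?_⟩
  · ext i j
    simp only [Matrix.transpose_apply, Matrix.of_apply]
    rw [add_comm]
  · have h4 : ∑ i, ∑ j, a j i * (wx m q k i * wx m q k j) = G := by
      rw [Finset.sum_comm, ha]
      exact Finset.sum_congr rfl fun i _ => Finset.sum_congr rfl fun j _ => by ring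
    have h5 : ∑ i, ∑ j, Matrix.of (fun i j => c * (a i j + a j i)) i j *
        (wx m q k i * wx m q k j) =
        c * (∑ i, ∑ j, a i j * (wx m q k i * wx m q k j) +
          ∑ i, ∑ j, a j i * (wx m q k i * wx m q k j)) := by
      rw [← Finset.sum_add_distrib, Finset.mul_sum]
      refine Finset.sum_congr rfl fun i _ => ?_
      rw [← Finset.sum_add_distrib, Finset.mul_sum]
      refine Finset.sum_congr rfl fun j _ => ?_
      rw [Matrix.of_apply]
      ring
    rw [h5, h4, ← ha]
    calc G = (c * 2) * G := by rw [hc2, one_mul]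
      _ = c * (G + G) := by ring

end Pool.Agent.Lib.MP_1bbd88_ag.S
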