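import Pool.Agent.Lib.MP_1bbd88_ag.S.SDefs

set_option autoImplicit false

namespace Pool.Agent.Lib.MP_1bbd88_ag.S

open Module TensorProduct IsLocalRing

/-- powers of a matrix with entries in `I` -/
private theorem E3b_pow {m : ℕ} {R : Type*} [CommRing R] (I : Ideal R)
    (Z : Matrix (Fin m) (Fin m) R) (hZ : ∀ i j, Z i j ∈ I) :
    ∀ (N : ℕ) (i j : Fin m), (Z ^ N) i j ∈ I ^ N := by
  intro N
  induction N with
  | zero => intro i j; simp
  | succ N ih =>
    intro i j
    rw [show Z ^ (N + 1) = Z ^ N * Z from pow_succ Z N, Matrix.mul_apply, pow_succ]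
    exact Ideal.sum_mem _ fun l _ => Ideal.mul_mem_mul (ih i l) (hZ l j)

private theorem E3b_comm {m : ℕ} {R : Type*} [CommRing R] (H0 A : Matrix (Fin m) (Fin m) R)
    (h : A.transpose * H0 = H0 * A) : ∀ n : ℕ, (A ^ n).transpose * H0 = H0 * A ^ n := by
  intro n
  induction n with
  | zero => simp
  | succ n ih =>
    calc (A ^ (n + 1)).transpose * H0 = A.transpose * ((A ^ n).transpose * H0) := by
          rw [pow_succ, Matrix.transpose_mul, Matrix.mul_assoc]
      _ = A.transpose * H0 * A ^ n := by rw [ih, Matrix.mul_assoc]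
      _ = H0 * A ^ (n + 1) := by rw [h, Matrix.mul_assoc, ← pow_succ']

/-- square roots of unipotent matrices -/
theorem exists_sqrt {m : ℕ} {R : Type*} [CommRing R] {p : ℕ} [Fact p.Prime] [CharP R p]
    (hp : p ≠ 2) (I : Ideal R) (hI : ∃ N, I ^ N = ⊥) (H0 Z : Matrix (Fin m) (Fin m) R)
    (hH0 : H0.IsSymm) (hZ : ∀ i j, Z i j ∈ I) (hs : (H0 * Z).IsSymm) :
    ∃ C : Matrix (Fin m) (Fin m) R, IsUnit C.det ∧ C.transpose * H0 * C = H0 * (1 + Z) := by
  obtain ⟨N, hN⟩ := hI
  rcases Nat.eq_zero_or_pos m with hm | hm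
  · subst hm
    refine ⟨1, by simp, ?_⟩
    ext i
    exact i.elim0
  · have : Nonempty (Fin m) := ⟨⟨0, hm⟩⟩
    have hprime : p.Prime := Fact.out
    have h1 : Z ^ p ^ N = 0 := by
      have h2 : Z ^ N = 0 := by
        ext i j
        have h3 := E3b_pow I Z hZ N i j
        rw [hN] at h3
        rw [Matrix.zero_apply]
        exact Ideal.mem_bot.1 h3
      have h3 : N ≤ p ^ N := (Nat.lt_pow_self hprime.one_lt).le
      rw [← Nat.sub_add_cancel h3, pow_add, h2, mul_zero]
    have h2 : (1 + Z) ^ p ^ N = 1 := by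
      rw [add_pow_char_pow_of_commute p N (Commute.one_left Z), one_pow, h1, add_zero]
    have hodd : Odd (p ^ N) := (hprime.odd_of_ne_two hp).pow
    obtain ⟨a, ha⟩ := hodd
    have h3 : (1 + Z) ^ (a + 1) * (1 + Z) ^ (a + 1) = 1 + Z := by
      rw [← pow_add, show a + 1 + (a + 1) = p ^ N + 1 by omega, pow_succ, h2, one_mul]
    have h4 : (1 + Z).transpose * H0 = H0 * (1 + Z) := by
      have h5 : Z.transpose * H0 = H0 * Z := by
        have h6 : (H0 * Z).transpose = H0 * Z := hs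
        rw [Matrix.transpose_mul, show H0.transpose = H0 from hH0] at h6
        exact h6
      rw [Matrix.transpose_add, Matrix.transpose_one, add_mul, mul_add, h5, one_mul, mul_one]
    refine ⟨(1 + Z) ^ (a + 1), ?_, ?_⟩
    · have h5 : (((1 + Z) ^ (a + 1)).det) ^ (2 * p ^ N) = 1 := by
        rw [pow_mul, pow_two, ← Matrix.det_mul, h3, ← Matrix.det_pow, h2, Matrix.det_one]
      exact IsUnit.of_pow_eq_one h5 (mul_ne_zero two_ne_zero (pow_ne_zero N hprime.ne_zero))
    · rw [E3b_comm H0 (1 + Z) h4 (a + 1), Matrix.mul_assoc, h3]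

end Pool.Agent.Lib.MP_1bbd88_ag.S
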