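import Pool.Agent.Lib.MP_1bbd88_ag.S.SDefs
import Mathlib.LinearAlgebra.QuadraticForm.Basic
import Mathlib.LinearAlgebra.Matrix.BilinearForm
import Mathlib.FieldTheory.IsAlgClosed.Basic

set_option autoImplicit false

namespace Pool.Agent.Lib.MP_1bbd88_ag.S

open Module TensorProduct IsLocalRing

/-- a non degenerate symmetric matrix over an algebraically closed field is `Bᵀ B` -/
theorem exists_transpose_mul {m : ℕ} {k : Type*} [Field k] [IsAlgClosed k]
    (h2 : (2 : k) ≠ 0) (H0 : Matrix (Fin m) (Fin m) k) (hs : H0.IsSymm) (hd : IsUnit H0.det) :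
    ∃ B : Matrix (Fin m) (Fin m) k, IsUnit B.det ∧ H0 = B.transpose * B := by
  let _ : Invertible (2 : k) := invertibleOfNonzero h2
  have hB : LinearMap.IsSymm (Matrix.toBilin' H0) := by
    refine ⟨fun x y => ?_⟩
    rw [RingHom.id_apply, Matrix.toBilin'_apply, Matrix.toBilin'_apply, Finset.sum_comm]
    refine Finset.sum_congr rfl fun i _ => Finset.sum_congr rfl fun j _ => ?_
    rw [hs.apply i j]
    ring
  obtain ⟨v, hv⟩ := LinearMap.BilinForm.exists_orthogonal_basis hB
  have hfin : finrank k (Fin m → k) = m := by simp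
  set w : Basis (Fin m) k (Fin m → k) := v.reindex (finCongr hfin) with hw
  have hww : ∀ i j, i ≠ j → Matrix.toBilin' H0 (w i) (w j) = 0 := by
    intro i j hij
    rw [hw, Basis.reindex_apply, Basis.reindex_apply]
    exact hv (fun h => hij ((finCongr hfin).symm.injective h))
  set P : Matrix (Fin m) (Fin m) k := Matrix.of fun i j => w j i with hP
  have hPu : IsUnit P.det := by
    have h3 : P = (Pi.basisFun k (Fin m)).toMatrix w := by
      ext i j
      simp [hP, Basis.toMatrix_apply]
    rw [h3]
    exact Matrix.isUnit_det_of_right_inverse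
      (Module.Basis.toMatrix_mul_toMatrix_flip (Pi.basisFun k (Fin m)) w)
  have hD : P.transpose * H0 * P = Matrix.diagonal fun i => Matrix.toBilin' H0 (w i) (w i) := by
    ext i j
    have h4 : (P.transpose * H0 * P) i j = Matrix.toBilin' H0 (w i) (w j) := by
      rw [Matrix.toBilin'_apply, Matrix.mul_apply, Finset.sum_comm]
      refine Finset.sum_congr rfl fun b _ => ?_
      rw [Matrix.mul_apply, Finset.sum_mul]
      refine Finset.sum_congr rfl fun a _ => ?_
      simp [hP]
    rw [h4, Matrix.diagonal_apply]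
    split_ifs with h
    · rw [h]
    · exact hww i j h
  choose s hs2 using fun i => IsAlgClosed.exists_eq_mul_self (Matrix.toBilin' H0 (w i) (w i))
  have hD2 : P.transpose * H0 * P = (Matrix.diagonal s).transpose * Matrix.diagonal s := by
    rw [hD, Matrix.diagonal_transpose, Matrix.diagonal_mul_diagonal]
    congr 1
    funext i
    exact hs2 i
  have hPP : P * P⁻¹ = 1 := Matrix.mul_nonsing_inv P hPu
  have hH : H0 = (Matrix.diagonal s * P⁻¹).transpose * (Matrix.diagonal s * P⁻¹) := by
    calc H0 = (P * P⁻¹).transpose * H0 * (P * P⁻¹) := by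
          rw [hPP, Matrix.transpose_one, one_mul, mul_one]
      _ = (P⁻¹).transpose * (P.transpose * H0 * P) * P⁻¹ := by
          rw [Matrix.transpose_mul]
          simp only [Matrix.mul_assoc]
      _ = (Matrix.diagonal s * P⁻¹).transpose * (Matrix.diagonal s * P⁻¹) := by
          rw [hD2, Matrix.transpose_mul]
          simp only [Matrix.mul_assoc]
  refine ⟨Matrix.diagonal s * P⁻¹, ?_, hH⟩
  have h5 := congrArg Matrix.det hH
  rw [Matrix.det_mul, Matrix.det_transpose] at h5
  rw [h5] at hd
  exact isUnit_of_mul_isUnit_left hd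

end Pool.Agent.Lib.MP_1bbd88_ag.S
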