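import Pool.Agent.Lib.MP_1bbd88_ag.S.CC
import Pool.Agent.Lib.MP_1bbd88_ag.S.E3b
import Pool.Agent.Lib.MP_1bbd88_ag.S.E3c

set_option autoImplicit false

namespace Pool.Agent.Lib.MP_1bbd88_ag.S

open Module TensorProduct IsLocalRing

variable {k : Type*} [Field k] [IsAlgClosed k] {p : ℕ} [Fact p.Prime] [CharP k p]

theorem E3d_sum {m : ℕ} {R : Type*} [CommRing R] (E H : Matrix (Fin m) (Fin m) R)
    (x : Fin m → R) (h : E.transpose * E = H) :
    ∑ i, (∑ j, E i j * x j) ^ 2 = ∑ i, ∑ j, H i j * (x i * x j) := by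
  have h1 : ∀ i, (∑ j, E i j * x j) ^ 2 = ∑ a, ∑ b, E i a * E i b * (x a * x b) := by
    intro i
    rw [pow_two, Finset.sum_mul_sum]
    refine Finset.sum_congr rfl fun a _ => Finset.sum_congr rfl fun b _ => ?_
    ring
  rw [Finset.sum_congr rfl fun i _ => h1 i, Finset.sum_comm]
  refine Finset.sum_congr rfl fun a _ => ?_
  rw [Finset.sum_comm]
  refine Finset.sum_congr rfl fun b _ => ?_
  rw [← Finset.sum_mul, ← h, Matrix.mul_apply]
  rfl

/-- Morse lemma: a quadratic form which is non degenerate at the origin is a sum of squares of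
coordinates -/
theorem morse (hp : p ≠ 2) (m e : ℕ) (H0 : Matrix (Fin m) (Fin m) k) (hs : H0.IsSymm)
    (hd : IsUnit H0.det) (H1 : Matrix (Fin m) (Fin m) (W m (p ^ e) k)) (hs1 : H1.IsSymm)
    (h1 : ∀ i j, H1 i j ∈ wm m (p ^ e) k) :
    ∃ θ : W m (p ^ e) k ≃ₐ[k] W m (p ^ e) k, θ (∑ i, wx m (p ^ e) k i ^ 2) =
      ∑ i, ∑ j, (algebraMap k (W m (p ^ e) k) (H0 i j) + H1 i j) *
        (wx m (p ^ e) k i * wx m (p ^ e) k j) := by
  have h2 : (2 : k) ≠ 0 := by
    intro h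
    have h3 : ((2 : ℕ) : k) = 0 := by exact_mod_cast h
    rw [CharP.cast_eq_zero_iff k p] at h3
    rcases (Nat.dvd_prime Nat.prime_two).1 h3 with h4 | h4
    · exact (Fact.out : p.Prime).one_lt.ne' h4
    · exact hp h4
  obtain ⟨B, hB, hH0⟩ := exists_transpose_mul h2 H0 hs hd
  obtain ⟨A0, hA0⟩ : ∃ A0, A0 = H0.map (algebraMap k (W m (p ^ e) k)) := ⟨_, rfl⟩
  obtain ⟨B0, hB0⟩ : ∃ B0, B0 = B.map (algebraMap k (W m (p ^ e) k)) := ⟨_, rfl⟩
  have hAs : A0.IsSymm := by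
    rw [hA0, Matrix.IsSymm, ← Matrix.transpose_map, hs]
  have hAd : IsUnit A0.det := by
    rw [hA0]
    have h3 := hd.map (algebraMap k (W m (p ^ e) k))
    rwa [RingHom.map_det] at h3
  have hBd : IsUnit B0.det := by
    rw [hB0]
    have h3 := hB.map (algebraMap k (W m (p ^ e) k))
    rwa [RingHom.map_det] at h3
  have hAB : A0 = B0.transpose * B0 := by
    rw [hA0, hB0, hH0, Matrix.map_mul, Matrix.transpose_map]
  have hAZ : A0 * (A0⁻¹ * H1) = H1 := Matrix.mul_nonsing_inv_cancel_left A0 H1 hAd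
  have hZ : ∀ i j, (A0⁻¹ * H1) i j ∈ wm m (p ^ e) k := by
    intro i j
    rw [Matrix.mul_apply]
    exact Ideal.sum_mem _ fun l _ => Ideal.mul_mem_left _ _ (h1 l j)
  obtain ⟨C, hC, hCH⟩ := exists_sqrt hp (wm m (p ^ e) k) (wm_nilp m (p ^ e)) A0 (A0⁻¹ * H1) hAs hZ
    (by rw [hAZ]; exact hs1)
  have hE : IsUnit (B0 * C).det := by
    rw [Matrix.det_mul]
    exact hBd.mul hC
  have hEE : (B0 * C).transpose * (B0 * C) = A0 + H1 := by
    rw [Matrix.transpose_mul]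
    calc C.transpose * B0.transpose * (B0 * C) = C.transpose * (B0.transpose * B0) * C := by
          simp only [Matrix.mul_assoc]
      _ = A0 * (1 + A0⁻¹ * H1) := by rw [← hAB, hCH]
      _ = A0 + H1 := by rw [Matrix.mul_add, Matrix.mul_one, hAZ]
  obtain ⟨θ, hθ⟩ := coord_change m e (B0 * C) hE
  refine ⟨θ, ?_⟩
  rw [map_sum]
  have h5 : ∀ i, θ (wx m (p ^ e) k i ^ 2) = (∑ j, (B0 * C) i j * wx m (p ^ e) k j) ^ 2 := by
    intro i
    rw [map_pow, hθ i]
  rw [Finset.sum_congr rfl fun i _ => h5 i, E3d_sum (B0 * C) (A0 + H1) _ hEE]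
  refine Finset.sum_congr rfl fun i _ => Finset.sum_congr rfl fun j _ => ?_
  rw [Matrix.add_apply, hA0, Matrix.map_apply]

end Pool.Agent.Lib.MP_1bbd88_ag.S
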