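import Pool.Agent.Lib.MP_1bbd88_ag.S.E3a
import Pool.Agent.Lib.MP_1bbd88_ag.S.E3d
import Pool.Agent.Lib.MP_1bbd88_ag.S.SC

set_option autoImplicit false

namespace Pool.Agent.Lib.MP_1bbd88_ag.S

open Module TensorProduct IsLocalRing

variable {k : Type*} [Field k] [IsAlgClosed k] {p : ℕ} [Fact p.Prime] [CharP k p]

omit [IsAlgClosed k] [Fact p.Prime] [CharP k p] in
theorem E3e_sum (m q : ℕ) (h : Matrix (Fin m) (Fin m) (W m q k)) (h0 : Matrix (Fin m) (Fin m) k)
    (c : k) :
    ∑ i, ∑ j, (algebraMap k (W m q k) ((Matrix.scalar (Fin m) c - -h0) i j) +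
        (h i j - algebraMap k (W m q k) (h0 i j))) * (wx m q k i * wx m q k j) =
      (∑ i, ∑ j, h i j * (wx m q k i * wx m q k j)) +
        algebraMap k (W m q k) c * ∑ i, wx m q k i ^ 2 := by
  have h1 : ∀ i j, (algebraMap k (W m q k) ((Matrix.scalar (Fin m) c - -h0) i j) +
        (h i j - algebraMap k (W m q k) (h0 i j))) * (wx m q k i * wx m q k j) =
      h i j * (wx m q k i * wx m q k j) +
        (if i = j then algebraMap k (W m q k) c * (wx m q k i * wx m q k j) else 0) := by
    intro i j
    have h2 : (Matrix.scalar (Fin m) c - -h0) i j = (if i = j then c else 0) + h0 i j := by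
      rw [Matrix.sub_apply, Matrix.neg_apply, sub_neg_eq_add, Matrix.scalar_apply,
        Matrix.diagonal_apply]
    rw [h2, map_add]
    split_ifs with hij
    · ring
    · rw [map_zero]; ring
  simp only [h1]
  simp only [Finset.sum_add_distrib, Finset.sum_ite_eq, Finset.mem_univ, if_true]
  rw [Finset.mul_sum]
  congr 1
  exact Finset.sum_congr rfl fun i _ => by rw [sq]

/-- the quadric has the smallest colength -/
theorem Nq_le_of_sq (hp : p ≠ 2) (m e : ℕ) (G : W m (p ^ e) k) (hG : G ∈ wm m (p ^ e) k ^ 2) :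
    Nq k m (p ^ e) ≤ finrank k (W m (p ^ e) k ⧸ Ideal.span {G}) := by
  have hinf : Infinite k := IsAlgClosed.instInfinite
  obtain ⟨h, hsym, hGh⟩ := exists_symm (k := k) hp m (p ^ e) G hG
  choose cst hcst using fun a => exists_const (k := k) m (p ^ e) a
  let h0 : Matrix (Fin m) (Fin m) k := fun i j => cst (h i j)
  let g : Unit → Polynomial (W m (p ^ e) k) := fun _ =>
    Polynomial.C G + Polynomial.X * Polynomial.C (∑ i, wx m (p ^ e) k i ^ 2)
  obtain ⟨c, hc, hle⟩ := semicont_avoid (k := k) g (-h0).charpoly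
    (Matrix.charpoly_monic (-h0)).ne_zero
  rw [Matrix.eval_charpoly] at hc
  have e1 : Ideal.span (Set.range fun i : Unit => (g i).eval
      (algebraMap k (W m (p ^ e) k) c)) =
      Ideal.span {G + algebraMap k (W m (p ^ e) k) c * ∑ i, wx m (p ^ e) k i ^ 2} := by
    rw [Set.range_unique]
    congr 2
    simp only [g, Polynomial.eval_add, Polynomial.eval_C, Polynomial.eval_mul, Polynomial.eval_X]
  have e2 : Ideal.span (Set.range fun i : Unit => (g i).eval 0) = Ideal.span {G} := by
    rw [Set.range_unique]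
    congr 2
    simp only [g, Polynomial.eval_add, Polynomial.eval_C, Polynomial.eval_mul, Polynomial.eval_X,
      zero_mul, add_zero]
  rw [e1, e2] at hle
  refine le_trans (le_of_eq ?_) hle
  have hh0 : h0.IsSymm := by
    ext i j
    change cst (h j i) = cst (h i j)
    rw [hsym.apply]
  obtain ⟨θ, hθ⟩ := morse (k := k) hp m e (Matrix.scalar (Fin m) c - -h0)
    (by
      ext i j
      rw [Matrix.transpose_apply, Matrix.sub_apply, Matrix.sub_apply, Matrix.neg_apply,
        Matrix.neg_apply, hh0.apply, Matrix.scalar_apply, Matrix.diagonal_apply,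
        Matrix.diagonal_apply]
      by_cases hij : i = j
      · rw [if_pos hij, if_pos hij.symm]
      · rw [if_neg hij, if_neg (Ne.symm hij)])
    (isUnit_iff_ne_zero.2 hc)
    (fun i j => h i j - algebraMap k (W m (p ^ e) k) (h0 i j))
    (by
      ext i j
      change h j i - algebraMap k (W m (p ^ e) k) (h0 j i) =
        h i j - algebraMap k (W m (p ^ e) k) (h0 i j)
      rw [hsym.apply, hh0.apply])
    (fun i j => hcst (h i j))
  rw [E3e_sum, ← hGh] at hθ
  rw [Nq, ← hθ]
  refine LinearEquiv.finrank_eq (Ideal.quotientEquivAlg _ _ θ ?_).toLinearEquiv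
  rw [Ideal.map_span, Set.image_singleton]
  rfl

end Pool.Agent.Lib.MP_1bbd88_ag.S
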