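import Pool.Agent.Lib.MP_1bbd88_ag.S.E2c
import Pool.Agent.Lib.MP_1bbd88_ag.S.E3e

set_option autoImplicit false

namespace Pool.Agent.Lib.MP_1bbd88_ag.S

open Module TensorProduct IsLocalRing

variable {k : Type*} [Field k] [IsAlgClosed k] {p : ℕ} [Fact p.Prime] [CharP k p]

theorem lemmaE (hp : p ≠ 2) (D s e : ℕ) (G : W (D + s) (p ^ e) k)
    (hG : G ∈ wm (D + s) (p ^ e) k ^ 2)
    (H : Fin s → W (D + s) (p ^ e) k) (hH : ∀ j, H j ∈ wm (D + s) (p ^ e) k) :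
    Nq k D (p ^ e) ≤
      finrank k (W (D + s) (p ^ e) k ⧸ (Ideal.span {G} ⊔ Ideal.span (Set.range H))) := by
  obtain ⟨G', hG', h⟩ := remove_H D s e G hG H hH
  exact (Nq_le_of_sq hp D e G' hG').trans h

end Pool.Agent.Lib.MP_1bbd88_ag.S
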