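import Pool.Agent.Lib.MP_1bbd88_ag.S.SDefs

set_option autoImplicit false

namespace Pool.Agent.Lib.MP_1bbd88_ag.S

open Module TensorProduct IsLocalRing

variable {K : Type*} [Field K] {n p : ℕ} [Fact p.Prime] [CharP K p] [IsAlgClosed K]

omit [Fact p.Prime] [CharP K p] [IsAlgClosed K] in
theorem M1_mono (q : ℕ) (β : Fin n → Fin q) :
    ∏ i, (MvPowerSeries.X i : MvPowerSeries (Fin n) K) ^ (β i : ℕ) =
      MvPowerSeries.monomial (Finsupp.equivFunOnFinite.symm fun i => (β i : ℕ)) (1 : K) := by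
  rw [MvPowerSeries.monomial_eq', map_one, one_mul, Finsupp.prod_fintype]
  · rfl
  · intro i
    rw [pow_zero]

omit [IsAlgClosed K] in
theorem M1_coeff (e : ℕ) (b : (Fin n → Fin (p ^ e)) → MvPowerSeries (Fin n) K)
    (m : Fin n →₀ ℕ) (β : Fin n → Fin (p ^ e)) :
    MvPowerSeries.coeff (p ^ e • m + Finsupp.equivFunOnFinite.symm fun i => (β i : ℕ))
      (∑ γ, b γ ^ p ^ e * ∏ i, (MvPowerSeries.X i : MvPowerSeries (Fin n) K) ^ (γ i : ℕ)) =
      (MvPowerSeries.coeff m (b β)) ^ p ^ e := by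
  classical
  have hp0 : p ≠ 0 := (Fact.out : p.Prime).ne_zero
  have hq : p ^ e ≠ 0 := pow_ne_zero e hp0
  rw [map_sum]
  simp only [M1_mono, MvPowerSeries.coeff_mul_monomial, mul_one]
  rw [Finset.sum_eq_single β]
  · rw [if_pos le_add_self, add_tsub_cancel_right,
      ← MvPowerSeries.map_iterateFrobenius_expand p hp0 (b β) e, MvPowerSeries.coeff_map,
      MvPowerSeries.coeff_expand_smul, iterateFrobenius_def]
  · intro γ _ hne
    split_ifs with hle
    · rw [← MvPowerSeries.map_iterateFrobenius_expand p hp0 (b γ) e, MvPowerSeries.coeff_map]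
      obtain ⟨i, hi⟩ : ∃ i, γ i ≠ β i := Function.ne_iff.1 hne
      have h1 := hle i
      simp only [Finsupp.equivFunOnFinite_symm_apply_apply, Finsupp.coe_add, Pi.add_apply,
        Finsupp.coe_smul, Pi.smul_apply, smul_eq_mul] at h1
      rw [MvPowerSeries.coeff_expand_of_not_dvd (i := i), map_zero]
      simp only [Finsupp.coe_tsub, Finsupp.equivFunOnFinite_symm_apply_apply, Finsupp.coe_add,
        Pi.add_apply, Pi.sub_apply, Finsupp.coe_smul, Pi.smul_apply, smul_eq_mul]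
      intro hdvd
      apply hi
      have h2 : (p ^ e * m i + (β i : ℕ)) ≡ (γ i : ℕ) [MOD p ^ e] :=
        ((Nat.modEq_iff_dvd' h1).2 hdvd).symm
      have h3 : (β i : ℕ) ≡ (γ i : ℕ) [MOD p ^ e] := by
        have h4 : (p ^ e * m i + (β i : ℕ)) ≡ (β i : ℕ) [MOD p ^ e] := by
          simp [Nat.ModEq]
        exact h4.symm.trans h2
      have h5 := Nat.ModEq.eq_of_lt_of_lt h3 (β i).2 (γ i).2
      exact (Fin.ext h5).symm
    · rfl
  · intro h
    exact absurd (Finset.mem_univ _) h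

omit [Fact p.Prime] in
theorem M1_split {q : ℕ} (hq : 0 < q) (m : Fin n →₀ ℕ) :
    m = q • (Finsupp.equivFunOnFinite.symm fun i => m i / q) +
      Finsupp.equivFunOnFinite.symm fun i => (((⟨m i % q, Nat.mod_lt _ hq⟩ : Fin q) : ℕ)) := by
  ext i
  simp only [Finsupp.coe_add, Pi.add_apply, Finsupp.coe_smul, Pi.smul_apply, smul_eq_mul,
    Finsupp.equivFunOnFinite_symm_apply_apply]
  exact (Nat.div_add_mod (m i) q).symm

/-- every power series is a combination of the monomials with exponents `< q` with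
coefficients which are `q`-th powers -/
theorem expand (e : ℕ) (g : MvPowerSeries (Fin n) K) :
    ∃ b : (Fin n → Fin (p ^ e)) → MvPowerSeries (Fin n) K,
      g = ∑ β, b β ^ p ^ e * ∏ i, (MvPowerSeries.X i : MvPowerSeries (Fin n) K) ^ (β i : ℕ) := by
  have hq : 0 < p ^ e := pow_pos (Fact.out : p.Prime).pos e
  have hr : ∀ x : K, ∃ z : K, z ^ p ^ e = x := fun x => IsAlgClosed.exists_pow_nat_eq x hq
  choose r hr using hr
  let b : (Fin n → Fin (p ^ e)) → MvPowerSeries (Fin n) K := fun β m =>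
    r (MvPowerSeries.coeff (p ^ e • m + Finsupp.equivFunOnFinite.symm fun i => (β i : ℕ)) g)
  have hb : ∀ β m, MvPowerSeries.coeff m (b β) =
      r (MvPowerSeries.coeff (p ^ e • m + Finsupp.equivFunOnFinite.symm fun i => (β i : ℕ)) g) :=
    fun β m => rfl
  refine ⟨b, ?_⟩
  ext m
  rw [M1_split hq m]
  rw [M1_coeff e b (Finsupp.equivFunOnFinite.symm fun i => m i / p ^ e)
    (fun i => ⟨m i % p ^ e, Nat.mod_lt _ hq⟩), hb, hr]

theorem expand_unique (e : ℕ) (b c : (Fin n → Fin (p ^ e)) → MvPowerSeries (Fin n) K)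
    (h : ∑ β, b β ^ p ^ e * ∏ i, (MvPowerSeries.X i : MvPowerSeries (Fin n) K) ^ (β i : ℕ) =
      ∑ β, c β ^ p ^ e * ∏ i, (MvPowerSeries.X i : MvPowerSeries (Fin n) K) ^ (β i : ℕ)) :
    b = c := by
  funext β
  ext m
  have h1 := congrArg (MvPowerSeries.coeff
    (p ^ e • m + Finsupp.equivFunOnFinite.symm fun i => (β i : ℕ))) h
  rw [M1_coeff, M1_coeff, ← iterateFrobenius_def, ← iterateFrobenius_def] at h1
  exact (iterateFrobenius K p e).injective h1

end Pool.Agent.Lib.MP_1bbd88_ag.S
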