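import Pool.Agent.Lib.MP_1bbd88_ag.S.M1

set_option autoImplicit false

namespace Pool.Agent.Lib.MP_1bbd88_ag.S

open Module TensorProduct IsLocalRing

variable {K : Type*} [Field K] {n p : ℕ} [Fact p.Prime] [CharP K p] [IsAlgClosed K]

theorem expand_mem (e : ℕ) (Q : Ideal (MvPowerSeries (Fin n) K))
    (b : (Fin n → Fin (p ^ e)) → MvPowerSeries (Fin n) K)
    (h : ∑ β, b β ^ p ^ e * ∏ i, (MvPowerSeries.X i : MvPowerSeries (Fin n) K) ^ (β i : ℕ) ∈
      bracket Q (p ^ e)) (β : Fin n → Fin (p ^ e)) : b β ∈ Q := by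
  have hch : CharP (MvPowerSeries (Fin n) K) p :=
    charP_of_injective_algebraMap (MvPowerSeries.C_injective (σ := Fin n) (R := K)) p
  obtain ⟨m, c, g, hm⟩ := (Submodule.mem_span_set' ).1 h
  have hg : ∀ k, ∃ f ∈ Q, f ^ p ^ e = (g k : MvPowerSeries (Fin n) K) := fun k => (g k).2
  choose f hfQ hf using hg
  choose a ha using fun k => expand (p := p) e (c k)
  have h1 : b = fun β => ∑ k, f k * a k β := by
    apply expand_unique e
    rw [← hm]
    simp only [sum_pow_char_pow, Finset.sum_mul]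
    rw [Finset.sum_comm]
    refine Finset.sum_congr rfl fun k _ => ?_
    rw [← hf k, smul_eq_mul]
    conv_lhs => rw [ha k]
    rw [Finset.sum_mul]
    refine Finset.sum_congr rfl fun β _ => ?_
    rw [mul_pow]
    ring
  rw [h1]
  exact Q.sum_mem fun k _ => Q.mul_mem_right _ (hfQ k)

end Pool.Agent.Lib.MP_1bbd88_ag.S
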