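import Pool.Agent.Lib.MP_1bbd88_ag.S.U0
import Mathlib.LinearAlgebra.TensorProduct.RightExactness
import Mathlib.RingTheory.TensorProduct.MvPolynomial

set_option autoImplicit false

namespace Pool.Agent.Lib.MP_1bbd88_ag.S

open Module TensorProduct IsLocalRing

theorem N1_sup (k : Type*) [Field k] (D q : ℕ) :
    finrank k (MvPolynomial (Fin D) k ⧸
      (powI (Fin D) k q ⊔ Ideal.span {∑ i, (MvPolynomial.X i : MvPolynomial (Fin D) k) ^ 2})) =
      Nq k D q := by
  have h1 := (DoubleQuot.quotQuotEquivQuotSupₐ k (powI (Fin D) k q)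
    (Ideal.span {∑ i, (MvPolynomial.X i : MvPolynomial (Fin D) k) ^ 2})).toLinearEquiv.finrank_eq
  rw [← h1, Nq]
  have h2 : (Ideal.span {∑ i, (MvPolynomial.X i : MvPolynomial (Fin D) k) ^ 2}).map
      (Ideal.Quotient.mkₐ k (powI (Fin D) k q)) = Ideal.span {∑ i, wx D q k i ^ 2} := by
    rw [Ideal.map_span, Set.image_singleton, map_sum]
    simp only [map_pow]
    rfl
  rw [h2]

theorem N1_base (k Ω σ : Type*) [Field k] [Field Ω] [Algebra k Ω] (I : Ideal (MvPolynomial σ k)) :
    finrank Ω (MvPolynomial σ Ω ⧸ I.map (MvPolynomial.map (algebraMap k Ω))) =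
      finrank k (MvPolynomial σ k ⧸ I) := by
  let t : Ω ⊗[k] MvPolynomial σ k →ₐ[Ω] Ω ⊗[k] (MvPolynomial σ k ⧸ I) :=
    Algebra.TensorProduct.map (AlgHom.id Ω Ω) (Ideal.Quotient.mkₐ k I)
  have hk : RingHom.ker (Ideal.Quotient.mkₐ k I) = I := by
    ext x
    exact Ideal.Quotient.eq_zero_iff_mem
  have ht : RingHom.ker t = I.map
      (Algebra.TensorProduct.includeRight : MvPolynomial σ k →ₐ[k] Ω ⊗[k] MvPolynomial σ k) := by
    have h := Algebra.TensorProduct.lTensor_ker (R := k) (A := Ω) (Ideal.Quotient.mkₐ k I)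
      (Ideal.Quotient.mkₐ_surjective k I)
    rw [hk] at h
    rw [← h]
    rfl
  let e := MvPolynomial.algebraTensorAlgEquiv (σ := σ) k Ω
  let u : MvPolynomial σ Ω →ₐ[Ω] Ω ⊗[k] (MvPolynomial σ k ⧸ I) := t.comp e.symm.toAlgHom
  have htsur : Function.Surjective t := by
    intro y
    induction y using TensorProduct.induction_on with
    | zero => exact ⟨0, map_zero _⟩
    | tmul a b =>
      obtain ⟨b, rfl⟩ := Ideal.Quotient.mk_surjective b
      exact ⟨a ⊗ₜ b, rfl⟩
    | add x y hx hy =>
      obtain ⟨a, rfl⟩ := hx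
      obtain ⟨b, rfl⟩ := hy
      exact ⟨a + b, map_add _ _ _⟩
  have husur : Function.Surjective u := htsur.comp e.symm.surjective
  have huker : RingHom.ker u = I.map (MvPolynomial.map (algebraMap k Ω)) := by
    apply le_antisymm
    · intro f hf
      have h1 : e.symm f ∈ RingHom.ker t := hf
      rw [ht] at h1
      have h2 := Ideal.mem_map_of_mem e.toAlgHom.toRingHom h1
      rw [show e.toAlgHom.toRingHom (e.symm f) = f from e.apply_symm_apply f] at h2
      refine Ideal.map_le_of_le_comap ?_ h2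
      rw [Ideal.map_le_iff_le_comap]
      intro g hg
      rw [Ideal.mem_comap, Ideal.mem_comap]
      have h3 : e.toAlgHom.toRingHom ((Algebra.TensorProduct.includeRight :
          MvPolynomial σ k →ₐ[k] Ω ⊗[k] MvPolynomial σ k) g) =
            MvPolynomial.map (algebraMap k Ω) g := by
        change e ((1 : Ω) ⊗ₜ g) = _
        rw [MvPolynomial.algebraTensorAlgEquiv_tmul, one_smul]
      rw [h3]
      exact Ideal.mem_map_of_mem _ hg
    · rw [Ideal.map_le_iff_le_comap]
      intro g hg
      rw [Ideal.mem_comap, RingHom.mem_ker]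
      change t (e.symm (MvPolynomial.map (algebraMap k Ω) g)) = 0
      rw [MvPolynomial.algebraTensorAlgEquiv_symm_map]
      change (1 : Ω) ⊗ₜ[k] (Ideal.Quotient.mk I g) = 0
      rw [Ideal.Quotient.eq_zero_iff_mem.mpr hg, TensorProduct.tmul_zero]
  have h3 := (Ideal.quotientKerAlgEquivOfSurjective husur).toLinearEquiv.finrank_eq
  have h4 := (Ideal.quotientEquivAlgOfEq Ω huker).toLinearEquiv.finrank_eq
  rw [← h4, h3]
  exact Module.finrank_baseChange

/-- the colength of the quadric does not depend on the field -/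
theorem Nq_ext (k Ω : Type*) [Field k] [Field Ω] [Algebra k Ω] (D q : ℕ) :
    Nq Ω D q = Nq k D q := by
  have h : (powI (Fin D) k q ⊔
      Ideal.span {∑ i, (MvPolynomial.X i : MvPolynomial (Fin D) k) ^ 2}).map
        (MvPolynomial.map (algebraMap k Ω)) = powI (Fin D) Ω q ⊔
      Ideal.span {∑ i, (MvPolynomial.X i : MvPolynomial (Fin D) Ω) ^ 2} := by
    rw [Ideal.map_sup, powI, powI, Ideal.map_span, Ideal.map_span, Set.image_singleton,
      ← Set.range_comp]
    congr 3
    · funext i
      simp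
    · simp
  rw [← N1_sup, ← N1_sup, ← N1_base k Ω, h]

end Pool.Agent.Lib.MP_1bbd88_ag.S
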