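import Pool.Agent.Lib.MP_1bbd88_ag.S.U0

set_option autoImplicit false

namespace Pool.Agent.Lib.MP_1bbd88_ag.S

open Module TensorProduct IsLocalRing

private theorem N2_mem_powI {K : Type*} [Field K] {D q : ℕ} (f : MvPolynomial (Fin D) K) :
    ((f : MvPowerSeries (Fin D) K) ∈ psI (Fin D) K q) ↔ f ∈ powI (Fin D) K q := by
  constructor
  · intro h
    rw [mem_psI_iff] at h
    rw [f.as_sum]
    refine Ideal.sum_mem _ fun v hv => ?_
    have hv' : MvPolynomial.coeff v f ≠ 0 := MvPolynomial.mem_support_iff.1 hv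
    have h0 : ∃ i, q ≤ v i := by
      by_contra hc
      push Not at hc
      exact hv' (by rw [← MvPolynomial.coeff_coe]; exact h v hc)
    obtain ⟨i, hi⟩ := h0
    have h1 : MvPolynomial.monomial v (MvPolynomial.coeff v f) =
        MvPolynomial.monomial (v - Finsupp.single i q) (MvPolynomial.coeff v f) *
          (MvPolynomial.X i : MvPolynomial (Fin D) K) ^ q := by
      rw [MvPolynomial.X_pow_eq_monomial, MvPolynomial.monomial_mul, mul_one,
        tsub_add_cancel_of_le (by simpa using hi)]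
    rw [h1]
    exact Ideal.mul_mem_left _ _ (Ideal.subset_span ⟨i, rfl⟩)
  · intro h
    have h2 : powI (Fin D) K q ≤
        (psI (Fin D) K q).comap MvPolynomial.coeToMvPowerSeries.ringHom := by
      rw [powI, Ideal.span_le]
      rintro _ ⟨i, rfl⟩
      change (((MvPolynomial.X i : MvPolynomial (Fin D) K) ^ q : MvPolynomial (Fin D) K) :
        MvPowerSeries (Fin D) K) ∈ psI (Fin D) K q
      rw [MvPolynomial.coe_pow, MvPolynomial.coe_X]
      exact Ideal.subset_span ⟨i, rfl⟩
    exact h2 h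

private theorem N2_trunc {K : Type*} [Field K] {D q : ℕ} (h : MvPowerSeries (Fin D) K) :
    ∃ h' : MvPolynomial (Fin D) K, h - (h' : MvPowerSeries (Fin D) K) ∈ psI (Fin D) K q := by
  classical
  let u : (Fin D → Fin q) → (Fin D →₀ ℕ) :=
    fun v => Finsupp.equivFunOnFinite.symm fun i => (v i : ℕ)
  refine ⟨∑ v : Fin D → Fin q, MvPolynomial.monomial (u v) (MvPowerSeries.coeff (u v) h), ?_⟩
  rw [mem_psI_iff]
  intro α hα
  have hu : u (fun i => ⟨α i, hα i⟩) = α := by ext i; rfl
  rw [map_sub, MvPolynomial.coeff_coe, MvPolynomial.coeff_sum,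
    Finset.sum_eq_single (fun i => ⟨α i, hα i⟩)]
  · rw [MvPolynomial.coeff_monomial, hu, if_pos rfl, sub_self]
  · intro v _ hv
    rw [MvPolynomial.coeff_monomial, if_neg]
    intro h1
    apply hv
    funext i
    apply Fin.ext
    change (v i : ℕ) = α i
    rw [← h1]
    rfl
  · intro h1
    exact absurd (Finset.mem_univ _) h1

/-- polynomials and power series -/
theorem finrank_quadric (K : Type*) [Field K] (D q : ℕ) :
    finrank K (MvPowerSeries (Fin D) K ⧸
      (Ideal.span {∑ i : Fin D, (MvPowerSeries.X i : MvPowerSeries (Fin D) K) ^ 2} ⊔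
        psI (Fin D) K q)) = Nq K D q := by
  classical
  set I := Ideal.span {∑ i : Fin D, (MvPowerSeries.X i : MvPowerSeries (Fin D) K) ^ 2} ⊔
        psI (Fin D) K q with hI
  set s : MvPolynomial (Fin D) K := ∑ i : Fin D, MvPolynomial.X i ^ 2 with hs
  have hcs : (s : MvPowerSeries (Fin D) K) =
      ∑ i : Fin D, (MvPowerSeries.X i : MvPowerSeries (Fin D) K) ^ 2 := by
    rw [← MvPolynomial.coeToMvPowerSeries.ringHom_apply, hs, map_sum]
    refine Finset.sum_congr rfl fun i _ => ?_
    rw [map_pow, MvPolynomial.coeToMvPowerSeries.ringHom_apply, MvPolynomial.coe_X]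
  have hws : Ideal.Quotient.mk (powI (Fin D) K q) s = ∑ i, wx D q K i ^ 2 := by
    rw [hs, map_sum]
    refine Finset.sum_congr rfl fun i _ => ?_
    rw [map_pow]
    rfl
  let φ : MvPolynomial (Fin D) K →ₗ[K] (MvPowerSeries (Fin D) K ⧸ I) :=
    (Ideal.Quotient.mkₐ K I).toLinearMap ∘ₗ
      (MvPolynomial.coeToMvPowerSeries.algHom K).toLinearMap
  have hφ : ∀ f : MvPolynomial (Fin D) K,
      φ f = Ideal.Quotient.mk I (f : MvPowerSeries (Fin D) K) := by
    intro f
    change Ideal.Quotient.mk I (MvPolynomial.coeToMvPowerSeries.algHom K f) = _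
    rw [MvPolynomial.coeToMvPowerSeries.algHom_apply, Algebra.algebraMap_self,
      MvPowerSeries.map_id, RingHom.id_apply]
  let a : MvPolynomial (Fin D) K →ₗ[K] (W D q K ⧸ Ideal.span {∑ i, wx D q K i ^ 2}) :=
    (Ideal.Quotient.mkₐ K (Ideal.span {∑ i, wx D q K i ^ 2})).toLinearMap ∘ₗ
      (Ideal.Quotient.mkₐ K (powI (Fin D) K q)).toLinearMap
  have ha : ∀ f : MvPolynomial (Fin D) K,
      a f = Ideal.Quotient.mk (Ideal.span {∑ i, wx D q K i ^ 2})
        (Ideal.Quotient.mk (powI (Fin D) K q) f) := fun f => rfl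
  have hφs : Function.Surjective φ := by
    intro b
    obtain ⟨b, rfl⟩ := Ideal.Quotient.mk_surjective b
    obtain ⟨b', hb'⟩ := N2_trunc (q := q) b
    refine ⟨b', ?_⟩
    rw [hφ]
    symm
    exact Ideal.Quotient.eq.2 (Ideal.mem_sup_right hb')
  have has : Function.Surjective a := by
    intro b
    obtain ⟨b, rfl⟩ := Ideal.Quotient.mk_surjective b
    obtain ⟨b, rfl⟩ := Ideal.Quotient.mk_surjective b
    exact ⟨b, ha b⟩
  have hker : LinearMap.ker φ = LinearMap.ker a := by
    ext f
    rw [LinearMap.mem_ker, LinearMap.mem_ker, hφ, ha, Ideal.Quotient.eq_zero_iff_mem,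
      Ideal.Quotient.eq_zero_iff_mem]
    constructor
    · intro hf
      rw [hI] at hf
      obtain ⟨c, b, hb, hcb⟩ := Ideal.mem_span_singleton_sup.1 hf
      obtain ⟨c', hc'⟩ := N2_trunc (q := q) c
      have h1 : f - c' * s ∈ powI (Fin D) K q := by
        rw [← N2_mem_powI, ← MvPolynomial.coeToMvPowerSeries.ringHom_apply, map_sub, map_mul,
          MvPolynomial.coeToMvPowerSeries.ringHom_apply,
          MvPolynomial.coeToMvPowerSeries.ringHom_apply,
          MvPolynomial.coeToMvPowerSeries.ringHom_apply, hcs, ← hcb]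
        have h2 : c * ∑ i : Fin D, (MvPowerSeries.X i : MvPowerSeries (Fin D) K) ^ 2 + b -
            (c' : MvPowerSeries (Fin D) K) *
              ∑ i : Fin D, (MvPowerSeries.X i : MvPowerSeries (Fin D) K) ^ 2 =
            (c - (c' : MvPowerSeries (Fin D) K)) *
              ∑ i : Fin D, (MvPowerSeries.X i : MvPowerSeries (Fin D) K) ^ 2 + b := by ring
        rw [h2]
        exact Ideal.add_mem _ (Ideal.mul_mem_right _ _ hc') hb
      refine Ideal.mem_span_singleton'.2 ⟨Ideal.Quotient.mk (powI (Fin D) K q) c', ?_⟩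
      rw [← hws, ← map_mul]
      symm
      exact Ideal.Quotient.eq.2 h1
    · intro hf
      obtain ⟨c, hc⟩ := Ideal.mem_span_singleton'.1 hf
      obtain ⟨c, rfl⟩ := Ideal.Quotient.mk_surjective c
      rw [← hws, ← map_mul] at hc
      have h1 : f - c * s ∈ powI (Fin D) K q := Ideal.Quotient.eq.1 hc.symm
      rw [← N2_mem_powI, ← MvPolynomial.coeToMvPowerSeries.ringHom_apply, map_sub, map_mul,
          MvPolynomial.coeToMvPowerSeries.ringHom_apply,
          MvPolynomial.coeToMvPowerSeries.ringHom_apply,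
          MvPolynomial.coeToMvPowerSeries.ringHom_apply, hcs] at h1
      rw [hI]
      refine Ideal.mem_span_singleton_sup.2 ⟨(c : MvPowerSeries (Fin D) K), _, h1, ?_⟩
      ring
  calc finrank K (MvPowerSeries (Fin D) K ⧸ I)
      = finrank K (MvPolynomial (Fin D) K ⧸ LinearMap.ker φ) :=
        (φ.quotKerEquivOfSurjective hφs).finrank_eq.symm
    _ = finrank K (MvPolynomial (Fin D) K ⧸ LinearMap.ker a) := by rw [hker]
    _ = Nq K D q := (a.quotKerEquivOfSurjective has).finrank_eq

end Pool.Agent.Lib.MP_1bbd88_ag.S
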