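import Pool.Agent.Lib.MP_1bbd88_ag.S.SDefs

set_option autoImplicit false

namespace Pool.Agent.Lib.MP_1bbd88_ag.S

open Module TensorProduct IsLocalRing

/-- a prime of maximal dimension over `I` -/
theorem exists_prime {K : Type*} [Field K] {n : ℕ} (I : Ideal (MvPowerSeries (Fin n) K)) (D : ℕ)
    (hD : ringKrullDim (MvPowerSeries (Fin n) K ⧸ I) = D) :
    ∃ Q : Ideal (MvPowerSeries (Fin n) K), Q.IsPrime ∧ I ≤ Q ∧
      ringKrullDim (MvPowerSeries (Fin n) K ⧸ Q) = D := by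
  rw [ringKrullDim_quotient] at hD
  obtain ⟨l, hl⟩ := Order.le_krullDim_iff.1 hD.ge
  have hmem : I ≤ l.head.1.asIdeal := (PrimeSpectrum.mem_zeroLocus _ _).1 l.head.2
  refine ⟨l.head.1.asIdeal, l.head.1.2, hmem, ?_⟩
  rw [ringKrullDim_quotient]
  apply le_antisymm
  · rw [← hD]
    refine Order.krullDim_le_of_strictMono
      (fun x : PrimeSpectrum.zeroLocus (l.head.1.asIdeal : Set (MvPowerSeries (Fin n) K)) =>
        (⟨x.1, (PrimeSpectrum.mem_zeroLocus _ _).2
          (hmem.trans ((PrimeSpectrum.mem_zeroLocus _ _).1 x.2))⟩ :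
          PrimeSpectrum.zeroLocus (I : Set (MvPowerSeries (Fin n) K)))) ?_
    intro x y hxy
    exact hxy
  · refine Order.le_krullDim_iff.2 ⟨⟨l.length, fun i => ⟨(l.toFun i).1, ?_⟩, ?_⟩, hl⟩
    · rw [PrimeSpectrum.mem_zeroLocus]
      have h1 : l.head ≤ l.toFun i := l.head_le i
      exact h1
    · intro i
      exact l.step i

end Pool.Agent.Lib.MP_1bbd88_ag.S
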