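import Pool.Agent.Lib.MP_1bbd88_ag.S.SDefs

set_option autoImplicit false

namespace Pool.Agent.Lib.MP_1bbd88_ag.S

open Module TensorProduct IsLocalRing

/-- a valuation ring dominating `P / Q` -/
theorem exists_dominating {K : Type*} [Field K] {n : ℕ} (Q : Ideal (MvPowerSeries (Fin n) K))
    [Q.IsPrime] : ∃ V : ValuationSubring (FF Q), (∀ g, jj Q g ∈ V) ∧
      ∀ g : MvPowerSeries (Fin n) K, MvPowerSeries.constantCoeff g = 0 → jj Q g ∈ V.nonunits := by
  obtain ⟨V, h, hl⟩ := IsLocalRing.exists_factor_valuationRing (jj Q)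
  refine ⟨V, h, fun g hg => ?_⟩
  have h1 : (⟨jj Q g, h g⟩ : V) ∈ maximalIdeal V := by
    rw [mem_maximalIdeal, mem_nonunits_iff]
    intro hu
    have h2 : IsUnit ((jj Q).codRestrict V.toSubring h g) := hu
    have h3 : IsUnit g := hl.map_nonunit g h2
    rw [MvPowerSeries.isUnit_iff_constantCoeff, hg] at h3
    exact not_isUnit_zero h3
  exact ValuationSubring.coe_mem_nonunits_iff.2 h1

end Pool.Agent.Lib.MP_1bbd88_ag.S
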