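import Pool.Agent.Lib.MP_1bbd88_ag.S.Dg

set_option autoImplicit false

namespace Pool.Agent.Lib.MP_1bbd88_ag.S

open Module TensorProduct IsLocalRing

private theorem R3_cc {K : Type*} [Field K] {n : ℕ} {g : MvPowerSeries (Fin n) K}
    (hg : g ∈ maximalIdeal (MvPowerSeries (Fin n) K)) : MvPowerSeries.constantCoeff g = 0 := by
  rw [mem_maximalIdeal, mem_nonunits_iff, MvPowerSeries.isUnit_iff_constantCoeff] at hg
  by_contra h
  exact hg (isUnit_iff_ne_zero.2 h)

private theorem R3_mul {F : Type*} [Field F] (V : ValuationSubring F) {a b : F}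
    (ha : V.valuation a < 1) (hb : b ∈ V) : V.valuation (a * b) < 1 := by
  rw [map_mul]
  have hb' := (V.valuation_le_one_iff b).2 hb
  calc V.valuation a * V.valuation b ≤ V.valuation a * 1 := mul_le_mul_right hb' _
    _ = V.valuation a := mul_one _
    _ < 1 := ha

private theorem R3_det {F : Type*} [Field F] (V : ValuationSubring F) {c : ℕ}
    (M : Matrix (Fin c) (Fin c) F) (hM : ∀ i j, M i j ∈ V) (j : Fin c)
    (hj : ∀ i, V.valuation (M i j) < 1) : V.valuation M.det < 1 := by
  rw [Matrix.det_apply]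
  refine Valuation.map_sum_lt _ one_ne_zero fun σ _ => ?_
  have h1 : V.valuation (∏ i, M (σ i) i) < 1 := by
    rw [← Finset.mul_prod_erase Finset.univ (fun i => M (σ i) i) (Finset.mem_univ j)]
    exact R3_mul V (hj _) (V.toSubring.prod_mem fun i _ => hM _ _)
  rcases Int.units_eq_one_or (Equiv.Perm.sign σ) with h | h
  · rw [h, one_smul]
    exact h1
  · rw [h, Units.neg_smul, one_smul, Valuation.map_neg]
    exact h1

private theorem R3_leib {R F : Type*} [CommRing R] [Field F] [Algebra R F] (δ : Derivation ℤ R F)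
    (a b : R) : δ (a * b) = algebraMap R F a * δ b + algebraMap R F b * δ a := by
  rw [Derivation.leibniz, Algebra.smul_def, Algebra.smul_def]

private theorem R3_add {R F : Type*} [CommRing R] [Field F] [Algebra R F] (δ : Derivation ℤ R F)
    (a b : R) : δ (a + b) = δ a + δ b := map_add δ a b

/-- an element of `m ^ 2` makes the family degenerate along every valuation ring -/
theorem degenerate_of_sq {K : Type*} [Field K] {n : ℕ} (Q : Ideal (MvPowerSeries (Fin n) K))
    [Q.IsPrime] (V : ValuationSubring (FF Q)) (hV : ∀ g, jj Q g ∈ V)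
    (hm : ∀ g : MvPowerSeries (Fin n) K, MvPowerSeries.constantCoeff g = 0 → jj Q g ∈ V.nonunits)
    {c : ℕ} (f : Fin c → MvPowerSeries (Fin n) K) (j : Fin c)
    (hj : f j ∈ maximalIdeal (MvPowerSeries (Fin n) K) ^ 2 ⊔ Q) :
    Degen (MvPowerSeries (Fin n) K ⧸ Q) (FF Q) V fun j => Ideal.Quotient.mk Q (f j) := by
  intro δ hδ
  rw [ValuationSubring.mem_nonunits_iff]
  apply R3_det V _ (fun i l => hδ i _) j
  intro i
  change V.valuation (δ i (Ideal.Quotient.mk Q (f j))) < 1
  obtain ⟨g, hg, h, hh, hgh⟩ := Submodule.mem_sup.1 hj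
  have h1 : Ideal.Quotient.mk Q (f j) = Ideal.Quotient.mk Q g := by
    rw [← hgh, map_add, Ideal.Quotient.eq_zero_iff_mem.2 hh, add_zero]
  rw [h1]
  rw [pow_two] at hg
  refine Submodule.mul_induction_on hg (fun a ha b hb => ?_) (fun a b ha hb => ?_)
  · rw [map_mul, R3_leib]
    have ha' : V.valuation (algebraMap (MvPowerSeries (Fin n) K ⧸ Q) (FF Q)
        (Ideal.Quotient.mk Q a)) < 1 :=
      (ValuationSubring.mem_nonunits_iff V).1 (hm a (R3_cc ha))
    have hb' : V.valuation (algebraMap (MvPowerSeries (Fin n) K ⧸ Q) (FF Q)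
        (Ideal.Quotient.mk Q b)) < 1 :=
      (ValuationSubring.mem_nonunits_iff V).1 (hm b (R3_cc hb))
    exact Valuation.map_add_lt _ (R3_mul V ha' (hδ i _)) (R3_mul V hb' (hδ i _))
  · rw [map_add, R3_add]
    exact Valuation.map_add_lt _ ha hb

end Pool.Agent.Lib.MP_1bbd88_ag.S
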