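import Pool.Agent.Lib.MP_1bbd88_ag.Len
import Pool.Agent.Lib.MP_1bbd88_ag.Semicont
import Mathlib.RingTheory.Kaehler.Basic
import Mathlib.RingTheory.Valuation.LocalSubring

/-! Definitions for the theorem on sections (rings `R/(f_1, …, f_c)`). -/

set_option autoImplicit false

namespace Pool.Agent.Lib.MP_1bbd88_ag.S

open Module TensorProduct IsLocalRing

/-- The truncated polynomial ring `k[x_1, …, x_m]/(x_i^q)`. -/
abbrev W (m q : ℕ) (k : Type*) [Field k] : Type _ := MvPolynomial (Fin m) k ⧸ powI (Fin m) k q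

/-- The variables of `W m q k`. -/
noncomputable def wx (m q : ℕ) (k : Type*) [Field k] (i : Fin m) : W m q k :=
  Ideal.Quotient.mk _ (MvPolynomial.X i)

/-- The ideal of the variables of `W m q k`. -/
noncomputable def wm (m q : ℕ) (k : Type*) [Field k] : Ideal (W m q k) :=
  Ideal.span (Set.range (wx m q k))

/-- The colength of the quadric `∑ x_i ^ 2` in `W D q k`. -/
noncomputable def Nq (k : Type*) [Field k] (D q : ℕ) : ℕ :=
  finrank k (W D q k ⧸ Ideal.span {∑ i, wx D q k i ^ 2})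

/-- The subfield `F ^ (p ^ e)` of a field `F` of characteristic `p`. -/
def kq (F : Type*) [Field F] (p : ℕ) [Fact p.Prime] [CharP F p] (e : ℕ) : Subfield F :=
  (iterateFrobenius F p e).fieldRange

/-- `Ω ⊗ F` over `F ^ (p ^ e)`. -/
abbrev TT (F Ω : Type*) [Field F] [Field Ω] [Algebra F Ω] (p : ℕ) [Fact p.Prime] [CharP F p]
    (e : ℕ) : Type _ := Ω ⊗[kq F p e] F

/-- The element `1 ⊗ r - r ⊗ 1`. -/
noncomputable def DD {F : Type*} (Ω : Type*) [Field F] [Field Ω] [Algebra F Ω] (p : ℕ)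
    [Fact p.Prime] [CharP F p] (e : ℕ) (r : F) : TT F Ω p e :=
  (1 : Ω) ⊗ₜ[kq F p e] r - (algebraMap F Ω r) ⊗ₜ[kq F p e] (1 : F)

/-- The ideal generated by all `1 ⊗ r - r ⊗ 1`. -/
noncomputable def dd (F Ω : Type*) [Field F] [Field Ω] [Algebra F Ω] (p : ℕ)
    [Fact p.Prime] [CharP F p] (e : ℕ) : Ideal (TT F Ω p e) :=
  Ideal.span (Set.range (DD Ω p e : F → TT F Ω p e))

section PQ

variable {K : Type*} [Field K] {n : ℕ}

/-- The fraction field of `P ⧸ Q`. -/
abbrev FF (Q : Ideal (MvPowerSeries (Fin n) K)) [Q.IsPrime] : Type _ :=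
  FractionRing (MvPowerSeries (Fin n) K ⧸ Q)

/-- The ring homomorphism `P → Frac (P ⧸ Q)`. -/
noncomputable def jj (Q : Ideal (MvPowerSeries (Fin n) K)) [Q.IsPrime] :
    MvPowerSeries (Fin n) K →+* FF Q :=
  (algebraMap (MvPowerSeries (Fin n) K ⧸ Q) (FF Q)).comp (Ideal.Quotient.mk Q)

/-- The bracket power `Q^[q]` extended to the local ring `P_Q`. -/
noncomputable def QO (Q : Ideal (MvPowerSeries (Fin n) K)) [Q.IsPrime] (q : ℕ) :
    Ideal (Localization.AtPrime Q) :=
  (bracket Q q).map (algebraMap (MvPowerSeries (Fin n) K) (Localization.AtPrime Q))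

theorem jj_ker (Q : Ideal (MvPowerSeries (Fin n) K)) [Q.IsPrime] (g : MvPowerSeries (Fin n) K) :
    jj Q g = 0 ↔ g ∈ Q := by
  rw [jj, RingHom.comp_apply, FaithfulSMul.algebraMap_eq_zero_iff,
    Ideal.Quotient.eq_zero_iff_mem]

instance charP_FF (p : ℕ) [Fact p.Prime] [CharP K p] (Q : Ideal (MvPowerSeries (Fin n) K))
    [Q.IsPrime] : CharP (FF Q) p :=
  charP_of_injective_ringHom
    ((jj Q).comp (MvPowerSeries.C : K →+* MvPowerSeries (Fin n) K)).injective p

end PQ

end Pool.Agent.Lib.MP_1bbd88_ag.S
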