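import Pool.Agent.Lib.MP_1bbd88_ag.S.SDefs

set_option autoImplicit false

namespace Pool.Agent.Lib.MP_1bbd88_ag.S

open Module TensorProduct IsLocalRing

variable {k : Type*} [Field k]

instance finite_W (m q : ℕ) : FiniteDimensional k (W m q k) :=
  finite_quot (q := q) _ fun i => Ideal.subset_span ⟨i, rfl⟩

theorem U0_wx_pow (m q : ℕ) (i : Fin m) : wx m q k i ^ q = 0 := by
  rw [wx, ← map_pow]
  exact Ideal.Quotient.eq_zero_iff_mem.mpr (Ideal.subset_span ⟨i, rfl⟩)

/-- the ideal of the variables is nilpotent -/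
theorem wm_nilp (m q : ℕ) : ∃ N : ℕ, wm m q k ^ N = ⊥ := by
  have hfg : (wm m q k).FG := ⟨(Set.finite_range (wx m q k)).toFinset, by rw [Set.Finite.coe_toFinset]; rfl⟩
  have hn : IsNilpotent (wm m q k) := by
    rw [hfg.isNilpotent_iff_le_nilradical]
    rw [wm, Ideal.span_le]
    rintro _ ⟨i, rfl⟩
    exact ⟨q, U0_wx_pow m q i⟩
  obtain ⟨N, hN⟩ := hn
  exact ⟨N, by rw [hN]; rfl⟩

/-- constant terms -/
theorem exists_const (m q : ℕ) (a : W m q k) :
    ∃ c : k, a - algebraMap k (W m q k) c ∈ wm m q k := by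
  obtain ⟨f, rfl⟩ := Ideal.Quotient.mk_surjective a
  induction f using MvPolynomial.induction_on with
  | C c =>
    refine ⟨c, ?_⟩
    have : (Ideal.Quotient.mk (powI (Fin m) k q)) (MvPolynomial.C c) = algebraMap k (W m q k) c := rfl
    rw [this, sub_self]
    exact Submodule.zero_mem _
  | add f g hf hg =>
    obtain ⟨c, hc⟩ := hf
    obtain ⟨d, hd⟩ := hg
    refine ⟨c + d, ?_⟩
    rw [map_add, map_add]
    have := Submodule.add_mem _ hc hd
    convert this using 1
    ring
  | mul_X f i hf =>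
    refine ⟨0, ?_⟩
    rw [map_zero, sub_zero, map_mul]
    exact Ideal.mul_mem_left _ _ (Ideal.subset_span ⟨i, rfl⟩)

theorem U0_nontrivial {p : ℕ} [Fact p.Prime] (m e : ℕ) : Nontrivial (W m (p ^ e) k) := by
  have hpe : p ^ e ≠ 0 := pow_ne_zero _ (Fact.out (p := p.Prime)).ne_zero
  have hle : powI (Fin m) k (p ^ e) ≤ RingHom.ker (MvPolynomial.constantCoeff (σ := Fin m) (R := k)) := by
    rw [powI, Ideal.span_le]
    rintro _ ⟨i, rfl⟩
    show MvPolynomial.constantCoeff (MvPolynomial.X i ^ p ^ e) = 0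
    rw [map_pow, MvPolynomial.constantCoeff_X, zero_pow hpe]
  refine Ideal.Quotient.nontrivial_iff.mpr fun h => ?_
  rw [h] at hle
  have := hle (Submodule.mem_top (x := (1 : MvPolynomial (Fin m) k)))
  rw [RingHom.mem_ker, map_one] at this
  exact one_ne_zero this

instance charP_W {p : ℕ} [Fact p.Prime] [CharP k p] (m e : ℕ) : CharP (W m (p ^ e) k) p := by
  haveI : Nontrivial (W m (p ^ e) k) := U0_nontrivial m e
  exact charP_of_injective_algebraMap (algebraMap k (W m (p ^ e) k)).injective p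

/-- elements of the maximal ideal have vanishing `q`-th power -/
theorem pow_eq_zero_of_mem {p : ℕ} [Fact p.Prime] [CharP k p] (m e : ℕ) {a : W m (p ^ e) k}
    (ha : a ∈ wm m (p ^ e) k) : a ^ p ^ e = 0 := by
  have hpe : p ^ e ≠ 0 := pow_ne_zero _ (Fact.out (p := p.Prime)).ne_zero
  haveI : CharP (W m (p ^ e) k) p := charP_W m e
  rw [wm] at ha
  induction ha using Submodule.span_induction with
  | mem x hx =>
    obtain ⟨i, rfl⟩ := hx
    exact U0_wx_pow m _ i
  | zero => exact zero_pow hpe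
  | add x y _ _ hx hy => rw [add_pow_char_pow, hx, hy, add_zero]
  | smul r x _ hx => rw [smul_eq_mul, mul_pow, hx, mul_zero]

end Pool.Agent.Lib.MP_1bbd88_ag.S
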