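import Pool.Agent.Lib.MP_1bbd88_ag.S.SDefs

set_option autoImplicit false

namespace Pool.Agent.Lib.MP_1bbd88_ag.S

open Module TensorProduct IsLocalRing

theorem X1_emb {c s : ℕ} (j0 : Fin c) (hs : c ≤ s + 1) :
    ∃ e : {j : Fin c // j ≠ j0} → Fin s, Function.Injective e := by
  have h : Fintype.card {j : Fin c // j ≠ j0} ≤ Fintype.card (Fin s) := by
    rw [Fintype.card_subtype_compl, Fintype.card_subtype_eq, Fintype.card_fin, Fintype.card_fin]
    omega
  obtain ⟨e⟩ := Function.Embedding.nonempty_of_card_le h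
  exact ⟨e, e.injective⟩

/-- padding a family -/
theorem exists_pad {M : Type*} [CommRing M] {c s : ℕ} (j0 : Fin c) (hs : c ≤ s + 1)
    (I : Ideal M) (G : Fin c → M) (hG : ∀ j, j ≠ j0 → G j ∈ I) :
    ∃ H : Fin s → M, (∀ i, H i ∈ I) ∧
      Ideal.span (Set.range G) = Ideal.span {G j0} ⊔ Ideal.span (Set.range H) := by
  classical
  obtain ⟨e, he⟩ := X1_emb j0 hs
  have h1 : ∀ j, Function.extend e (fun j : {j : Fin c // j ≠ j0} => G j.1) (fun _ => 0) (e j) =
      G j.1 := fun j => he.extend_apply _ _ j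
  have h2 : ∀ i, (∃ j, e j = i) ∨
      Function.extend e (fun j : {j : Fin c // j ≠ j0} => G j.1) (fun _ => 0) i = 0 := by
    intro i
    by_cases hi : ∃ j, e j = i
    · exact Or.inl hi
    · exact Or.inr (Function.extend_apply' _ _ i hi)
  refine ⟨Function.extend e (fun j : {j : Fin c // j ≠ j0} => G j.1) (fun _ => 0), fun i => ?_,
    le_antisymm ?_ ?_⟩
  · rcases h2 i with ⟨j, rfl⟩ | h
    · rw [h1]
      exact hG j.1 j.2
    · rw [h]
      exact I.zero_mem
  · rw [Ideal.span_le]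
    rintro _ ⟨j, rfl⟩
    by_cases hj : j = j0
    · subst hj
      exact Ideal.mem_sup_left (Ideal.subset_span (Set.mem_singleton _))
    · refine Ideal.mem_sup_right (Ideal.subset_span ⟨e ⟨j, hj⟩, ?_⟩)
      rw [h1]
  · refine sup_le ?_ ?_
    · rw [Ideal.span_le, Set.singleton_subset_iff]
      exact Ideal.subset_span ⟨j0, rfl⟩
    · rw [Ideal.span_le]
      rintro _ ⟨i, rfl⟩
      rcases h2 i with ⟨j, rfl⟩ | h
      · rw [h1]
        exact Ideal.subset_span ⟨j.1, rfl⟩
      · rw [h]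
        exact Ideal.zero_mem _

end Pool.Agent.Lib.MP_1bbd88_ag.S
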