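import Pool.Agent.Lib.MP_1bbd88_ag.S.A6
import Pool.Agent.Lib.MP_1bbd88_ag.S.B1
import Pool.Agent.Lib.MP_1bbd88_ag.S.B2
import Pool.Agent.Lib.MP_1bbd88_ag.S.B3
import Pool.Agent.Lib.MP_1bbd88_ag.S.E4
import Pool.Agent.Lib.MP_1bbd88_ag.S.N1
import Pool.Agent.Lib.MP_1bbd88_ag.S.X1

set_option autoImplicit false

namespace Pool.Agent.Lib.MP_1bbd88_ag.S

open Module TensorProduct IsLocalRing

variable {K : Type*} [Field K] [IsAlgClosed K] {n p : ℕ} [Fact p.Prime] [CharP K p]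

/-- the lower bound in `T`: the element `G j0` lies in `dd ^ 2`, the others in `dd` -/
theorem lower_TT (hp : p ≠ 2) (e : ℕ) (Q : Ideal (MvPowerSeries (Fin n) K)) [Q.IsPrime]
    {d c : ℕ} (hdim : ringKrullDim (MvPowerSeries (Fin n) K ⧸ Q) = (d + c : ℕ)) (Ω : Type*)
    [Field Ω] [Algebra (FF Q) Ω] [IsAlgClosed Ω] (G : Fin c → TT (FF Q) Ω p e) (j0 : Fin c)
    (h0 : G j0 ∈ dd (FF Q) Ω p e ^ 2) (h1 : ∀ j, j ≠ j0 → G j ∈ dd (FF Q) Ω p e) :
    Nq K (d + 1) (p ^ e) ≤ finrank Ω (TT (FF Q) Ω p e ⧸ Ideal.span (Set.range G)) := by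
  classical
  set F := FF Q with hF
  have hG1 := h1
  clear h1
  have h1 : p ^ (d + c) ≤ finrank (kq F p 1) F := pdeg Q (d + c) hdim
  have hp0 : 0 < p := (Fact.out : p.Prime).pos
  have hp1 : 1 < p := (Fact.out : p.Prime).one_lt
  have hfin : FiniteDimensional (kq F p 1) F :=
    Module.finite_of_finrank_pos (lt_of_lt_of_le (pow_pos hp0 _) h1)
  obtain ⟨m, z, hm, hz⟩ := exists_pbasis F p
  rw [hm] at h1
  have hdm : d + c ≤ m := (Nat.pow_le_pow_iff_right hp1).1 h1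
  have hc : 1 ≤ c := j0.pos
  obtain ⟨s, rfl⟩ : ∃ s, m = d + 1 + s := ⟨m - (d + 1), by omega⟩
  have hs : c ≤ s + 1 := by omega
  have hz' := adjoin_kq F p z hz e
  have hm' : finrank (kq F p e) F = (p ^ e) ^ (d + 1 + s) := by
    rw [finrank_kq, hm, ← pow_mul, ← pow_mul, Nat.mul_comm]
  obtain ⟨ε, hε⟩ := exists_trunc (Ω := Ω) z e hz' hm'
  have hdd : dd F Ω p e = (wm (d + 1 + s) (p ^ e) Ω).map (ε : W (d + 1 + s) (p ^ e) Ω →+* TT F Ω p e) := by
    rw [dd_eq z e hz', wm, Ideal.map_span, ← Set.range_comp]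
    congr 1
    congr 1
    funext i
    exact (hε i).symm
  have hback : ∀ (I : Ideal (W (d + 1 + s) (p ^ e) Ω)) (t : TT F Ω p e),
      t ∈ I.map (ε : W (d + 1 + s) (p ^ e) Ω →+* TT F Ω p e) → ε.symm t ∈ I := by
    intro I t ht
    obtain ⟨w, hw, hwt⟩ := (Ideal.mem_map_of_equiv (ε : W (d + 1 + s) (p ^ e) Ω ≃+* TT F Ω p e) t).1 ht
    have : ε.symm t = w := by
      rw [← hwt]
      exact ε.symm_apply_apply w
    rw [this]
    exact hw
  obtain ⟨H, hH, hspan⟩ := exists_pad j0 hs (dd F Ω p e) G hG1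
  have hch : CharP Ω p := charP_of_injective_algebraMap (algebraMap F Ω).injective p
  have hG0 : ε.symm (G j0) ∈ wm (d + 1 + s) (p ^ e) Ω ^ 2 := by
    refine hback _ _ ?_
    rw [Ideal.map_pow, ← hdd]
    exact h0
  have hH' : ∀ i, ε.symm (H i) ∈ wm (d + 1 + s) (p ^ e) Ω := fun i => by
    refine hback _ _ ?_
    rw [← hdd]
    exact hH i
  have key := lemmaE hp (d + 1) s e (ε.symm (G j0)) hG0 (fun i => ε.symm (H i)) hH'
  let _ : Algebra K Ω := ((algebraMap F Ω).comp ((jj Q).comp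
    (MvPowerSeries.C : K →+* MvPowerSeries (Fin n) K))).toAlgebra
  rw [Nq_ext K Ω] at key
  refine key.trans (le_of_eq ?_)
  have hmap : Ideal.span (Set.range G) =
      (Ideal.span {ε.symm (G j0)} ⊔ Ideal.span (Set.range fun i => ε.symm (H i))).map
        (ε : W (d + 1 + s) (p ^ e) Ω →+* TT F Ω p e) := by
    rw [hspan, Ideal.map_sup, Ideal.map_span, Ideal.map_span, Set.image_singleton, ← Set.range_comp]
    have e1 : (ε : W (d + 1 + s) (p ^ e) Ω →+* TT F Ω p e) (ε.symm (G j0)) = G j0 :=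
      ε.apply_symm_apply _
    have e2 : ((ε : W (d + 1 + s) (p ^ e) Ω →+* TT F Ω p e) ∘ fun i => ε.symm (H i)) = H :=
      funext fun i => ε.apply_symm_apply _
    rw [e1, e2]
  exact (Ideal.quotientEquivAlg _ _ ε hmap).toLinearEquiv.finrank_eq

end Pool.Agent.Lib.MP_1bbd88_ag.S
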