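import Pool.Agent.Lib.MP_1bbd88_ag.S.C1
import Pool.Agent.Lib.MP_1bbd88_ag.S.C2
import Pool.Agent.Lib.MP_1bbd88_ag.S.C3
import Pool.Agent.Lib.MP_1bbd88_ag.S.D1
import Pool.Agent.Lib.MP_1bbd88_ag.S.X2
import Pool.Agent.Lib.MP_1bbd88_ag.S.Dg

set_option autoImplicit false

namespace Pool.Agent.Lib.MP_1bbd88_ag.S

open Module TensorProduct IsLocalRing

variable {K : Type*} [Field K] [IsAlgClosed K] {n p : ℕ} [Fact p.Prime] [CharP K p]

theorem X3_span (e : ℕ) (Q : Ideal (MvPowerSeries (Fin n) K)) [Q.IsPrime]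
    (V : ValuationSubring (FF Q)) (hV : ∀ g, jj Q g ∈ V)
    (a : MvPowerSeries (Fin n) K ⧸ Q) : ∃ s : Fin n → FF Q, (∀ i, s i ∈ V) ∧
      KaehlerDifferential.D (kq (FF Q) p e) (FF Q)
          (algebraMap (MvPowerSeries (Fin n) K ⧸ Q) (FF Q) a) =
        ∑ i, s i • KaehlerDifferential.D (kq (FF Q) p e) (FF Q)
          (jj Q (MvPowerSeries.X i)) := by
  obtain ⟨g, rfl⟩ := Ideal.Quotient.mk_surjective a
  obtain ⟨s, hs⟩ := d_span (p := p) e Q g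
  exact ⟨fun i => jj Q (s i), fun i => hV (s i), hs⟩

theorem X3_main (hp : p ≠ 2) (e : ℕ) (Q : Ideal (MvPowerSeries (Fin n) K)) [Q.IsPrime]
    {d c : ℕ} (hc : 0 < c) (hdim : ringKrullDim (MvPowerSeries (Fin n) K ⧸ Q) = (d + c : ℕ))
    (V : ValuationSubring (FF Q)) (hV : ∀ g, jj Q g ∈ V)
    (hm : ∀ g : MvPowerSeries (Fin n) K, MvPowerSeries.constantCoeff g = 0 → jj Q g ∈ V.nonunits)
    (f : Fin c → MvPowerSeries (Fin n) K) (hf : ∀ j, MvPowerSeries.constantCoeff (f j) = 0)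
    (hdeg : Degen (MvPowerSeries (Fin n) K ⧸ Q) (FF Q) V fun j => Ideal.Quotient.mk Q (f j))
    (Ω : Type*) [Field Ω] [Algebra (FF Q) Ω] [IsAlgClosed Ω] :
    Nq K (d + 1) (p ^ e) ≤ finrank K (MvPowerSeries (Fin n) K ⧸
      (Q ⊔ Ideal.span (Set.range f) ⊔ psI (Fin n) K (p ^ e))) := by
  obtain ⟨α, j0, μ, hα, hαV, hμ, hrel⟩ :=
    kaehler_relation (kq (FF Q) p e) V hc (fun i => jj Q (MvPowerSeries.X i))
      (fun j => Ideal.Quotient.mk Q (f j)) (X3_span (p := p) e Q V hV) hdeg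
  let G : Fin c → TT (FF Q) Ω p e := fun j =>
    if j = j0 then ∑ j, algebraMap (FF Q) Ω (α j) •
        DD Ω p e (jj Q (f j)) -
      ∑ i, algebraMap (FF Q) Ω (μ i) •
        DD Ω p e (jj Q (MvPowerSeries.X i))
    else DD Ω p e (jj Q (f j))
  have hG0 : G j0 = ∑ j, algebraMap (FF Q) Ω (α j) •
        DD Ω p e (jj Q (f j)) -
      ∑ i, algebraMap (FF Q) Ω (μ i) •
        DD Ω p e (jj Q (MvPowerSeries.X i)) := if_pos rfl
  have hG : ∀ j, j ≠ j0 → G j = DD Ω p e (jj Q (f j)) :=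
    fun j hj => if_neg hj
  have h0 : G j0 ∈ dd (FF Q) Ω p e ^ 2 := by
    rw [hG0]
    exact mem_dd_sq e α (fun j => jj Q (f j)) μ (fun i => jj Q (MvPowerSeries.X i)) hrel
  have h1 : ∀ j, j ≠ j0 → G j ∈ dd (FF Q) Ω p e := by
    intro j hj
    rw [hG j hj]
    exact Ideal.subset_span ⟨_, rfl⟩
  exact (lower_TT (K := K) hp e Q hdim Ω G j0 h0 h1).trans
    (core e Q Ω V hV hm f hf α j0 hα hαV μ hμ G hG0 hG)

theorem main_ineq (hp : p ≠ 2) (e : ℕ) (Q : Ideal (MvPowerSeries (Fin n) K)) [Q.IsPrime]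
    {d c : ℕ} (hc : 0 < c) (hdim : ringKrullDim (MvPowerSeries (Fin n) K ⧸ Q) = (d + c : ℕ))
    (V : ValuationSubring (FF Q)) (hV : ∀ g, jj Q g ∈ V)
    (hm : ∀ g : MvPowerSeries (Fin n) K, MvPowerSeries.constantCoeff g = 0 → jj Q g ∈ V.nonunits)
    (f : Fin c → MvPowerSeries (Fin n) K) (hf : ∀ j, MvPowerSeries.constantCoeff (f j) = 0)
    (hdeg : Degen (MvPowerSeries (Fin n) K ⧸ Q) (FF Q) V fun j => Ideal.Quotient.mk Q (f j)) :
    Nq K (d + 1) (p ^ e) ≤ finrank K (MvPowerSeries (Fin n) K ⧸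
      (Q ⊔ Ideal.span (Set.range f) ⊔ psI (Fin n) K (p ^ e))) :=
  X3_main hp e Q hc hdim V hV hm f hf hdeg (AlgebraicClosure (FF Q))

end Pool.Agent.Lib.MP_1bbd88_ag.S
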